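import Pool.Agent.Lib.MP_cf17a0_co.Mg.G009

/-! # FAR arcs: closed forms of `dd l` (task FE)

In the variable `s = e^(-v) ∈ (0,1)` all statements are the fundamental theorem of calculus on `[0, s]`
with the primitives (all vanish at `0`)
* `l = 3`: the integrand is `s²/(1-s⁶)`, primitive `(1/6) log ((1+s³)/(1-s³))`;
* `l = 4`: `(1/18) log ((1+s²+s⁴)/(1-s²)²) - s²/(6 (1+s²+s⁴))`;
* `l = 5`: `(1/18) log ((1+s)/(1-s)) + (1/36) log ((1+s+s²)/(1-s+s²)) - s (1+s²)/(6 (1+s²+s⁴))`;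
* `dd 2 + dd 4`: integrand `(s+s³)/(1-s⁶)`, primitive `-(1/2) log (1-s²) + (1/6) log (1-s⁶)`;
* `dd 1 + dd 3 + dd 5`: integrand `1/(1-s²)`, primitive `(1/2) log ((1+s)/(1-s))`. -/

namespace Pool.Agent.SignedQ.Far

open Real Finset

private theorem Fe_ftc {x : ℝ} (hx0 : 0 ≤ x) (hx1 : x < 1) {f F : ℝ → ℝ}
    (hF : ∀ s, 0 ≤ s → s < 1 → HasDerivAt F (f s) s)
    (hf : ∀ s, 0 ≤ s → s < 1 → ContinuousAt f s) : ∫ s in (0 : ℝ)..x, f s = F x - F 0 := by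
  apply intervalIntegral.integral_eq_sub_of_hasDerivAt
  · intro s hs
    rw [Set.uIcc_of_le hx0] at hs
    exact hF s hs.1 (lt_of_le_of_lt hs.2 hx1)
  · apply ContinuousOn.intervalIntegrable
    intro s hs
    rw [Set.uIcc_of_le hx0] at hs
    exact (hf s hs.1 (lt_of_le_of_lt hs.2 hx1)).continuousWithinAt

private theorem Fe_six {s : ℝ} (h0 : 0 ≤ s) (h1 : s < 1) : 1 - s ^ 6 ≠ 0 := by
  have h2 : s ^ 6 < 1 := pow_lt_one₀ h0 h1 (by norm_num)
  linarith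

private theorem Fe_cont (a b : ℕ) {s : ℝ} (h0 : 0 ≤ s) (h1 : s < 1) :
    ContinuousAt (fun s : ℝ => (s ^ a - s ^ b) / (1 - s ^ 6) ^ 2) s := by
  refine ContinuousAt.div (by fun_prop) (by fun_prop) ?_
  exact pow_ne_zero 2 (Fe_six h0 h1)

private theorem Fe_int (l : ℕ) {x : ℝ} (hx0 : 0 ≤ x) (hx1 : x < 1) :
    IntervalIntegrable (fun s : ℝ => (s ^ (l - 1) - s ^ (11 - l)) / (1 - s ^ 6) ^ 2)
      MeasureTheory.volume 0 x := by
  apply ContinuousOn.intervalIntegrable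
  intro s hs
  rw [Set.uIcc_of_le hx0] at hs
  exact (Fe_cont _ _ hs.1 (lt_of_le_of_lt hs.2 hx1)).continuousWithinAt

private theorem Fe_elt {x : ℝ} (h : x < 0) : exp x < 1 := by
  rw [← exp_zero]
  exact exp_lt_exp.2 h

private theorem Fe_s {v : ℝ} (hv : 0 < v) : 0 < exp (-v) ∧ exp (-v) < 1 :=
  ⟨exp_pos _, Fe_elt (by linarith)⟩

private theorem Fe_coth {w : ℝ} (hw : 0 < w) :
    cosh w / sinh w = (1 + exp (-(2 * w))) / (1 - exp (-(2 * w))) := by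
  have h1 : exp (-(2 * w)) = exp (-w) * exp (-w) := by
    rw [← exp_add]
    congr 1
    ring
  have h2 : exp w * exp (-w) = 1 := by
    rw [← exp_add, add_neg_cancel, exp_zero]
  have h3 : 0 < sinh w := sinh_pos_iff.2 hw
  have h4 : exp (-w) * exp (-w) < 1 := by
    rw [← h1]
    exact Fe_elt (by linarith)
  rw [h1, div_eq_div_iff h3.ne' (by linarith), cosh_eq, sinh_eq]
  generalize exp (-w) = t at *
  generalize exp w = u at *
  linear_combination (-t) * h2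

theorem dd_three {v : ℝ} (hv : 0 < v) :
    dd 3 v = 1 / 6 * log (cosh (3 * v / 2) / sinh (3 * v / 2)) := by
  obtain ⟨hs0, hs1⟩ := Fe_s hv
  unfold dd
  have h1 : ∫ s in (0 : ℝ)..exp (-v), (s ^ (3 - 1) - s ^ (11 - 3)) / (1 - s ^ 6) ^ 2 =
      (fun s : ℝ => 1 / 6 * (log (1 + s ^ 3) - log (1 - s ^ 3))) (exp (-v)) -
        (fun s : ℝ => 1 / 6 * (log (1 + s ^ 3) - log (1 - s ^ 3))) 0 := by
    refine Fe_ftc (f := fun s : ℝ => (s ^ (3 - 1) - s ^ (11 - 3)) / (1 - s ^ 6) ^ 2)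
      (F := fun s : ℝ => 1 / 6 * (log (1 + s ^ 3) - log (1 - s ^ 3))) hs0.le hs1 (fun s a b => ?_) (fun s a b => Fe_cont _ _ a b)
    have h3 : s ^ 3 < 1 := pow_lt_one₀ a b (by norm_num)
    have h3' : 0 ≤ s ^ 3 := pow_nonneg a 3
    have d1 : HasDerivAt (fun s : ℝ => 1 + s ^ 3) (3 * s ^ 2) s :=
      ((hasDerivAt_pow 3 s).const_add 1).congr_deriv (by norm_num)
    have d2 : HasDerivAt (fun s : ℝ => 1 - s ^ 3) (-(3 * s ^ 2)) s :=
      ((hasDerivAt_pow 3 s).const_sub 1).congr_deriv (by norm_num)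
    have n1 : 1 + s ^ 3 ≠ 0 := by linarith
    have n2 : 1 - s ^ 3 ≠ 0 := by linarith
    have d3 := ((d1.log n1).sub (d2.log n2)).const_mul (1 / 6 : ℝ)
    refine d3.congr_deriv ?_
    have e : 1 - s ^ 6 = (1 + s ^ 3) * (1 - s ^ 3) := by ring
    rw [e]
    field_simp
    ring
  rw [h1]
  simp only
  have e0 : exp (-v) ^ 3 = exp (-(2 * (3 * v / 2))) := by
    rw [← exp_nat_mul]
    congr 1
    push_cast
    ring
  have e1 : exp (-(2 * (3 * v / 2))) < 1 := Fe_elt (by linarith)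
  rw [Fe_coth (by linarith : 0 < 3 * v / 2), ← e0, log_div]
  · norm_num
  · positivity
  · rw [e0]
    linarith

theorem dd_four {v : ℝ} (hv : 0 < v) :
    dd 4 v = 1 / 18 * log ((2 * cosh (2 * v) + 1) / (2 * (cosh (2 * v) - 1))) -
      1 / (6 * (2 * cosh (2 * v) + 1)) := by
  obtain ⟨hs0, hs1⟩ := Fe_s hv
  unfold dd
  have h1 : ∫ s in (0 : ℝ)..exp (-v), (s ^ (4 - 1) - s ^ (11 - 4)) / (1 - s ^ 6) ^ 2 =
      (fun s : ℝ => 1 / 18 * (log (1 + s ^ 2 + s ^ 4) - 2 * log (1 - s ^ 2)) -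
        s ^ 2 / (6 * (1 + s ^ 2 + s ^ 4))) (exp (-v)) -
        (fun s : ℝ => 1 / 18 * (log (1 + s ^ 2 + s ^ 4) - 2 * log (1 - s ^ 2)) -
        s ^ 2 / (6 * (1 + s ^ 2 + s ^ 4))) 0 := by
    refine Fe_ftc (f := fun s : ℝ => (s ^ (4 - 1) - s ^ (11 - 4)) / (1 - s ^ 6) ^ 2)
      (F := fun s : ℝ => 1 / 18 * (log (1 + s ^ 2 + s ^ 4) - 2 * log (1 - s ^ 2)) -
        s ^ 2 / (6 * (1 + s ^ 2 + s ^ 4))) hs0.le hs1 (fun s a b => ?_) (fun s a b => Fe_cont _ _ a b)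
    have h3 : s ^ 2 < 1 := pow_lt_one₀ a b (by norm_num)
    have h3' : 0 ≤ s ^ 2 := pow_nonneg a 2
    have h4' : 0 ≤ s ^ 4 := pow_nonneg a 4
    have d1 : HasDerivAt (fun s : ℝ => 1 + s ^ 2 + s ^ 4) (2 * s + 4 * s ^ 3) s :=
      (((hasDerivAt_pow 2 s).const_add 1).add (hasDerivAt_pow 4 s)).congr_deriv (by norm_num)
    have d2 : HasDerivAt (fun s : ℝ => 1 - s ^ 2) (-(2 * s)) s :=
      ((hasDerivAt_pow 2 s).const_sub 1).congr_deriv (by norm_num)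
    have d3 : HasDerivAt (fun s : ℝ => s ^ 2) (2 * s) s :=
      (hasDerivAt_pow 2 s).congr_deriv (by norm_num)
    have n1 : 1 + s ^ 2 + s ^ 4 ≠ 0 := by linarith
    have n2 : 1 - s ^ 2 ≠ 0 := by linarith
    have n3 : 6 * (1 + s ^ 2 + s ^ 4) ≠ 0 := mul_ne_zero (by norm_num) n1
    have d4 := (((d1.log n1).sub ((d2.log n2).const_mul (2 : ℝ))).const_mul (1 / 18 : ℝ)).sub
      (d3.div (d1.const_mul (6 : ℝ)) n3)
    refine d4.congr_deriv ?_
    have e : 1 - s ^ 6 = (1 - s ^ 2) * (1 + s ^ 2 + s ^ 4) := by ring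
    rw [e]
    field_simp
    ring
  rw [h1]
  simp only
  have hs2 : exp (-v) ^ 2 < 1 := pow_lt_one₀ hs0.le hs1 (by norm_num)
  have c2 : 2 * cosh (2 * v) = (1 + exp (-v) ^ 4) / exp (-v) ^ 2 := by
    rw [cosh_eq]
    have h2 : exp (2 * v) * exp (-v) ^ 2 = 1 := by
      rw [← exp_nat_mul, ← exp_add, ← exp_zero]
      congr 1
      push_cast
      ring
    have h3 : exp (-(2 * v)) = exp (-v) ^ 2 := by
      rw [← exp_nat_mul]
      congr 1
      push_cast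
      ring
    rw [h3, eq_div_iff (by positivity)]
    linear_combination h2
  have hs2' : 0 < exp (-v) ^ 2 := by positivity
  have hs4' : 0 < exp (-v) ^ 4 := by positivity
  have n2 : (1 - exp (-v) ^ 2) ≠ 0 := by linarith
  have a1 : 2 * cosh (2 * v) + 1 = (1 + exp (-v) ^ 2 + exp (-v) ^ 4) / exp (-v) ^ 2 := by
    rw [c2]
    field_simp
    ring
  have a2 : 2 * (cosh (2 * v) - 1) = (1 - exp (-v) ^ 2) ^ 2 / exp (-v) ^ 2 := by
    have : 2 * (cosh (2 * v) - 1) = 2 * cosh (2 * v) - 2 := by ring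
    rw [this, c2]
    field_simp
    ring
  have a3 : (2 * cosh (2 * v) + 1) / (2 * (cosh (2 * v) - 1)) =
      (1 + exp (-v) ^ 2 + exp (-v) ^ 4) / (1 - exp (-v) ^ 2) ^ 2 := by
    rw [a1, a2]
    field_simp
  have a4 : 1 / (6 * (2 * cosh (2 * v) + 1)) =
      exp (-v) ^ 2 / (6 * (1 + exp (-v) ^ 2 + exp (-v) ^ 4)) := by
    rw [a1]
    field_simp
  rw [a3, a4, log_div (by positivity) (pow_ne_zero 2 n2), log_pow]
  norm_num

theorem dd_five {v : ℝ} (hv : 0 < v) :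
    dd 5 v = 1 / 36 * log ((cosh v + 1) / (cosh v - 1)) +
      1 / 36 * log ((2 * cosh v + 1) / (2 * cosh v - 1)) - cosh v / (3 * (4 * cosh v ^ 2 - 1)) := by
  obtain ⟨hs0, hs1⟩ := Fe_s hv
  unfold dd
  have h1 : ∫ s in (0 : ℝ)..exp (-v), (s ^ (5 - 1) - s ^ (11 - 5)) / (1 - s ^ 6) ^ 2 =
      (fun s : ℝ => 1 / 18 * (log (1 + s) - log (1 - s)) +
        1 / 36 * (log (1 + s + s ^ 2) - log (1 - s + s ^ 2)) -
        (s + s ^ 3) / (6 * (1 + s ^ 2 + s ^ 4))) (exp (-v)) -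
        (fun s : ℝ => 1 / 18 * (log (1 + s) - log (1 - s)) +
        1 / 36 * (log (1 + s + s ^ 2) - log (1 - s + s ^ 2)) -
        (s + s ^ 3) / (6 * (1 + s ^ 2 + s ^ 4))) 0 := by
    refine Fe_ftc (f := fun s : ℝ => (s ^ (5 - 1) - s ^ (11 - 5)) / (1 - s ^ 6) ^ 2)
      (F := fun s : ℝ => 1 / 18 * (log (1 + s) - log (1 - s)) +
        1 / 36 * (log (1 + s + s ^ 2) - log (1 - s + s ^ 2)) -
        (s + s ^ 3) / (6 * (1 + s ^ 2 + s ^ 4))) hs0.le hs1 (fun s a b => ?_) (fun s a b => Fe_cont _ _ a b)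
    have h2' : 0 ≤ s ^ 2 := pow_nonneg a 2
    have h4' : 0 ≤ s ^ 4 := pow_nonneg a 4
    have d1 : HasDerivAt (fun s : ℝ => 1 + s ^ 2 + s ^ 4) (2 * s + 4 * s ^ 3) s :=
      (((hasDerivAt_pow 2 s).const_add 1).add (hasDerivAt_pow 4 s)).congr_deriv (by norm_num)
    have d2 : HasDerivAt (fun s : ℝ => 1 + s) 1 s := (hasDerivAt_id' s).const_add 1
    have d3 : HasDerivAt (fun s : ℝ => 1 - s) (-1) s := (hasDerivAt_id' s).const_sub 1
    have d5 : HasDerivAt (fun s : ℝ => 1 + s + s ^ 2) (1 + 2 * s) s :=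
      (d2.add (hasDerivAt_pow 2 s)).congr_deriv (by norm_num)
    have d6 : HasDerivAt (fun s : ℝ => 1 - s + s ^ 2) (-1 + 2 * s) s :=
      (d3.add (hasDerivAt_pow 2 s)).congr_deriv (by norm_num)
    have d7 : HasDerivAt (fun s : ℝ => s + s ^ 3) (1 + 3 * s ^ 2) s :=
      ((hasDerivAt_id' s).add (hasDerivAt_pow 3 s)).congr_deriv (by norm_num)
    have n1 : 1 + s ≠ 0 := by linarith
    have n2 : 1 - s ≠ 0 := by linarith
    have n3 : 1 + s + s ^ 2 ≠ 0 := by linarith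
    have n4 : 1 - s + s ^ 2 ≠ 0 := by
      have : 0 < 1 - s + s ^ 2 := by linarith
      exact this.ne'
    have n5 : 6 * (1 + s ^ 2 + s ^ 4) ≠ 0 := by
      have : 0 < 6 * (1 + s ^ 2 + s ^ 4) := by linarith
      exact this.ne'
    have d8 := ((((d2.log n1).sub (d3.log n2)).const_mul (1 / 18 : ℝ)).add
      (((d5.log n3).sub (d6.log n4)).const_mul (1 / 36 : ℝ))).sub
      (d7.div (d1.const_mul (6 : ℝ)) n5)
    refine d8.congr_deriv ?_
    have e1 : 1 + s ^ 2 + s ^ 4 = (1 + s + s ^ 2) * (1 - s + s ^ 2) := by ring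
    have e2 : 1 - s ^ 6 = ((1 + s) * (1 - s)) * ((1 + s + s ^ 2) * (1 - s + s ^ 2)) := by ring
    rw [e1, e2]
    field_simp
    ring
  rw [h1]
  simp only
  have c2 : 2 * cosh v = (1 + exp (-v) ^ 2) / exp (-v) := by
    rw [cosh_eq]
    have h2 : exp v * exp (-v) = 1 := by
      rw [← exp_add, add_neg_cancel, exp_zero]
    rw [eq_div_iff hs0.ne']
    linear_combination h2
  have hs2' : 0 < exp (-v) ^ 2 := by positivity
  have hs4' : 0 < exp (-v) ^ 4 := by positivity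
  have m1 : 0 < 1 - exp (-v) := by linarith
  have m2 : 0 < 1 - exp (-v) + exp (-v) ^ 2 := by linarith
  have a1 : (cosh v + 1) / (cosh v - 1) = ((1 + exp (-v)) / (1 - exp (-v))) ^ 2 := by
    have b1 : cosh v + 1 = (1 + exp (-v)) ^ 2 / (2 * exp (-v)) := by
      have : cosh v = (1 + exp (-v) ^ 2) / exp (-v) / 2 := by rw [← c2]; ring
      rw [this]
      field_simp
      ring
    have b2 : cosh v - 1 = (1 - exp (-v)) ^ 2 / (2 * exp (-v)) := by
      have : cosh v = (1 + exp (-v) ^ 2) / exp (-v) / 2 := by rw [← c2]; ring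
      rw [this]
      field_simp
      ring
    rw [b1, b2]
    field_simp
  have a2 : (2 * cosh v + 1) / (2 * cosh v - 1) =
      (1 + exp (-v) + exp (-v) ^ 2) / (1 - exp (-v) + exp (-v) ^ 2) := by
    have b1 : 2 * cosh v + 1 = (1 + exp (-v) + exp (-v) ^ 2) / exp (-v) := by
      rw [c2]
      field_simp
      ring
    have b2 : 2 * cosh v - 1 = (1 - exp (-v) + exp (-v) ^ 2) / exp (-v) := by
      rw [c2]
      field_simp
      ring
    rw [b1, b2]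
    field_simp
  have a3 : cosh v / (3 * (4 * cosh v ^ 2 - 1)) =
      (exp (-v) + exp (-v) ^ 3) / (6 * (1 + exp (-v) ^ 2 + exp (-v) ^ 4)) := by
    have b0 : cosh v = (1 + exp (-v) ^ 2) / exp (-v) / 2 := by rw [← c2]; ring
    have b1 : 4 * cosh v ^ 2 - 1 = (1 + exp (-v) ^ 2 + exp (-v) ^ 4) / exp (-v) ^ 2 := by
      rw [b0]
      field_simp
      ring
    rw [b1, b0]
    field_simp
    norm_num
  rw [a1, a2, a3, log_pow, log_div (by positivity) m1.ne', log_div (by positivity) m2.ne']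
  norm_num
  ring

theorem dd_two_add_four {v : ℝ} (hv : 0 < v) :
    dd 2 v + dd 4 v = -(1 / 2 * log (1 - exp (-(2 * v)))) + 1 / 6 * log (1 - exp (-(6 * v))) := by
  obtain ⟨hs0, hs1⟩ := Fe_s hv
  unfold dd
  rw [← intervalIntegral.integral_add (Fe_int 2 hs0.le hs1) (Fe_int 4 hs0.le hs1)]
  have h1 : ∫ s in (0 : ℝ)..exp (-v), ((s ^ (2 - 1) - s ^ (11 - 2)) / (1 - s ^ 6) ^ 2 +
      (s ^ (4 - 1) - s ^ (11 - 4)) / (1 - s ^ 6) ^ 2) =
      (fun s : ℝ => -(1 / 2 * log (1 - s ^ 2)) + 1 / 6 * log (1 - s ^ 6)) (exp (-v)) -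
        (fun s : ℝ => -(1 / 2 * log (1 - s ^ 2)) + 1 / 6 * log (1 - s ^ 6)) 0 := by
    refine Fe_ftc (f := fun s : ℝ => (s ^ (2 - 1) - s ^ (11 - 2)) / (1 - s ^ 6) ^ 2 +
      (s ^ (4 - 1) - s ^ (11 - 4)) / (1 - s ^ 6) ^ 2)
      (F := fun s : ℝ => -(1 / 2 * log (1 - s ^ 2)) + 1 / 6 * log (1 - s ^ 6)) hs0.le hs1 (fun s a b => ?_)
      (fun s a b => (Fe_cont _ _ a b).add (Fe_cont _ _ a b))
    have h2 : s ^ 2 < 1 := pow_lt_one₀ a b (by norm_num)
    have h2' : 0 ≤ s ^ 2 := pow_nonneg a 2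
    have h4' : 0 ≤ s ^ 4 := pow_nonneg a 4
    have d1 : HasDerivAt (fun s : ℝ => 1 - s ^ 2) (-(2 * s)) s :=
      ((hasDerivAt_pow 2 s).const_sub 1).congr_deriv (by norm_num)
    have d2 : HasDerivAt (fun s : ℝ => 1 - s ^ 6) (-(6 * s ^ 5)) s :=
      ((hasDerivAt_pow 6 s).const_sub 1).congr_deriv (by norm_num)
    have n1 : 1 - s ^ 2 ≠ 0 := by linarith
    have n2 := Fe_six a b
    have n3 : 1 + s ^ 2 + s ^ 4 ≠ 0 := by linarith
    have d3 := (((d1.log n1).const_mul (1 / 2 : ℝ)).neg).add ((d2.log n2).const_mul (1 / 6 : ℝ))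
    refine d3.congr_deriv ?_
    have e : 1 - s ^ 6 = (1 - s ^ 2) * (1 + s ^ 2 + s ^ 4) := by ring
    rw [e]
    field_simp
    ring
  rw [h1]
  simp only
  have e0 : exp (-v) ^ 2 = exp (-(2 * v)) := by
    rw [← exp_nat_mul]
    congr 1
    push_cast
    ring
  have e1 : exp (-v) ^ 6 = exp (-(6 * v)) := by
    rw [← exp_nat_mul]
    congr 1
    push_cast
    ring
  rw [e0, e1]
  norm_num

theorem dd_odd_sum {v : ℝ} (hv : 0 < v) :
    dd 1 v + dd 3 v + dd 5 v = 1 / 2 * log (cosh (v / 2) / sinh (v / 2)) := by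
  obtain ⟨hs0, hs1⟩ := Fe_s hv
  unfold dd
  rw [← intervalIntegral.integral_add (Fe_int 1 hs0.le hs1) (Fe_int 3 hs0.le hs1),
    ← intervalIntegral.integral_add ((Fe_int 1 hs0.le hs1).add (Fe_int 3 hs0.le hs1))
      (Fe_int 5 hs0.le hs1)]
  have h1 : ∫ s in (0 : ℝ)..exp (-v), ((s ^ (1 - 1) - s ^ (11 - 1)) / (1 - s ^ 6) ^ 2 +
      (s ^ (3 - 1) - s ^ (11 - 3)) / (1 - s ^ 6) ^ 2 +
      (s ^ (5 - 1) - s ^ (11 - 5)) / (1 - s ^ 6) ^ 2) =
      (fun s : ℝ => 1 / 2 * (log (1 + s) - log (1 - s))) (exp (-v)) -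
        (fun s : ℝ => 1 / 2 * (log (1 + s) - log (1 - s))) 0 := by
    refine Fe_ftc (f := fun s : ℝ => (s ^ (1 - 1) - s ^ (11 - 1)) / (1 - s ^ 6) ^ 2 +
      (s ^ (3 - 1) - s ^ (11 - 3)) / (1 - s ^ 6) ^ 2 +
      (s ^ (5 - 1) - s ^ (11 - 5)) / (1 - s ^ 6) ^ 2)
      (F := fun s : ℝ => 1 / 2 * (log (1 + s) - log (1 - s))) hs0.le hs1 (fun s a b => ?_)
      (fun s a b => ((Fe_cont _ _ a b).add (Fe_cont _ _ a b)).add (Fe_cont _ _ a b))
    have h2' : 0 ≤ s ^ 2 := pow_nonneg a 2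
    have h4' : 0 ≤ s ^ 4 := pow_nonneg a 4
    have d2 : HasDerivAt (fun s : ℝ => 1 + s) 1 s := (hasDerivAt_id' s).const_add 1
    have d3 : HasDerivAt (fun s : ℝ => 1 - s) (-1) s := (hasDerivAt_id' s).const_sub 1
    have n1 : 1 + s ≠ 0 := by linarith
    have n2 : 1 - s ≠ 0 := by linarith
    have n3 : 1 + s ^ 2 + s ^ 4 ≠ 0 := by linarith
    have d4 := ((d2.log n1).sub (d3.log n2)).const_mul (1 / 2 : ℝ)
    refine d4.congr_deriv ?_
    have e : 1 - s ^ 6 = ((1 + s) * (1 - s)) * (1 + s ^ 2 + s ^ 4) := by ring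
    rw [e]
    norm_num
    field_simp
    ring
  rw [h1]
  simp only
  have e0 : exp (-v) = exp (-(2 * (v / 2))) := by
    congr 1
    ring
  rw [Fe_coth (by linarith : 0 < v / 2), ← e0, log_div (by positivity) (by linarith)]
  norm_num

/-- From the last two (`(1+s)/(1-s) = coth (v/2)`): the sum is
`-log (1-s) + (1/6) log (1-s⁶) ≥ log (1/v) + (1/6) (log (6v) - 3v)`
(`1 - e^(-y) ≤ y`, `1 - e^(-y) = 2 e^(-y/2) sinh (y/2) ≥ y e^(-y/2)`). -/
theorem dd_sum_ge {v : ℝ} (hv : 0 < v) :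
    -(5 / 6 * log v) + 1 / 6 * log 6 - v / 2 ≤ dd 1 v + dd 2 v + dd 3 v + dd 4 v + dd 5 v := by
  obtain ⟨hs0, hs1⟩ := Fe_s hv
  have e : dd 1 v + dd 2 v + dd 3 v + dd 4 v + dd 5 v =
      (dd 1 v + dd 3 v + dd 5 v) + (dd 2 v + dd 4 v) := by ring
  rw [e, dd_odd_sum hv, dd_two_add_four hv, Fe_coth (by linarith : 0 < v / 2)]
  have e0 : exp (-(2 * (v / 2))) = exp (-v) := by
    congr 1
    ring
  have e1 : exp (-(2 * v)) = exp (-v) ^ 2 := by
    rw [← exp_nat_mul]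
    congr 1
    push_cast
    ring
  have m1 : 0 < 1 - exp (-v) := by linarith
  have m2 : 0 < 1 + exp (-v) := by linarith
  have e2 : 1 - exp (-v) ^ 2 = (1 - exp (-v)) * (1 + exp (-v)) := by ring
  rw [e0, e1, e2, log_div m2.ne' m1.ne', log_mul m1.ne' m2.ne']
  have h1 : log (1 - exp (-v)) ≤ log v := by
    apply log_le_log m1
    have := add_one_le_exp (-v)
    linarith
  have h2 : log 6 + log v - 3 * v ≤ log (1 - exp (-(6 * v))) := by
    have h3 : 1 - exp (-(6 * v)) = exp (-(3 * v)) * (2 * sinh (3 * v)) := by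
      rw [sinh_eq]
      have h4 : exp (-(3 * v)) * exp (3 * v) = 1 := by
        rw [← exp_add, neg_add_cancel, exp_zero]
      have h5 : exp (-(6 * v)) = exp (-(3 * v)) * exp (-(3 * v)) := by
        rw [← exp_add]
        congr 1
        ring
      rw [h5]
      linear_combination -h4
    have h6 : 3 * v ≤ sinh (3 * v) := self_le_sinh_iff.2 (by linarith)
    have h7 : 0 < sinh (3 * v) := by linarith
    rw [h3, log_mul (exp_pos _).ne' (by positivity), log_exp]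
    have h8 : log (6 * v) ≤ log (2 * sinh (3 * v)) := log_le_log (by positivity) (by linarith)
    rw [log_mul (by norm_num) hv.ne'] at h8
    linarith
  linarith

end Pool.Agent.SignedQ.Far
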