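import Pool.Agent.Lib.MP_cf17a0_co.Mg.G009
import Pool.Agent.Lib.MP_cf17a0_co.S1.Herm

/-! # FAR arcs: the denominators (task FG) -/

namespace Pool.Agent.SignedQ.Far

open Real Finset

/-- `Herm.neg_log_le_TD 5` with `ρ = exp (-v)`: `D ρ φ = 2 ρ (cosh v - cos φ)`, and
`-v/2 - (1/6) log (1 - e^(-6v)) = -(1/6) log (2 sinh 3v)`; `dd l v = Herm.cD 5 (l-1) (exp (-v))`. -/
theorem den_factor {v : ℝ} (hv : 0 < v) (φ : ℝ) :
    -(1 / 2 * log (2 * (cosh v - cos φ))) ≤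
      -(1 / 6 * log (2 * sinh (3 * v))) + ∑ l ∈ Icc 1 5, dd l v * cos (l * φ) := by
  have hρ0 : 0 < exp (-v) := exp_pos _
  have hρ1 : exp (-v) < 1 := by
    rw [exp_lt_one_iff]
    linarith
  have hm := Herm.neg_log_le_TD 5 hρ0.le hρ1 φ
  have hmul : exp (-v) * exp v = 1 := by
    rw [← exp_add, neg_add_cancel, exp_zero]
  have hcc : 0 < 2 * (cosh v - cos φ) := by
    have h1 : 1 < cosh v := one_lt_cosh.2 hv.ne'
    have h2 := cos_le_one φ
    linarith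
  have hD : Herm.D (exp (-v)) φ = exp (-v) * (2 * (cosh v - cos φ)) := by
    unfold Herm.D
    rw [cosh_eq]
    linear_combination (-1 : ℝ) * hmul
  have hlogD : log (Herm.D (exp (-v)) φ) = -v + log (2 * (cosh v - cos φ)) := by
    rw [hD, log_mul hρ0.ne' hcc.ne', log_exp]
  have hsub : 0 < 1 - exp (-v) ^ 6 := by
    have := pow_lt_one₀ hρ0.le hρ1 (n := 6) (by norm_num)
    linarith
  have hsinh : 2 * sinh (3 * v) = exp (3 * v) * (1 - exp (-v) ^ 6) := by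
    rw [sinh_eq, ← exp_nat_mul, mul_sub, ← exp_add]
    have e1 : 3 * v + ((6 : ℕ) : ℝ) * -v = -(3 * v) := by
      push_cast
      ring
    rw [e1]
    ring
  have hlogS : log (2 * sinh (3 * v)) = 3 * v + log (1 - exp (-v) ^ 6) := by
    rw [hsinh, log_mul (exp_pos _).ne' hsub.ne', log_exp]
  have hsum : ∑ l ∈ Icc 1 5, dd l v * cos (l * φ) =
      ∑ i ∈ range 5, Herm.cD 5 i (exp (-v)) * cos (((i : ℝ) + 1) * φ) := by
    have e0 : (Icc 1 5 : Finset ℕ) = Ico 1 6 := rfl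
    rw [e0, Finset.sum_Ico_eq_sum_range]
    refine Finset.sum_congr rfl fun i hi => ?_
    rw [mem_range] at hi
    have e1 : dd (1 + i) v = Herm.cD 5 i (exp (-v)) := by
      unfold dd Herm.cD Herm.kerD
      have e2 : 1 + i - 1 = i := by omega
      have e3 : 11 - (1 + i) = 2 * 5 - i := by omega
      rw [e2, e3]
    rw [e1]
    push_cast
    rw [add_comm (1 : ℝ)]
  unfold Herm.TD at hm
  rw [← hsum, hlogD] at hm
  rw [hlogS]
  push_cast at hm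
  have e4 : (5 : ℝ) + 1 = 6 := by norm_num
  rw [e4] at hm
  linarith

theorem Fg_log (k : ℕ) : ∑ j ∈ Icc 1 k, log (j : ℝ) = log (k.factorial : ℝ) := by
  induction k with
  | zero => simp
  | succ k ih =>
    rw [Finset.sum_Icc_succ_top (by omega), ih, Nat.factorial_succ, Nat.cast_mul,
      log_mul (by positivity) (by positivity)]
    ring

/-- Sum over `j` of `den_factor` at `v = jT`, `φ = jψ`, exchange of the sums, `sinh x ≥ x`. -/
theorem den_sum {k : ℕ} {T : ℝ} (hT : 0 < T) (ψ : ℝ) :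
    -∑ j ∈ Icc 1 k, 1 / 2 * log (2 * (cosh (j * T) - cos (j * ψ))) ≤
      -(1 / 6 * (k * log (6 * T) + log (k.factorial : ℝ))) +
        ∑ l ∈ Icc 1 5, ∑ j ∈ Icc 1 k, dd l (j * T) * cos (j * (l * ψ)) := by
  have h1 : ∀ j ∈ Icc 1 k, -(1 / 2 * log (2 * (cosh (j * T) - cos (j * ψ)))) ≤
      -(1 / 6 * (log (6 * T) + log (j : ℝ))) +
        ∑ l ∈ Icc 1 5, dd l (j * T) * cos (j * (l * ψ)) := by
    intro j hj
    rw [mem_Icc] at hj
    have hj0 : (0 : ℝ) < j := by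
      have : 0 < j := by omega
      exact_mod_cast this
    have hv : 0 < (j : ℝ) * T := mul_pos hj0 hT
    refine (den_factor hv ((j : ℝ) * ψ)).trans (add_le_add ?_ (le_of_eq ?_))
    · have h2 : log (6 * T) + log (j : ℝ) ≤ log (2 * sinh (3 * ((j : ℝ) * T))) := by
        rw [← log_mul (by positivity) hj0.ne']
        refine log_le_log (by positivity) ?_
        have h3 : 3 * ((j : ℝ) * T) ≤ sinh (3 * ((j : ℝ) * T)) :=
          self_le_sinh_iff.2 (by positivity)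
        linarith
      linarith
    · refine Finset.sum_congr rfl fun l _ => ?_
      congr 2
      ring
  have h2 := Finset.sum_le_sum h1
  rw [Finset.sum_neg_distrib, Finset.sum_add_distrib, Finset.sum_comm] at h2
  refine h2.trans (add_le_add (le_of_eq ?_) le_rfl)
  rw [Finset.sum_neg_distrib, ← Finset.mul_sum, Finset.sum_add_distrib, Finset.sum_const,
    Nat.card_Icc, Nat.add_sub_cancel, nsmul_eq_mul, Fg_log]

theorem Fg_a {l : ℕ} (h5 : l ≤ 5) : 0 ≤ (6 - (l : ℝ)) / 18 := by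
  have : (l : ℝ) ≤ 5 := by exact_mod_cast h5
  linarith

theorem Fg_gen {l : ℕ} (hl1 : 1 ≤ l) (hl5 : l ≤ 5) {α : ℝ} (hα : 0 ≤ α)
    (hd : ∀ u v : ℝ, 0 < u → u ≤ v → dd l u - dd l v ≤ α * log (v / u)) {k : ℕ} (hk : 1 ≤ k)
    {T : ℝ} (hT : 0 < T) {φ : ℝ} (hs : sin (φ / 2) ≠ 0) :
    ∑ j ∈ Icc 1 k, dd l (j * T) * cos (j * φ) ≤
      α * (1 / |sin (φ / 2)| - 11 / 12) - dd l T / 2 +
        dd l (k * T) * (sin (((k : ℝ) + 1 / 2) * φ) / (2 * sin (φ / 2))) := by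
  have h := abel_upper (g := fun j : ℕ => dd l ((j : ℝ) * T)) (N := k) hk (α := α) (φ := φ) hα hs
    (by
      intro j hj _
      have hj0 : (0 : ℝ) < j := by exact_mod_cast hj
      have h1 := hd ((j : ℝ) * T) (((j + 1 : ℕ) : ℝ) * T) (mul_pos hj0 hT) (by
        refine mul_le_mul_of_nonneg_right ?_ hT.le
        push_cast
        linarith)
      have e : ((j + 1 : ℕ) : ℝ) * T / ((j : ℝ) * T) = ((j : ℝ) + 1) / j := by
        rw [mul_div_mul_right _ _ hT.ne']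
        push_cast
        rfl
      rw [e] at h1
      exact h1)
    (by
      intro j hj _
      have hj0 : (0 : ℝ) < j := by exact_mod_cast hj
      have h1 := dd_convex hl1 hl5 (x := T) (y := (j : ℝ) * T) hT (mul_pos hj0 hT)
      have e1 : ((j + 1 : ℕ) : ℝ) * T = (j : ℝ) * T + T := by
        push_cast
        ring
      have e2 : ((j + 2 : ℕ) : ℝ) * T = (j : ℝ) * T + 2 * T := by
        push_cast
        ring
      simp only [e1, e2]
      exact h1)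
    (by
      intro j hj _
      have hj0 : (0 : ℝ) < j := by exact_mod_cast hj
      refine dd_antitone hl1 hl5 (mul_pos hj0 hT) (show (0 : ℝ) < ((j + 1 : ℕ) : ℝ) * T by
        positivity) ?_
      refine mul_le_mul_of_nonneg_right ?_ hT.le
      push_cast
      linarith)
  simp only [Nat.cast_one, one_mul] at h
  exact h

theorem Fg_gen' {l : ℕ} (hl1 : 1 ≤ l) (hl5 : l ≤ 5) {α : ℝ} (hα : 0 ≤ α)
    (hd : ∀ u v : ℝ, 0 < u → u ≤ v → dd l u - dd l v ≤ α * log (v / u)) {k : ℕ} (hk : 1 ≤ k)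
    {T : ℝ} (hT : 0 < T) {φ s e : ℝ} (hs0 : 0 < s) (hs : s ≤ |sin (φ / 2)|)
    (he : sin (((k : ℝ) + 1 / 2) * φ) / (2 * sin (φ / 2)) ≤ e) :
    ∑ j ∈ Icc 1 k, dd l (j * T) * cos (j * φ) ≤
      α * (1 / s - 11 / 12) - dd l T / 2 + dd l (k * T) * e := by
  have hsne : sin (φ / 2) ≠ 0 := by
    intro h0
    rw [h0, abs_zero] at hs
    linarith
  refine (Fg_gen hl1 hl5 hα hd hk hT hsne).trans ?_
  have hk0 : (0 : ℝ) < k := by exact_mod_cast hk
  have h1 := dd_nonneg hl1 hl5 (mul_pos hk0 hT)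
  have h2 : 1 / |sin (φ / 2)| ≤ 1 / s := one_div_le_one_div_of_le hs0 hs
  have h3 := mul_le_mul_of_nonneg_left he h1
  have h4 := mul_le_mul_of_nonneg_left h2 hα
  linarith

theorem Fg_end (k : ℕ) {φ s : ℝ} (hs0 : 0 < s) (hs : s ≤ |sin (φ / 2)|) :
    sin (((k : ℝ) + 1 / 2) * φ) / (2 * sin (φ / 2)) ≤ 1 / (2 * s) := by
  refine (le_abs_self _).trans ?_
  rw [abs_div, abs_mul, abs_two]
  have h1 := abs_sin_le_one (((k : ℝ) + 1 / 2) * φ)
  exact div_le_div₀ zero_le_one h1 (by positivity) (by linarith)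

/-- `abel_upper` with `g j = dd l (jT)`, `α = (6-l)/18` (`dd_diff_le`, `dd_convex`, `dd_antitone`). -/
theorem harm_le {l : ℕ} (h2 : 2 ≤ l) (h5 : l ≤ 5) {k : ℕ} (hk : 1 ≤ k) {T : ℝ} (hT : 0 < T) {φ : ℝ}
    (hs : sin (φ / 2) ≠ 0) :
    ∑ j ∈ Icc 1 k, dd l (j * T) * cos (j * φ) ≤
      (6 - (l : ℝ)) / 18 * (1 / |sin (φ / 2)| - 11 / 12) - dd l T / 2 +
        dd l (k * T) * (sin (((k : ℝ) + 1 / 2) * φ) / (2 * sin (φ / 2))) := by
  exact Fg_gen (by omega) h5 (Fg_a h5) (fun u v hu huv => dd_diff_le h2 h5 hu huv) hk hT hs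

theorem harm_one_le {k : ℕ} (hk : 1 ≤ k) {T : ℝ} (hT : 0 < T) {φ : ℝ} (hs : sin (φ / 2) ≠ 0) :
    ∑ j ∈ Icc 1 k, dd 1 (j * T) * cos (j * φ) ≤
      41 / 100 * (1 / |sin (φ / 2)| - 11 / 12) - dd 1 T / 2 +
        dd 1 (k * T) * (sin (((k : ℝ) + 1 / 2) * φ) / (2 * sin (φ / 2))) := by
  exact Fg_gen le_rfl (by norm_num) (by norm_num) (fun u v hu huv => dd_one_diff_le hu huv) hk hT hs

/-- With a lower bound `s` of `|sin (φ/2)|` (`1/x` decreasing, `|sin| ≤ 1` for the end term). -/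
theorem harm_le' {l : ℕ} (h2 : 2 ≤ l) (h5 : l ≤ 5) {k : ℕ} (hk : 1 ≤ k) {T : ℝ} (hT : 0 < T)
    {φ s : ℝ} (hs0 : 0 < s) (hs : s ≤ |sin (φ / 2)|) :
    ∑ j ∈ Icc 1 k, dd l (j * T) * cos (j * φ) ≤
      (6 - (l : ℝ)) / 18 * (1 / s - 11 / 12) - dd l T / 2 + dd l (k * T) * (1 / (2 * s)) := by
  exact Fg_gen' (by omega) h5 (Fg_a h5) (fun u v hu huv => dd_diff_le h2 h5 hu huv) hk hT hs0 hs
    (Fg_end k hs0 hs)

theorem harm_one_le' {k : ℕ} (hk : 1 ≤ k) {T : ℝ} (hT : 0 < T)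
    {φ s : ℝ} (hs0 : 0 < s) (hs : s ≤ |sin (φ / 2)|) :
    ∑ j ∈ Icc 1 k, dd 1 (j * T) * cos (j * φ) ≤
      41 / 100 * (1 / s - 11 / 12) - dd 1 T / 2 + dd 1 (k * T) * (1 / (2 * s)) := by
  exact Fg_gen' le_rfl (by norm_num) (by norm_num) (fun u v hu huv => dd_one_diff_le hu huv) hk hT
    hs0 hs (Fg_end k hs0 hs)

/-- Near a zero of `sin (φ/2)`: if `|sin ((k+1/2) φ)| ≤ ε` the end term is `ε/(2 s)`. -/
theorem harm_le'' {l : ℕ} (h2 : 2 ≤ l) (h5 : l ≤ 5) {k : ℕ} (hk : 1 ≤ k) {T : ℝ} (hT : 0 < T)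
    {φ s e : ℝ} (hs0 : 0 < s) (hs : s ≤ |sin (φ / 2)|)
    (he : sin (((k : ℝ) + 1 / 2) * φ) / (2 * sin (φ / 2)) ≤ e) :
    ∑ j ∈ Icc 1 k, dd l (j * T) * cos (j * φ) ≤
      (6 - (l : ℝ)) / 18 * (1 / s - 11 / 12) - dd l T / 2 + dd l (k * T) * e := by
  exact Fg_gen' (by omega) h5 (Fg_a h5) (fun u v hu huv => dd_diff_le h2 h5 hu huv) hk hT hs0 hs he

/-- The cap: `cos ≤ 1` and `dd l v ≤ dd l v₁ + (6-l)/18 log (v₁/v)` for `v ≤ v₁` (`dd_diff_le`). -/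
theorem harm_cap {l : ℕ} (h2 : 2 ≤ l) (h5 : l ≤ 5) {k : ℕ} {T v₁ : ℝ} (hT : 0 < T)
    (hv : k * T ≤ v₁) (hv1 : 0 < v₁) (φ : ℝ) :
    ∑ j ∈ Icc 1 k, dd l (j * T) * cos (j * φ) ≤
      k * (dd l v₁ + (6 - (l : ℝ)) / 18 * log v₁) +
        (6 - (l : ℝ)) / 18 * (k * log (1 / T) - log (k.factorial : ℝ)) := by
  have h1 : 1 ≤ l := by omega
  have ha := Fg_a h5
  have h3 : ∀ j ∈ Icc 1 k, dd l (j * T) * cos (j * φ) ≤
      dd l v₁ + (6 - (l : ℝ)) / 18 * log v₁ +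
        (6 - (l : ℝ)) / 18 * (log (1 / T) - log (j : ℝ)) := by
    intro j hj
    rw [mem_Icc] at hj
    have hj0 : (0 : ℝ) < j := by
      have : 0 < j := by omega
      exact_mod_cast this
    have hjk : (j : ℝ) ≤ k := by exact_mod_cast hj.2
    have hjT : 0 < (j : ℝ) * T := mul_pos hj0 hT
    have h4 := dd_nonneg h1 h5 hjT
    have h5' := dd_diff_le h2 h5 (u := (j : ℝ) * T) (v := v₁) hjT
      ((mul_le_mul_of_nonneg_right hjk hT.le).trans hv)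
    rw [log_div hv1.ne' hjT.ne', log_mul hj0.ne' hT.ne'] at h5'
    rw [one_div, log_inv]
    have h6 : dd l (j * T) * cos (j * φ) ≤ dd l (j * T) := by
      have := mul_le_mul_of_nonneg_left (cos_le_one (j * φ)) h4
      rwa [mul_one] at this
    linarith
  refine (Finset.sum_le_sum h3).trans (le_of_eq ?_)
  rw [Finset.sum_add_distrib, Finset.sum_const, ← Finset.mul_sum, Finset.sum_sub_distrib,
    Finset.sum_const, Nat.card_Icc, Nat.add_sub_cancel, nsmul_eq_mul, nsmul_eq_mul, Fg_log]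

end Pool.Agent.SignedQ.Far
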