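import Pool.Agent.Lib.MP_cf17a0_co.Mg.G007
import Pool.Agent.Lib.MP_cf17a0_co.Mg.G006

/-! # FAR arcs: the numerators at `T = c/(a nb)` (task FK)

`x = a T = c / nb`, `nb = n + (k+1)/2`. -/

namespace Pool.Agent.SignedQ.Far

open Real Finset

/-- Logarithm of the numerator. -/
noncomputable def NUM (n k : ℕ) (x φ : ℝ) : ℝ :=
  ∑ j ∈ Icc 1 k, 1 / 2 * log (2 * (cosh (((n : ℝ) + j) * x) - cos (((n : ℝ) + j) * φ)))

theorem nb_pos_k (n k : ℕ) : 0 < nb n k := by unfold nb; positivity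

/-- `∑ (n+j)² = k nb² + k (k²-1)/12`. -/
theorem sum_sq_le (n k : ℕ) :
    ∑ j ∈ Icc 1 k, ((n : ℝ) + j) ^ 2 ≤ k * (nb n k ^ 2 + (k : ℝ) ^ 2 / 12) := by
  have h : ∀ k : ℕ, ∑ j ∈ Icc 1 k, ((n : ℝ) + j) ^ 2 =
      k * (n : ℝ) ^ 2 + n * k * (k + 1) + k * (k + 1) * (2 * k + 1) / 6 := by
    intro k
    induction k with
    | zero => simp
    | succ k ih =>
      rw [Finset.sum_Icc_succ_top (by omega), ih]
      push_cast
      ring
  rw [h]
  have hk : (0 : ℝ) ≤ k := Nat.cast_nonneg k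
  have e : k * (nb n k ^ 2 + (k : ℝ) ^ 2 / 12) - (k * (n : ℝ) ^ 2 + n * k * (k + 1) +
      k * (k + 1) * (2 * k + 1) / 6) = k / 12 := by
    unfold nb; ring
  linarith

/-- Regime A: `½ log (2 (cosh y - cos)) ≤ log (2 cosh (y/2)) ≤ log 2 + y²/8`
(`cosh u ≤ exp (u²/2)`), `sum_sq_le`, `k/nb ≤ 1`: `log 2 + .08 · 13/12 = .77982`. -/
theorem num_A {n k : ℕ} (hk : 1 ≤ k) (hn : k ≤ 2 * n) (φ : ℝ) :
    NUM n k (4 / 5 / nb n k) φ ≤ 0.7799 * k := by
  have hb := nb_pos_k n k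
  have hk0 : (0 : ℝ) < k := by exact_mod_cast (by omega : 0 < k)
  have hkb : (k : ℝ) ≤ nb n k := by
    have h2 : (k : ℝ) ≤ 2 * n := by exact_mod_cast hn
    unfold nb; linarith
  have h1 : ∀ j ∈ Icc 1 k, 1 / 2 * log (2 * (cosh (((n : ℝ) + j) * (4 / 5 / nb n k)) -
      cos (((n : ℝ) + j) * φ))) ≤ log 2 + (4 / 5 / nb n k) ^ 2 / 8 * ((n : ℝ) + j) ^ 2 := by
    intro j hj
    have hj1 : (1 : ℝ) ≤ j := by exact_mod_cast (mem_Icc.1 hj).1
    set y := ((n : ℝ) + j) * (4 / 5 / nb n k) with hy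
    have hy0 : 0 < y := by positivity
    have hc1 : 1 < cosh y := one_lt_cosh.2 hy0.ne'
    have hc2 := neg_one_le_cos (((n : ℝ) + j) * φ)
    have hc3 := cos_le_one (((n : ℝ) + j) * φ)
    have e1 : 2 * (cosh y + 1) = (2 * cosh (y / 2)) ^ 2 := by
      have := cosh_two_mul (y / 2)
      rw [show 2 * (y / 2) = y by ring] at this
      have h2 := cosh_sq (y / 2)
      rw [this, h2]; nlinarith
    have h2 : log (2 * (cosh y - cos (((n : ℝ) + j) * φ))) ≤ log ((2 * cosh (y / 2)) ^ 2) := by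
      rw [← e1]
      exact log_le_log (by linarith) (by linarith)
    rw [log_pow, log_mul (by norm_num) (cosh_pos _).ne'] at h2
    have h3 : log (cosh (y / 2)) ≤ (y / 2) ^ 2 / 2 := by
      rw [log_le_iff_le_exp (cosh_pos _)]
      exact cosh_le_exp_half_sq _
    have h4 : (4 / 5 / nb n k) ^ 2 / 8 * ((n : ℝ) + j) ^ 2 = (y / 2) ^ 2 / 2 := by
      rw [hy]; ring
    rw [h4]
    push_cast at h2
    linarith
  unfold NUM
  refine (sum_le_sum h1).trans ?_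
  rw [sum_add_distrib, ← mul_sum, sum_const, Nat.card_Icc, nsmul_eq_mul]
  have h2 := sum_sq_le n k
  have h3 : (4 / 5 / nb n k) ^ 2 / 8 * ∑ j ∈ Icc 1 k, ((n : ℝ) + j) ^ 2 ≤
      (4 / 5 / nb n k) ^ 2 / 8 * (k * (nb n k ^ 2 + (k : ℝ) ^ 2 / 12)) :=
    mul_le_mul_of_nonneg_left h2 (by positivity)
  have h4 : (4 / 5 / nb n k) ^ 2 / 8 * (k * (nb n k ^ 2 + (k : ℝ) ^ 2 / 12)) =
      k * (2 / 25 * (1 + (k / nb n k) ^ 2 / 12)) := by
    field_simp
    ring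
  have h5 : ((k : ℝ) / nb n k) ^ 2 ≤ 1 := by
    have : (k : ℝ) / nb n k ≤ 1 := (div_le_one hb).2 hkb
    exact pow_le_one₀ (by positivity) this
  have h6 : k * (2 / 25 * (1 + (k / nb n k) ^ 2 / 12)) ≤ (k : ℝ) * (2 / 25 * (1 + 1 / 12)) :=
    mul_le_mul_of_nonneg_left (by linarith) hk0.le
  have h7 := log_two_lt_d9
  have e : ((k + 1 - 1 : ℕ) : ℝ) = k := by simp
  rw [e]
  nlinarith

/-- `sum_cosh_le` at `x = 1/nb`: `(n+k+1/2) x = 1 + h`, `(n+1/2) x = 1 - h`, `h = k/(2nb)`. -/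
theorem sum_cosh_B {n k : ℕ} (hk : 1 ≤ k) :
    ∑ j ∈ Icc 1 k, cosh (((n : ℝ) + j) * (1 / nb n k)) ≤
      k * (cosh 1 * (sinh (k / (2 * nb n k)) / (k / (2 * nb n k)))) := by
  have hb := nb_pos_k n k
  have hk0 : (0 : ℝ) < k := by exact_mod_cast (by omega : 0 < k)
  refine (sum_cosh_le (n := n) (k := k) (x := 1 / nb n k) (by positivity)).trans (le_of_eq ?_)
  have e1 : ((n : ℝ) + k + 1 / 2) * (1 / nb n k) = 1 + k / (2 * nb n k) := by
    field_simp; unfold nb; ring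
  have e2 : ((n : ℝ) + 1 / 2) * (1 / nb n k) = 1 - k / (2 * nb n k) := by
    field_simp; unfold nb; ring
  rw [e1, e2, sinh_add, sinh_sub]
  field_simp
  ring

/-- `sinh h ≤ h (1 + h²/6 + h⁴/117)` for `0 ≤ h ≤ 1`. -/
theorem sinh_le_poly {h : ℝ} (h0 : 0 ≤ h) (h1 : h ≤ 1) :
    sinh h ≤ h * (1 + h ^ 2 / 6 + h ^ 4 / 117) := by
  have e1 := abs_le.1 (Real.exp_bound (x := h) (by rw [abs_of_nonneg h0]; exact h1) (n := 10)
    (by norm_num))
  have e2 := abs_le.1 (Real.exp_bound (x := -h) (by rw [abs_neg, abs_of_nonneg h0]; exact h1)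
    (n := 10) (by norm_num))
  rw [abs_neg, abs_of_nonneg h0] at e2
  rw [abs_of_nonneg h0] at e1
  have h3 := e1.2
  have h4 := e2.1
  simp only [Finset.sum_range_succ, Finset.sum_range_zero, Nat.factorial] at h3 h4
  norm_num at h3 h4
  have h7 : h ^ 7 ≤ h ^ 5 := pow_le_pow_of_le_one h0 h1 (by norm_num)
  have h9 : h ^ 9 ≤ h ^ 5 := pow_le_pow_of_le_one h0 h1 (by norm_num)
  have h10 : h ^ 10 ≤ h ^ 5 := pow_le_pow_of_le_one h0 h1 (by norm_num)
  have h5 : 0 ≤ h ^ 5 := pow_nonneg h0 5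
  rw [sinh_eq]
  nlinarith

theorem cosh_one_le : cosh 1 ≤ 1.5431 := by
  rw [cosh_eq, exp_neg]
  have h1 := exp_one_lt_d9
  have h2 := exp_one_gt_d9
  have h3 : (exp 1)⁻¹ ≤ 1 / 2.7182818283 := by
    rw [inv_eq_one_div]
    exact one_div_le_one_div_of_le (by norm_num) h2.le
  norm_num at h3 h1 ⊢
  linarith

theorem half_log_le' : log 4.9235 ≤ 1.59404 := by
  rw [log_le_iff_le_exp (by norm_num)]
  have h2 := exp_one_gt_d9
  have e : (1.59404 : ℝ) = 1 + 0.59404 := by norm_num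
  rw [e, exp_add]
  have h3 : (1.81126 : ℝ) ≤ exp 0.59404 := by
    have := sum_le_exp_of_nonneg (x := (0.59404 : ℝ)) (by norm_num) 9
    refine le_trans ?_ this
    norm_num [Finset.sum_range_succ, Nat.factorial]
  have h4 : (2.7182818283 : ℝ) * 1.81126 ≤ exp 1 * exp 0.59404 :=
    mul_le_mul h2.le h3 (by norm_num) (exp_pos _).le
  refine le_trans ?_ h4
  norm_num

/-- `sinh h / h ≤ 1.10162 - .1697 (ν - .15)` for `h ≤ 1/(2ν+1)`, `ν ∈ [.15, .5]`. -/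
theorem sinhc_le {h ν : ℝ} (h0 : 0 < h) (hν : 0.15 ≤ ν) (hν' : ν ≤ 1 / 2)
    (hh : h * (2 * ν + 1) ≤ 1) : sinh h / h ≤ 1.10162 - 0.1697 * (ν - 0.15) := by
  have hz : 0 < 2 * ν + 1 := by norm_num at hν; linarith
  have h1 : h ≤ 1 := by
    norm_num at hν
    nlinarith
  have hp := sinh_le_poly h0.le h1
  have h2 : sinh h / h ≤ 1 + h ^ 2 / 6 + h ^ 4 / 117 := by
    rw [div_le_iff₀ h0]; linarith
  -- `u = h² ≤ 1/z² ≤ C - d z`
  have hu : h ^ 2 ≤ 829 / 676 - 165 / 338 * (2 * ν + 1) := by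
    have e1 : h ^ 2 * (2 * ν + 1) ^ 2 ≤ 1 := by
      have : (h * (2 * ν + 1)) ^ 2 ≤ 1 := pow_le_one₀ (by positivity) hh
      nlinarith
    have e2 : 1 ≤ (829 / 676 - 165 / 338 * (2 * ν + 1)) * (2 * ν + 1) ^ 2 := by
      have e3 : (829 / 676 - 165 / 338 * (2 * ν + 1)) * (2 * ν + 1) ^ 2 - 1 =
          ((2 * ν + 1) - 13 / 10) * (2 - (2 * ν + 1)) * (165 / 338 * (2 * ν + 1) + 5 / 13) := by
        ring
      have e4 : 0 ≤ ((2 * ν + 1) - 13 / 10) * (2 - (2 * ν + 1)) *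
          (165 / 338 * (2 * ν + 1) + 5 / 13) := by
        norm_num at hν
        refine mul_nonneg (mul_nonneg (by linarith) (by linarith)) (by linarith)
      linarith
    by_contra hc
    push Not at hc
    have : (829 / 676 - 165 / 338 * (2 * ν + 1)) * (2 * ν + 1) ^ 2 < h ^ 2 * (2 * ν + 1) ^ 2 :=
      mul_lt_mul_of_pos_right hc (by positivity)
    linarith
  have hu1 : h ^ 2 ≤ 100 / 169 := by norm_num at hν; linarith
  have hu2 : h ^ 4 ≤ (829 / 676 - 165 / 338 * (2 * ν + 1)) ^ 2 := by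
    have : h ^ 4 = (h ^ 2) ^ 2 := by ring
    rw [this]
    exact pow_le_pow_left₀ (by positivity) hu 2
  norm_num at hν ⊢
  nlinarith

/-- The chord of `Sx` on `[3/20, 1/2]`. -/
theorem Sx_chord {ν : ℝ} (hν : 3 / 20 ≤ ν) (hν' : ν ≤ 1 / 2) :
    Sx ν ≤ 0.0621 - 0.1125 * (ν - 3 / 20) := by
  have h := Sx_convex.2 (show (3 / 20 : ℝ) ∈ Set.Ioi 0 by norm_num)
    (show (1 / 2 : ℝ) ∈ Set.Ioi 0 by norm_num)
    (show 0 ≤ (1 / 2 - ν) / (7 / 20) from div_nonneg (by linarith) (by norm_num))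
    (show 0 ≤ (ν - 3 / 20) / (7 / 20) from div_nonneg (by linarith) (by norm_num))
    (by ring)
  simp only [smul_eq_mul] at h
  have e : (1 / 2 - ν) / (7 / 20) * (3 / 20) + (ν - 3 / 20) / (7 / 20) * (1 / 2) = ν := by ring
  rw [e] at h
  have h1 : (1 / 2 - ν) / (7 / 20) * Sx (3 / 20) ≤ (1 / 2 - ν) / (7 / 20) * 0.0621 :=
    mul_le_mul_of_nonneg_left Sx_three_twentieth (div_nonneg (by linarith) (by norm_num))
  have h2 : (ν - 3 / 20) / (7 / 20) * Sx (1 / 2) ≤ (ν - 3 / 20) / (7 / 20) * 0.0227 :=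
    mul_le_mul_of_nonneg_left Sx_half (div_nonneg (by linarith) (by norm_num))
  norm_num at h1 h2 ⊢
  linarith

/-- Regime B, numerators + real product together: `num_const` at `x = 1/nb`,
`(k/2) log (2 (cosh 1 sinh h/h + (n+1/2)/k + (11/50) (n+k+1/2)/k))`, `h ≤ y = 1/(2ν+1)`, `ν = n/k`,
`sinh h/h ≤ 1 + y²/6 + y⁴/117 ≤ 1.10162 - .1697 (ν - .15)` on `[.15, .5]` (convexity or a polynomial
inequality), `cosh 1 ≤ 1.5431`, so the argument of `log` is at most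
`2 (1.5431 (1.10162 - .1697 (ν - .15)) + 1.22 ν + .22 + .61/26)`, affine and increasing in `ν`, `4.9235` at
`ν = 1/2`; `log` by its tangent at `4.9235` (`½ log 4.9235 ≤ .79702`); `Sx ν` by the chord
(`Sx_convex`, `Sx_half`, `Sx_three_twentieth`). The sum is affine in `ν`, so only `ν = .15` (`.80`) and
`ν = .5` (`.81972`) matter. -/
theorem num_B {n k : ℕ} (hk : 26 ≤ k) (h1 : 3 * k ≤ 20 * n) (h2 : 2 * n < k) (φ : ℝ) :
    NUM n k (1 / nb n k) φ + k * Sx (n / k) ≤ 0.8198 * k := by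
  have hb := nb_pos_k n k
  have hk' : (26 : ℝ) ≤ k := by exact_mod_cast hk
  have hk0 : (0 : ℝ) < k := by linarith
  obtain ⟨ν, hν⟩ : ∃ ν : ℝ, ν = n / k := ⟨_, rfl⟩
  have hn : (n : ℝ) = ν * k := by rw [hν]; field_simp
  have hν1 : 3 / 20 ≤ ν := by
    rw [hν, le_div_iff₀ hk0]
    have : (3 : ℝ) * k ≤ 20 * n := by exact_mod_cast h1
    linarith
  have hν2 : ν ≤ 1 / 2 := by
    rw [hν, div_le_iff₀ hk0]
    have : (2 : ℝ) * n < k := by exact_mod_cast h2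
    linarith
  have hnum := num_const (n := n) hk (x := 1 / nb n k) (by positivity) φ
  have hsum := sum_cosh_B (n := n) (k := k) (by omega)
  obtain ⟨h, hh⟩ : ∃ h : ℝ, h = k / (2 * nb n k) := ⟨_, rfl⟩
  rw [← hh] at hsum
  have hh0 : 0 < h := by rw [hh]; positivity
  have hhν : h * (2 * ν + 1) ≤ 1 := by
    rw [hh, div_mul_eq_mul_div, div_le_one (by positivity)]
    have : nb n k = ν * k + (k + 1) / 2 := by unfold nb; rw [hn]
    rw [this]
    nlinarith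
  have hsc := sinhc_le hh0 (by norm_num at hν1 ⊢; linarith) hν2 hhν
  have hsc0 : 0 < sinh h / h := div_pos (sinh_pos_iff.2 hh0) hh0
  have hco := cosh_one_le
  have hco0 : 0 < cosh 1 := cosh_pos _
  -- the argument of the logarithm
  obtain ⟨Y, hY⟩ : ∃ Y : ℝ, Y = 2 / k * (∑ j ∈ Icc 1 k, cosh (((n : ℝ) + j) * (1 / nb n k)) +
      ((n : ℝ) + 1 / 2) + 11 / 50 * ((n : ℝ) + k + 1 / 2)) := ⟨_, rfl⟩
  rw [← hY] at hnum
  have hYpos : 0 < Y := by
    rw [hY]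
    have hS0 : 0 ≤ ∑ j ∈ Icc 1 k, cosh (((n : ℝ) + j) * (1 / nb n k)) :=
      sum_nonneg fun j _ => (cosh_pos _).le
    have hn0 : (0 : ℝ) ≤ n := Nat.cast_nonneg n
    refine mul_pos (div_pos two_pos hk0) ?_
    linarith
  have hprod : cosh 1 * (sinh h / h) ≤ 1.5431 * (1.10162 - 0.1697 * (ν - 0.15)) :=
    mul_le_mul hco hsc hsc0.le (by norm_num)
  have hYle : Y ≤ 3.96533 + 1.91628 * ν := by
    have e1 : Y ≤ 2 / k * (k * (cosh 1 * (sinh h / h)) + ((n : ℝ) + 1 / 2) +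
        11 / 50 * ((n : ℝ) + k + 1 / 2)) := by
      rw [hY]
      exact mul_le_mul_of_nonneg_left (by linarith) (by positivity)
    have e2 : 2 / k * (k * (cosh 1 * (sinh h / h)) + ((n : ℝ) + 1 / 2) +
        11 / 50 * ((n : ℝ) + k + 1 / 2)) =
        2 * (cosh 1 * (sinh h / h)) + 2.44 * ν + 0.44 + 1.22 * (1 / k) := by
      rw [hn]; field_simp; ring
    have e3 : 1 / (k : ℝ) ≤ 1 / 26 := one_div_le_one_div_of_le (by norm_num) hk'
    rw [e2] at e1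
    refine e1.trans ?_
    norm_num at hprod e3 ⊢
    linarith
  have hlog : log Y ≤ 1.59404 + (Y - 4.9235) / 4.9235 := by
    have e1 : log Y = log 4.9235 + log (Y / 4.9235) := by
      rw [← log_mul (by norm_num) (by positivity)]; congr 1; field_simp
    have e2 : log (Y / 4.9235) ≤ Y / 4.9235 - 1 := log_le_sub_one_of_pos (by positivity)
    have e3 : (Y - 4.9235) / 4.9235 = Y / 4.9235 - 1 := by field_simp
    have := half_log_le'
    rw [e1, e3]; linarith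
  have hS := Sx_chord hν1 hν2
  have hfin : 1 / 2 * log Y + Sx ν ≤ 0.8198 := by
    have e4 : (Y - 4.9235) / 4.9235 ≤ 0.203108 * Y - 1 := by
      rw [div_le_iff₀ (by norm_num)]
      norm_num
      nlinarith
    norm_num at hYle hlog hS e4 hν1 ⊢
    linarith
  have e5 : NUM n k (1 / nb n k) φ ≤ k / 2 * log Y := hnum
  rw [← hν]
  nlinarith

end Pool.Agent.SignedQ.Far
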