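import Pool.Agent.Lib.MP_cf17a0_co.Mg.G007
import Pool.Agent.Lib.MP_cf17a0_co.Mg.G006

/-! # FAR arcs: the numerators at `T = c/(a nb)`, regime C (helper78) -/

namespace Pool.Agent.SignedQ.Far

open Real Finset

/-- The Taylor polynomial of `log cosh`. -/
noncomputable def Fkc_P (x : ℝ) : ℝ := x ^ 2 / 2 - x ^ 4 / 12 + x ^ 6 / 45

noncomputable def Fkc_p (x : ℝ) : ℝ := x - x ^ 3 / 3 + 2 * x ^ 5 / 15

theorem Fkc_hP (x : ℝ) : HasDerivAt Fkc_P (Fkc_p x) x := by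
  have h := (((hasDerivAt_pow 2 x).div_const 2).sub ((hasDerivAt_pow 4 x).div_const 12)).add
    ((hasDerivAt_pow 6 x).div_const 45)
  refine HasDerivAt.congr_deriv h ?_
  unfold Fkc_p
  norm_num
  ring

theorem Fkc_hp (x : ℝ) : HasDerivAt Fkc_p (1 - x ^ 2 + 2 * x ^ 4 / 3) x := by
  have h := ((hasDerivAt_id x).sub ((hasDerivAt_pow 3 x).div_const 3)).add
    (((hasDerivAt_pow 5 x).const_mul 2).div_const 15)
  refine HasDerivAt.congr_deriv h ?_
  norm_num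
  ring

/-- `sinh x ≤ (x - x³/3 + 2x⁵/15) cosh x`. -/
theorem Fkc_tanh {x : ℝ} (hx : 0 ≤ x) : sinh x ≤ Fkc_p x * cosh x := by
  have hmono : Monotone (fun x => (Fkc_p x * cosh x - sinh x) * exp (Fkc_P x)) := by
    apply monotone_of_hasDerivAt_nonneg (f' := fun x => (17 / 45 * x ^ 6 - 4 / 45 * x ^ 8 +
      4 / 225 * x ^ 10) * cosh x * exp (Fkc_P x))
    · intro y
      have h := ((((Fkc_hp y).mul (hasDerivAt_cosh y)).sub (hasDerivAt_sinh y)).mul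
        (Fkc_hP y).exp)
      refine HasDerivAt.congr_deriv h ?_
      simp only [Pi.mul_apply, Pi.sub_apply]
      unfold Fkc_p
      ring
    · intro y
      have h1 : 0 ≤ 17 / 45 * y ^ 6 - 4 / 45 * y ^ 8 + 4 / 225 * y ^ 10 := by
        have : 17 / 45 * y ^ 6 - 4 / 45 * y ^ 8 + 4 / 225 * y ^ 10 =
          y ^ 6 * (4 / 225 * (y ^ 2 - 5 / 2) ^ 2 + 4 / 15) := by ring
        rw [this]
        positivity
      have h2 := cosh_pos y
      positivity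
  have h := hmono hx
  simp only at h
  have e1 : (Fkc_p 0 * cosh 0 - sinh 0) * exp (Fkc_P 0) = 0 := by
    unfold Fkc_p
    simp
  rw [e1] at h
  have h2 := exp_pos (Fkc_P x)
  have h3 : 0 ≤ Fkc_p x * cosh x - sinh x := by
    by_contra h4
    push Not at h4
    have := mul_neg_of_neg_of_pos h4 h2
    linarith
  linarith

theorem Fkc_nonneg {x : ℝ} (hx : 0 ≤ x) : log (cosh x) ≤ Fkc_P x := by
  have hanti : AntitoneOn (fun x => cosh x * exp (-Fkc_P x)) (Set.Ici 0) := by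
    have hd : ∀ y : ℝ, HasDerivAt (fun x => cosh x * exp (-Fkc_P x))
        ((sinh y - Fkc_p y * cosh y) * exp (-Fkc_P y)) y := by
      intro y
      have h := (hasDerivAt_cosh y).mul (Fkc_hP y).neg.exp
      refine HasDerivAt.congr_deriv h ?_
      simp only [Pi.neg_apply]
      ring
    apply antitoneOn_of_deriv_nonpos (convex_Ici 0)
    · intro y _
      exact (hd y).continuousAt.continuousWithinAt
    · intro y _
      exact (hd y).differentiableAt.differentiableWithinAt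
    · intro y hy
      rw [interior_Ici] at hy
      rw [(hd y).deriv]
      have h1 := Fkc_tanh (le_of_lt hy)
      have h2 := exp_pos (-Fkc_P y)
      apply mul_nonpos_of_nonpos_of_nonneg _ h2.le
      linarith
  have h := hanti (Set.mem_Ici.2 le_rfl) (Set.mem_Ici.2 hx) hx
  simp only at h
  have e1 : cosh 0 * exp (-Fkc_P 0) = 1 := by
    unfold Fkc_P
    simp
  rw [e1] at h
  rw [log_le_iff_le_exp (cosh_pos x)]
  have h2 : exp (-Fkc_P x) * exp (Fkc_P x) = 1 := by rw [← exp_add]; simp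
  have h3 := mul_le_mul_of_nonneg_right h (exp_pos (Fkc_P x)).le
  have h4 : cosh x * exp (-Fkc_P x) * exp (Fkc_P x) = cosh x := by
    rw [mul_assoc, h2, mul_one]
  linarith

/-- `log cosh x ≤ x²/2 - x⁴/12 + x⁶/45` (all `x`). -/
theorem log_cosh_le (x : ℝ) : log (cosh x) ≤ x ^ 2 / 2 - x ^ 4 / 12 + x ^ 6 / 45 := by
  rcases le_total 0 x with h | h
  · exact Fkc_nonneg h
  · have h1 := Fkc_nonneg (x := -x) (by linarith)
    rw [cosh_neg] at h1
    unfold Fkc_P at h1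
    have e2 : (-x) ^ 2 = x ^ 2 := by ring
    have e4 : (-x) ^ 4 = x ^ 4 := by ring
    have e6 : (-x) ^ 6 = x ^ 6 := by ring
    rw [e2, e4, e6] at h1
    exact h1

/-- A primitive of `Fkc_P`. -/
noncomputable def Fkc_Q (x : ℝ) : ℝ := x ^ 3 / 6 - x ^ 5 / 60 + x ^ 7 / 315

theorem Fkc_mid {x h : ℝ} (h0 : 0 ≤ h) (h1 : h ≤ 1) :
    2 * h * Fkc_P x ≤ Fkc_Q (x + h) - Fkc_Q (x - h) := by
  have e : Fkc_Q (x + h) - Fkc_Q (x - h) - 2 * h * Fkc_P x =
      h ^ 3 / 3 * (1 - x ^ 2 + 2 / 3 * x ^ 4) + h ^ 5 / 60 * (8 * x ^ 2 - 2) + 2 * h ^ 7 / 315 := by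
    unfold Fkc_Q Fkc_P
    ring
  have e1 : h ^ 3 / 3 * (1 - x ^ 2 + 2 / 3 * x ^ 4) + h ^ 5 / 60 * (8 * x ^ 2 - 2) +
      2 * h ^ 7 / 315 = h ^ 3 * (2 / 9 * (x ^ 2 - 3 / 4) ^ 2 + 5 / 24 - h ^ 2 / 30) +
        h ^ 5 * (2 / 15 * x ^ 2) + 2 * h ^ 7 / 315 := by ring
  have e2 : 0 ≤ 5 / 24 - h ^ 2 / 30 := by nlinarith
  have e3 : 0 ≤ h ^ 3 * (2 / 9 * (x ^ 2 - 3 / 4) ^ 2 + 5 / 24 - h ^ 2 / 30) := by
    apply mul_nonneg (by positivity)
    have : 0 ≤ 2 / 9 * (x ^ 2 - 3 / 4) ^ 2 := by positivity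
    linarith
  have e4 : 0 ≤ h ^ 5 * (2 / 15 * x ^ 2) := by positivity
  have e5 : 0 ≤ 2 * h ^ 7 / 315 := by positivity
  linarith

theorem Fkc_tele (F : ℝ → ℝ) (n k : ℕ) (h : ℝ) :
    ∑ j ∈ Icc 1 k, (F (((n : ℝ) + j) * (2 * h) + h) - F (((n : ℝ) + j) * (2 * h) - h)) =
      F (((n : ℝ) + k) * (2 * h) + h) - F ((n : ℝ) * (2 * h) + h) := by
  induction k with
  | zero => simp
  | succ k ih =>
    rw [sum_Icc_succ_top (by omega), ih]
    have : ((n : ℝ) + ((k + 1 : ℕ) : ℝ)) * (2 * h) - h = ((n : ℝ) + k) * (2 * h) + h := by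
      push_cast; ring
    rw [this]
    ring

theorem Fkc_nb {n k : ℕ} (hk : 1 ≤ k) : 1 ≤ nb n k := by
  unfold nb
  have h1 : (1 : ℝ) ≤ k := by exact_mod_cast hk
  have h2 : (0 : ℝ) ≤ n := Nat.cast_nonneg n
  linarith

/-- With `x_j = (13/20) (n+j)/nb` and `p x = x²/2 - x⁴/12 + x⁶/45` (convex), `P' = p`, `d = (13/20)/nb`:
`d p (x_j) ≤ P (x_j + d/2) - P (x_j - d/2)`, telescoping gives
`∑ p (x_j) ≤ (P (13/20 (1+w)) - P (13/20 (1-w)))/d`, `w = k/(2nb) ≤ 1`, an even polynomial of `w` with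
positive coefficients times `k`; at `w = 1` it is `k · .24939`. -/
theorem sum_log_cosh_le {n k : ℕ} (hk : 1 ≤ k) :
    ∑ j ∈ Icc 1 k, 1 / 2 * log (cosh (((n : ℝ) + j) * (13 / 20 / nb n k))) ≤ 0.1248 * k := by
  have hnb := Fkc_nb (n := n) hk
  have hk0 : (0 : ℝ) < k := by
    have : (1 : ℝ) ≤ k := by exact_mod_cast hk
    linarith
  have hnb0 : 0 < nb n k := by linarith
  obtain ⟨h, hh⟩ : ∃ h : ℝ, h = 13 / 40 / nb n k := ⟨_, rfl⟩
  have hh0 : 0 < h := by rw [hh]; positivity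
  have hh1 : h ≤ 1 := by
    rw [hh, div_le_one hnb0]
    linarith
  have h2h : 13 / 20 / nb n k = 2 * h := by rw [hh]; ring
  rw [h2h]
  have h1 : ∑ j ∈ Icc 1 k, 2 * h * (log (cosh (((n : ℝ) + j) * (2 * h)))) ≤
      ∑ j ∈ Icc 1 k, (Fkc_Q (((n : ℝ) + j) * (2 * h) + h) -
        Fkc_Q (((n : ℝ) + j) * (2 * h) - h)) := by
    apply sum_le_sum
    intro j _
    have e1 := Fkc_mid (x := ((n : ℝ) + j) * (2 * h)) hh0.le hh1
    have e2 := log_cosh_le (((n : ℝ) + j) * (2 * h))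
    have e3 : Fkc_P (((n : ℝ) + j) * (2 * h)) = (((n : ℝ) + j) * (2 * h)) ^ 2 / 2 -
        (((n : ℝ) + j) * (2 * h)) ^ 4 / 12 + (((n : ℝ) + j) * (2 * h)) ^ 6 / 45 := rfl
    rw [← e3] at e2
    have e4 := mul_le_mul_of_nonneg_left e2 (show 0 ≤ 2 * h by positivity)
    linarith
  rw [Fkc_tele, ← mul_sum] at h1
  obtain ⟨w, hw⟩ : ∃ w : ℝ, w = k / (2 * nb n k) := ⟨_, rfl⟩
  have hw0 : 0 < w := by rw [hw]; positivity
  have hw1 : w ≤ 1 := by
    rw [hw, div_le_one (by positivity)]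
    unfold nb
    have : (0 : ℝ) ≤ n := Nat.cast_nonneg n
    linarith
  have e1 : ((n : ℝ) + k) * (2 * h) + h = 13 / 20 * (1 + w) := by
    rw [hh, hw]
    field_simp
    unfold nb
    ring
  have e2 : (n : ℝ) * (2 * h) + h = 13 / 20 * (1 - w) := by
    rw [hh, hw]
    field_simp
    unfold nb
    ring
  rw [e1, e2] at h1
  -- the polynomial
  have e3 : Fkc_Q (13 / 20 * (1 + w)) - Fkc_Q (13 / 20 * (1 - w)) ≤ 2 * w * (13 / 20) * 0.2496 := by
    have e4 : Fkc_Q (13 / 20 * (1 + w)) - Fkc_Q (13 / 20 * (1 - w)) =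
        2 * w * (13 / 20) * ((13 / 20) ^ 2 / 6 * (3 + w ^ 2) -
          (13 / 20) ^ 4 / 60 * (5 + 10 * w ^ 2 + w ^ 4) +
          (13 / 20) ^ 6 / 315 * (7 + 35 * w ^ 2 + 21 * w ^ 4 + w ^ 6)) := by
      unfold Fkc_Q
      ring
    rw [e4]
    apply mul_le_mul_of_nonneg_left _ (by positivity)
    have w2 : w ^ 2 ≤ 1 := pow_le_one₀ hw0.le hw1
    have w4 : w ^ 4 ≤ 1 := pow_le_one₀ hw0.le hw1
    have w6 : w ^ 6 ≤ 1 := pow_le_one₀ hw0.le hw1
    norm_num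
    linarith
  have e5 : 2 * w * (13 / 20) = 2 * h * k := by
    rw [hh, hw]
    field_simp
    norm_num
  rw [e5] at e3
  have e6 : 2 * h * ∑ j ∈ Icc 1 k, log (cosh (((n : ℝ) + j) * (2 * h))) ≤
      2 * h * (k * 0.2496) := by
    refine h1.trans (e3.trans (le_of_eq ?_))
    ring
  have e7 := le_of_mul_le_mul_left e6 (by positivity)
  rw [← mul_sum]
  linarith

/-- Chord of `1/cosh` on `[1.1, 1.3]` (true values `.59933`, `.50738`), slightly relaxed: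
`(.508 + .4625 (1.3 - v)) cosh v ≥ 1` with `cosh v ≥ 1 + v²/2 + v⁴/24 + v⁶/720`. -/
theorem Fkc_cosh_ge (v : ℝ) : 1 + v ^ 2 / 2 + v ^ 4 / 24 + v ^ 6 / 720 ≤ cosh v := by
  have h := hasSum_cosh v
  have h1 := h.summable.sum_le_tsum (range 4) (fun i _ => by
    have : 0 ≤ v ^ (2 * i) := by rw [pow_mul]; positivity
    positivity)
  rw [h.tsum_eq] at h1
  refine le_trans (le_of_eq ?_) h1
  rw [sum_range_succ, sum_range_succ, sum_range_succ, sum_range_succ, sum_range_zero]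
  norm_num [Nat.factorial]

theorem sech_le {v : ℝ} (h0 : 11 / 10 ≤ v) (h1 : v ≤ 13 / 10) :
    1 / cosh v ≤ 0.508 + 0.4625 * (13 / 10 - v) := by
  rw [div_le_iff₀ (cosh_pos v)]
  have h := Fkc_cosh_ge v
  have h2 : 0 ≤ 0.508 + 0.4625 * (13 / 10 - v) := by
    norm_num
    linarith
  refine le_trans ?_ (mul_le_mul_of_nonneg_left h h2)
  obtain ⟨u, hu⟩ : ∃ u, u = v - 11 / 10 := ⟨_, rfl⟩
  have hv : v = 11 / 10 + u := by rw [hu]; ring
  have hu0 : 0 ≤ u := by linarith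
  have hu1 : u ≤ 1 / 5 := by linarith
  rw [hv]
  have hp : ∀ m : ℕ, u ^ (m + 1) ≤ (1 / 5) ^ m * u := by
    intro m
    rw [pow_succ]
    exact mul_le_mul_of_nonneg_right (pow_le_pow_left₀ hu0 hu1 m) hu0
  have u2 := hp 1
  have u3 := hp 2
  have u4 := hp 3
  have u5 := hp 4
  have u6 := hp 5
  have u7 := hp 6
  norm_num at u2 u3 u4 u5 u6 u7 ⊢
  linarith

/-- Regime C: `num_sech` at `x = (13/20)/nb`, `sum_log_cosh_le`, and for the last term `sech_le` at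
`v = (13/20) (n+k)/nb`, `1.3 - v = .65 (n+1)/nb`, `(n+k+1/2)/nb ≤ 2`:
`.11 (n+k+½)/cosh v ≤ .11 · .508 (n+k+½) + .11 · .4625 · 1.3 (n+1)`. -/
theorem num_C {n k : ℕ} (hk : 26 ≤ k) (hn : 20 * n ≤ 3 * k) (φ : ℝ) :
    ∑ j ∈ Icc 1 k, 1 / 2 * log (2 * (cosh (((n : ℝ) + j) * (13 / 20 / nb n k)) -
      cos (((n : ℝ) + j) * φ))) ≤ 0.5323 * k + 0.6971 * n + 0.3821 := by
  have hk0 : (26 : ℝ) ≤ k := by exact_mod_cast hk
  have hn0 : (0 : ℝ) ≤ n := Nat.cast_nonneg n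
  have hn' : 20 * (n : ℝ) ≤ 3 * k := by exact_mod_cast hn
  have hnb := Fkc_nb (n := n) (k := k) (by omega)
  have hnb0 : 0 < nb n k := by linarith
  have hnb' : nb n k = n + ((k : ℝ) + 1) / 2 := rfl
  have hv1 : 11 / 10 ≤ ((n : ℝ) + k) * (13 / 20 / nb n k) := by
    rw [mul_div_assoc', le_div_iff₀ hnb0, hnb']
    linarith
  have hv2 : ((n : ℝ) + k) * (13 / 20 / nb n k) ≤ 13 / 10 := by
    rw [mul_div_assoc', div_le_iff₀ hnb0, hnb']
    linarith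
  have h := num_sech (n := n) hk (x := 13 / 20 / nb n k) (by positivity) (by linarith) φ
  refine h.trans ?_
  have h1 := sum_log_cosh_le (n := n) (k := k) (by omega)
  have h2 : ∑ j ∈ Icc 1 k, 1 / 2 * log (2 * cosh (((n : ℝ) + j) * (13 / 20 / nb n k))) =
      k * (1 / 2 * log 2) +
        ∑ j ∈ Icc 1 k, 1 / 2 * log (cosh (((n : ℝ) + j) * (13 / 20 / nb n k))) := by
    have : ∀ j ∈ Icc 1 k, 1 / 2 * log (2 * cosh (((n : ℝ) + (j : ℝ)) * (13 / 20 / nb n k))) =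
        1 / 2 * log 2 + 1 / 2 * log (cosh (((n : ℝ) + j) * (13 / 20 / nb n k))) := by
      intro j _
      rw [log_mul (by norm_num) (cosh_pos _).ne']
      ring
    rw [sum_congr rfl this, sum_add_distrib, sum_const, Nat.card_Icc, nsmul_eq_mul]
    congr 2
  have h3 := sech_le hv1 hv2
  have h4 : 13 / 10 - ((n : ℝ) + k) * (13 / 20 / nb n k) = 13 / 20 * (n + 1) / nb n k := by
    field_simp
    rw [hnb']
    ring
  rw [h4] at h3
  have h5 : 11 / 100 * ((n : ℝ) + k + 1 / 2) / cosh (((n : ℝ) + k) * (13 / 20 / nb n k)) ≤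
      0.05588 * ((n : ℝ) + k + 1 / 2) + 0.0661375 * (n + 1) := by
    have e1 : 11 / 100 * ((n : ℝ) + k + 1 / 2) / cosh (((n : ℝ) + k) * (13 / 20 / nb n k)) =
        11 / 100 * ((n : ℝ) + k + 1 / 2) * (1 / cosh (((n : ℝ) + k) * (13 / 20 / nb n k))) := by
      ring
    rw [e1]
    have e2 := mul_le_mul_of_nonneg_left h3
      (show 0 ≤ 11 / 100 * ((n : ℝ) + k + 1 / 2) by positivity)
    refine e2.trans ?_
    have e3 : ((n : ℝ) + k + 1 / 2) / nb n k ≤ 2 := by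
      rw [div_le_iff₀ hnb0, hnb']
      linarith
    have e4 : 11 / 100 * ((n : ℝ) + k + 1 / 2) * (0.508 + 0.4625 * (13 / 20 * (n + 1) / nb n k)) =
        0.05588 * ((n : ℝ) + k + 1 / 2) +
          0.03306875 * (n + 1) * (((n : ℝ) + k + 1 / 2) / nb n k) := by
      field_simp
      ring
    rw [e4]
    have e5 := mul_le_mul_of_nonneg_left e3 (show 0 ≤ 0.03306875 * ((n : ℝ) + 1) by positivity)
    norm_num at e5 ⊢
    linarith
  have h6 := Real.log_two_lt_d9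
  have h7 := mul_le_mul_of_nonneg_left h6.le (show 0 ≤ (k : ℝ) * (1 / 2) by positivity)
  rw [h2]
  norm_num at h1 h5 h7 ⊢
  linarith

end Pool.Agent.SignedQ.Far
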