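import Pool.Agent.Lib.MP_cf17a0_co.Far.Fe

/-! # FAR arcs: numerical values of `dd l` (task FN)

From the closed forms of Fe. True values:
`dd _ (1/10)`: 1.0942 .5357 .31746 .18559 .08661; `dd _ (1/3)`: .7450 .27200 .12865 .06384 .02692;
`dd _ 1`: .36815 .06775 .01661 .00455 .00122. -/

namespace Pool.Agent.SignedQ.Far

open Real

/-- Two-sided bound of a logarithm. -/
theorem Fn_bd {x y z : ℝ} (hx : 0 < x) (h0 : 0 ≤ y) (h1 : y ≤ 1) (h2 : 0 ≤ z)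
    (hl : ∑ m ∈ Finset.range 9, y ^ m / (m.factorial : ℝ) + y ^ 9 * (9 + 1) /
      ((Nat.factorial 9 : ℝ) * 9) ≤ x)
    (hu : x ≤ ∑ m ∈ Finset.range 9, z ^ m / (m.factorial : ℝ)) : y ≤ log x ∧ log x ≤ z := by
  constructor
  · rw [le_log_iff_exp_le hx]
    refine le_trans ?_ hl
    have h := exp_bound' h0 h1 (n := 9) (by norm_num)
    exact_mod_cast h
  · rw [log_le_iff_le_exp hx]
    exact hu.trans (sum_le_exp_of_nonneg h2 9)

theorem Fn_coth {x : ℝ} (hx : 0 < x) :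
    cosh x / sinh x = (exp (2 * x) + 1) / (exp (2 * x) - 1) := by
  have h1 : 0 < exp x := exp_pos x
  have h2 : exp (2 * x) = exp x * exp x := by rw [← exp_add]; congr 1; ring
  have h3 : 1 < exp x := one_lt_exp_iff.2 hx
  have h4 : exp (-x) = (exp x)⁻¹ := exp_neg x
  rw [cosh_eq, sinh_eq, h2, h4]
  generalize exp x = r at *
  have h5 : r * r - 1 ≠ 0 := by nlinarith
  have h6 : r - r⁻¹ ≠ 0 := by
    have : r⁻¹ < 1 := inv_lt_one_of_one_lt₀ h3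
    linarith
  rw [div_div_div_cancel_right₀ (by norm_num), div_eq_div_iff h6 h5]
  field_simp

/-- All the values in terms of four logarithms. -/
theorem Fn_forms {v : ℝ} (hv : 0 < v) :
    dd 1 v = 5 / 18 * (log (exp v + 1) - log (exp v - 1)) + 5 / 36 *
      (log (exp v ^ 2 + exp v + 1) - log (exp v ^ 2 - exp v + 1)) +
        exp v * (exp v ^ 2 + 1) / (6 * (exp v ^ 4 + exp v ^ 2 + 1)) ∧
    dd 2 v = -(2 / 9) * (log (exp v + 1) + log (exp v - 1)) + 1 / 9 *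
      (log (exp v ^ 2 + exp v + 1) + log (exp v ^ 2 - exp v + 1)) +
        exp v ^ 2 / (6 * (exp v ^ 4 + exp v ^ 2 + 1)) ∧
    dd 3 v = 1 / 6 * (log (exp v + 1) + log (exp v ^ 2 - exp v + 1) - log (exp v - 1) -
      log (exp v ^ 2 + exp v + 1)) ∧
    dd 4 v = 1 / 18 * (log (exp v ^ 2 + exp v + 1) + log (exp v ^ 2 - exp v + 1) -
      2 * log (exp v + 1) - 2 * log (exp v - 1)) -
        exp v ^ 2 / (6 * (exp v ^ 4 + exp v ^ 2 + 1)) ∧
    dd 5 v = 1 / 36 * (2 * log (exp v + 1) - 2 * log (exp v - 1) + log (exp v ^ 2 + exp v + 1) -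
      log (exp v ^ 2 - exp v + 1)) -
        exp v * (exp v ^ 2 + 1) / (6 * (exp v ^ 4 + exp v ^ 2 + 1)) := by
  have h1 : 1 < exp v := one_lt_exp_iff.2 hv
  have hinv : exp (-v) = (exp v)⁻¹ := exp_neg v
  have hle : log (exp v) = v := log_exp v
  have d3 := dd_three hv
  have d4 := dd_four hv
  have d5 := dd_five hv
  have d24 := dd_two_add_four hv
  have d135 := dd_odd_sum hv
  have e2 : exp (2 * v) = exp v ^ 2 := by rw [← exp_nat_mul]; norm_num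
  have e3 : exp (2 * (3 * v / 2)) = exp v ^ 3 := by rw [← exp_nat_mul]; congr 1; push_cast; ring
  have e1 : exp (2 * (v / 2)) = exp v := by congr 1; ring
  have em2 : exp (-(2 * v)) = (exp v ^ 2)⁻¹ := by rw [exp_neg, e2]
  have em6 : exp (-(6 * v)) = (exp v ^ 6)⁻¹ := by
    rw [exp_neg, ← exp_nat_mul]
    norm_num
  rw [Fn_coth (by linarith), e3] at d3
  rw [Fn_coth (by linarith), e1] at d135
  rw [cosh_eq, e2, em2] at d4
  rw [cosh_eq, hinv] at d5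
  rw [em2, em6] at d24
  generalize exp v = e at *
  have he : 0 < e := by linarith
  have ha : 0 < e + 1 := by linarith
  have hb : 0 < e - 1 := by linarith
  have hp : 0 < e ^ 2 + e + 1 := by positivity
  have hq : 0 < e ^ 2 - e + 1 := by nlinarith
  have hpq : e ^ 4 + e ^ 2 + 1 = (e ^ 2 + e + 1) * (e ^ 2 - e + 1) := by ring
  have l3 : log ((e ^ 3 + 1) / (e ^ 3 - 1)) = log (e + 1) + log (e ^ 2 - e + 1) - log (e - 1) -
      log (e ^ 2 + e + 1) := by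
    have x1 : e ^ 3 + 1 = (e + 1) * (e ^ 2 - e + 1) := by ring
    have x2 : e ^ 3 - 1 = (e - 1) * (e ^ 2 + e + 1) := by ring
    rw [x1, x2, log_div (by positivity) (by positivity), log_mul ha.ne' hq.ne',
      log_mul hb.ne' hp.ne']
    ring
  have l1 : log ((e + 1) / (e - 1)) = log (e + 1) - log (e - 1) := log_div ha.ne' hb.ne'
  have l4 : log ((2 * ((e ^ 2 + (e ^ 2)⁻¹) / 2) + 1) / (2 * ((e ^ 2 + (e ^ 2)⁻¹) / 2 - 1))) =
      log (e ^ 2 + e + 1) + log (e ^ 2 - e + 1) - 2 * log (e + 1) - 2 * log (e - 1) := by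
    have x1 : (2 * ((e ^ 2 + (e ^ 2)⁻¹) / 2) + 1) / (2 * ((e ^ 2 + (e ^ 2)⁻¹) / 2 - 1)) =
        ((e ^ 2 + e + 1) * (e ^ 2 - e + 1)) / ((e + 1) ^ 2 * (e - 1) ^ 2) := by
      have x2 : 2 * ((e ^ 2 + (e ^ 2)⁻¹) / 2) + 1 =
          ((e ^ 2 + e + 1) * (e ^ 2 - e + 1)) / e ^ 2 := by
        field_simp
        ring
      have x3 : 2 * ((e ^ 2 + (e ^ 2)⁻¹) / 2 - 1) = ((e + 1) ^ 2 * (e - 1) ^ 2) / e ^ 2 := by
        field_simp
        ring
      rw [x2, x3, div_div_div_cancel_right₀ (by positivity)]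
    rw [x1, log_div (by positivity) (by positivity), log_mul hp.ne' hq.ne',
      log_mul (by positivity) (by positivity), log_pow, log_pow]
    push_cast
    ring
  have t4 : 1 / (6 * (2 * ((e ^ 2 + (e ^ 2)⁻¹) / 2) + 1)) =
      e ^ 2 / (6 * (e ^ 4 + e ^ 2 + 1)) := by
    have x2 : 2 * ((e ^ 2 + (e ^ 2)⁻¹) / 2) + 1 = (e ^ 4 + e ^ 2 + 1) / e ^ 2 := by
      field_simp
      ring
    rw [x2]
    field_simp
  have l5 : log (((e + e⁻¹) / 2 + 1) / ((e + e⁻¹) / 2 - 1)) = 2 * log (e + 1) - 2 * log (e - 1) := by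
    have x1 : ((e + e⁻¹) / 2 + 1) / ((e + e⁻¹) / 2 - 1) = (e + 1) ^ 2 / (e - 1) ^ 2 := by
      have x2 : (e + e⁻¹) / 2 + 1 = (e + 1) ^ 2 / (2 * e) := by
        field_simp
        ring
      have x3 : (e + e⁻¹) / 2 - 1 = (e - 1) ^ 2 / (2 * e) := by
        field_simp
        ring
      rw [x2, x3, div_div_div_cancel_right₀ (by positivity)]
    rw [x1, log_div (by positivity) (by positivity), log_pow, log_pow]
    push_cast
    ring
  have l5' : log ((2 * ((e + e⁻¹) / 2) + 1) / (2 * ((e + e⁻¹) / 2) - 1)) =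
      log (e ^ 2 + e + 1) - log (e ^ 2 - e + 1) := by
    have x1 : (2 * ((e + e⁻¹) / 2) + 1) / (2 * ((e + e⁻¹) / 2) - 1) =
        (e ^ 2 + e + 1) / (e ^ 2 - e + 1) := by
      have x2 : 2 * ((e + e⁻¹) / 2) + 1 = (e ^ 2 + e + 1) / e := by
        field_simp
        ring
      have x3 : 2 * ((e + e⁻¹) / 2) - 1 = (e ^ 2 - e + 1) / e := by
        field_simp
        ring
      rw [x2, x3, div_div_div_cancel_right₀ (by positivity)]
    rw [x1, log_div hp.ne' hq.ne']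
  have t5 : (e + e⁻¹) / 2 / (3 * (4 * ((e + e⁻¹) / 2) ^ 2 - 1)) =
      e * (e ^ 2 + 1) / (6 * (e ^ 4 + e ^ 2 + 1)) := by
    have x1 : 4 * ((e + e⁻¹) / 2) ^ 2 - 1 = (e ^ 4 + e ^ 2 + 1) / e ^ 2 := by
      field_simp
      ring
    have x2 : (e + e⁻¹) / 2 = (e ^ 2 + 1) / (2 * e) := by
      field_simp
    rw [x1, x2]
    field_simp
    ring
  have l2 : log (1 - (e ^ 2)⁻¹) = log (e + 1) + log (e - 1) - 2 * v := by
    have x1 : 1 - (e ^ 2)⁻¹ = ((e + 1) * (e - 1)) / e ^ 2 := by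
      field_simp
      ring
    rw [x1, log_div (by positivity) (by positivity), log_mul ha.ne' hb.ne', log_pow, hle]
    push_cast
    ring
  have l6 : log (1 - (e ^ 6)⁻¹) = log (e + 1) + log (e - 1) + log (e ^ 2 + e + 1) +
      log (e ^ 2 - e + 1) - 6 * v := by
    have x1 : 1 - (e ^ 6)⁻¹ =
        ((e + 1) * (e - 1) * (e ^ 2 + e + 1) * (e ^ 2 - e + 1)) / e ^ 6 := by
      field_simp
      ring
    rw [x1, log_div (by positivity) (by positivity), log_mul (by positivity) hq.ne',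
      log_mul (by positivity) hp.ne', log_mul ha.ne' hb.ne', log_pow, hle]
    push_cast
    ring
  rw [l3] at d3
  rw [l4, t4] at d4
  rw [l5, l5', t5] at d5
  rw [l2, l6] at d24
  rw [l1] at d135
  refine ⟨?_, ?_, d3, d4, ?_⟩
  · linarith
  · linarith
  · linarith

theorem Fn_e_tenth : (1105170918 / 1000000000 : ℝ) ≤ exp (1 / 10) ∧ exp (1 / 10) ≤ (1105170919 / 1000000000 : ℝ) := by
  constructor
  · refine le_trans ?_ (sum_le_exp_of_nonneg (x := 1 / 10) (by norm_num) 10)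
    norm_num [Finset.sum_range_succ, Nat.factorial]
  · have h := exp_bound' (x := 1 / 10) (by norm_num) (by norm_num) (n := 10) (by norm_num)
    refine h.trans ?_
    norm_num [Finset.sum_range_succ, Nat.factorial]

theorem Fn_l_tenth :
    ((744396 / 1000000 : ℝ) ≤ log (exp (1 / 10) + 1) ∧ log (exp (1 / 10) + 1) ≤ (744398 / 1000000 : ℝ)) ∧
    ((-2252169 / 1000000 : ℝ) ≤ log (exp (1 / 10) - 1) ∧ log (exp (1 / 10) - 1) ≤ (-2252167 / 1000000 : ℝ)) ∧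
    ((1201942 / 1000000 : ℝ) ≤ log (exp (1 / 10) ^ 2 + exp (1 / 10) + 1) ∧ log (exp (1 / 10) ^ 2 + exp (1 / 10) + 1) ≤ (1201944 / 1000000 : ℝ)) ∧
    ((109958 / 1000000 : ℝ) ≤ log (exp (1 / 10) ^ 2 - exp (1 / 10) + 1) ∧ log (exp (1 / 10) ^ 2 - exp (1 / 10) + 1) ≤ (109959 / 1000000 : ℝ)) := by
  obtain ⟨h1, h2⟩ := Fn_e_tenth
  have g1 := log_two_gt_d9
  have g2 := log_two_lt_d9
  norm_num at g1 g2
  have f1 : (1221402757 / 1000000000 : ℝ) ≤ exp (1 / 10) ^ 2 := by nlinarith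
  have f2 : exp (1 / 10) ^ 2 ≤ (1221402761 / 1000000000 : ℝ) := by nlinarith
  refine ⟨?_, ?_, ?_, ?_⟩
  · have h0 : 0 < exp (1 / 10) + 1 := by
      nlinarith
    have h := Fn_bd (x := (exp (1 / 10) + 1) / 2) (y := (51249 / 1000000 : ℝ)) (z := (51250 / 1000000 : ℝ)) (by positivity)
      (by norm_num) (by norm_num) (by norm_num)
      (by
        norm_num [Finset.sum_range_succ, Nat.factorial]
        nlinarith) (by
        norm_num [Finset.sum_range_succ, Nat.factorial]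
        nlinarith)
    have e : log ((exp (1 / 10) + 1) / 2) = log (exp (1 / 10) + 1) - 1 * log 2 := by
      rw [log_div h0.ne' (by norm_num), show (2 : ℝ) = 2 ^ 1 by norm_num, log_pow]
      push_cast
      ring
    rw [e] at h
    constructor
    · linarith [h.1]
    · linarith [h.2]
  · have h0 : 0 < exp (1 / 10) - 1 := by
      nlinarith
    have h := Fn_bd (x := (exp (1 / 10) - 1) * 16) (y := (520420 / 1000000 : ℝ)) (z := (520421 / 1000000 : ℝ)) (by positivity)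
      (by norm_num) (by norm_num) (by norm_num)
      (by
        norm_num [Finset.sum_range_succ, Nat.factorial]
        nlinarith) (by
        norm_num [Finset.sum_range_succ, Nat.factorial]
        nlinarith)
    have e : log ((exp (1 / 10) - 1) * 16) = log (exp (1 / 10) - 1) + 4 * log 2 := by
      rw [log_mul h0.ne' (by norm_num), show (16 : ℝ) = 2 ^ 4 by norm_num, log_pow]
      push_cast
      ring
    rw [e] at h
    constructor
    · linarith [h.1]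
    · linarith [h.2]
  · have h0 : 0 < exp (1 / 10) ^ 2 + exp (1 / 10) + 1 := by
      nlinarith
    have h := Fn_bd (x := (exp (1 / 10) ^ 2 + exp (1 / 10) + 1) / 2) (y := (508795 / 1000000 : ℝ)) (z := (508796 / 1000000 : ℝ)) (by positivity)
      (by norm_num) (by norm_num) (by norm_num)
      (by
        norm_num [Finset.sum_range_succ, Nat.factorial]
        nlinarith) (by
        norm_num [Finset.sum_range_succ, Nat.factorial]
        nlinarith)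
    have e : log ((exp (1 / 10) ^ 2 + exp (1 / 10) + 1) / 2) = log (exp (1 / 10) ^ 2 + exp (1 / 10) + 1) - 1 * log 2 := by
      rw [log_div h0.ne' (by norm_num), show (2 : ℝ) = 2 ^ 1 by norm_num, log_pow]
      push_cast
      ring
    rw [e] at h
    constructor
    · linarith [h.1]
    · linarith [h.2]
  · have h0 : 0 < exp (1 / 10) ^ 2 - exp (1 / 10) + 1 := by
      nlinarith
    have h := Fn_bd (x := (exp (1 / 10) ^ 2 - exp (1 / 10) + 1)) (y := (109958 / 1000000 : ℝ)) (z := (109959 / 1000000 : ℝ)) (by positivity)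
      (by norm_num) (by norm_num) (by norm_num)
      (by
        norm_num [Finset.sum_range_succ, Nat.factorial]
        nlinarith) (by
        norm_num [Finset.sum_range_succ, Nat.factorial]
        nlinarith)
    constructor
    · linarith [h.1]
    · linarith [h.2]

theorem Fn_t_tenth :
    ((54822 / 1000000 : ℝ) ≤ exp (1 / 10) ^ 2 / (6 * (exp (1 / 10) ^ 4 + exp (1 / 10) ^ 2 + 1)) ∧
      exp (1 / 10) ^ 2 / (6 * (exp (1 / 10) ^ 4 + exp (1 / 10) ^ 2 + 1)) ≤ (54823 / 1000000 : ℝ)) ∧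
    ((110192 / 1000000 : ℝ) ≤ exp (1 / 10) * (exp (1 / 10) ^ 2 + 1) / (6 * (exp (1 / 10) ^ 4 + exp (1 / 10) ^ 2 + 1)) ∧
      exp (1 / 10) * (exp (1 / 10) ^ 2 + 1) / (6 * (exp (1 / 10) ^ 4 + exp (1 / 10) ^ 2 + 1)) ≤ (110193 / 1000000 : ℝ)) := by
  obtain ⟨h1, h2⟩ := Fn_e_tenth
  have f1 : (1221402757 / 1000000000 : ℝ) ≤ exp (1 / 10) ^ 2 := by nlinarith
  have f2 : exp (1 / 10) ^ 2 ≤ (1221402761 / 1000000000 : ℝ) := by nlinarith
  have e4 : exp (1 / 10) ^ 4 = exp (1 / 10) ^ 2 * exp (1 / 10) ^ 2 := by ring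
  have k1 : (149182469 / 100000000 : ℝ) ≤ exp (1 / 10) ^ 4 := by rw [e4]; nlinarith
  have k2 : exp (1 / 10) ^ 4 ≤ (149182471 / 100000000 : ℝ) := by rw [e4]; nlinarith
  have c1 : (134985880 / 100000000 : ℝ) ≤ exp (1 / 10) * exp (1 / 10) ^ 2 := by nlinarith
  have c2 : exp (1 / 10) * exp (1 / 10) ^ 2 ≤ (134985882 / 100000000 : ℝ) := by nlinarith
  have hpos : 0 < 6 * (exp (1 / 10) ^ 4 + exp (1 / 10) ^ 2 + 1) := by positivity
  refine ⟨⟨?_, ?_⟩, ⟨?_, ?_⟩⟩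
  · rw [le_div_iff₀ hpos]
    linarith
  · rw [div_le_iff₀ hpos]
    linarith
  · rw [le_div_iff₀ hpos]
    linarith
  · rw [div_le_iff₀ hpos]
    linarith

theorem Fn_e_third : (1395612425 / 1000000000 : ℝ) ≤ exp (1 / 3) ∧ exp (1 / 3) ≤ (1395612426 / 1000000000 : ℝ) := by
  constructor
  · refine le_trans ?_ (sum_le_exp_of_nonneg (x := 1 / 3) (by norm_num) 10)
    norm_num [Finset.sum_range_succ, Nat.factorial]
  · have h := exp_bound' (x := 1 / 3) (by norm_num) (by norm_num) (n := 10) (by norm_num)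
    refine h.trans ?_
    norm_num [Finset.sum_range_succ, Nat.factorial]

theorem Fn_l_third :
    ((873638 / 1000000 : ℝ) ≤ log (exp (1 / 3) + 1) ∧ log (exp (1 / 3) + 1) ≤ (873640 / 1000000 : ℝ)) ∧
    ((-927321 / 1000000 : ℝ) ≤ log (exp (1 / 3) - 1) ∧ log (exp (1 / 3) - 1) ≤ (-927319 / 1000000 : ℝ)) ∧
    ((1468644 / 1000000 : ℝ) ≤ log (exp (1 / 3) ^ 2 + exp (1 / 3) + 1) ∧ log (exp (1 / 3) ^ 2 + exp (1 / 3) + 1) ≤ (1468646 / 1000000 : ℝ)) ∧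
    ((439622 / 1000000 : ℝ) ≤ log (exp (1 / 3) ^ 2 - exp (1 / 3) + 1) ∧ log (exp (1 / 3) ^ 2 - exp (1 / 3) + 1) ≤ (439623 / 1000000 : ℝ)) := by
  obtain ⟨h1, h2⟩ := Fn_e_third
  have g1 := log_two_gt_d9
  have g2 := log_two_lt_d9
  norm_num at g1 g2
  have f1 : (1947734040 / 1000000000 : ℝ) ≤ exp (1 / 3) ^ 2 := by nlinarith
  have f2 : exp (1 / 3) ^ 2 ≤ (1947734044 / 1000000000 : ℝ) := by nlinarith
  refine ⟨?_, ?_, ?_, ?_⟩
  · have h0 : 0 < exp (1 / 3) + 1 := by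
      nlinarith
    have h := Fn_bd (x := (exp (1 / 3) + 1) / 2) (y := (180491 / 1000000 : ℝ)) (z := (180492 / 1000000 : ℝ)) (by positivity)
      (by norm_num) (by norm_num) (by norm_num)
      (by
        norm_num [Finset.sum_range_succ, Nat.factorial]
        nlinarith) (by
        norm_num [Finset.sum_range_succ, Nat.factorial]
        nlinarith)
    have e : log ((exp (1 / 3) + 1) / 2) = log (exp (1 / 3) + 1) - 1 * log 2 := by
      rw [log_div h0.ne' (by norm_num), show (2 : ℝ) = 2 ^ 1 by norm_num, log_pow]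
      push_cast
      ring
    rw [e] at h
    constructor
    · linarith [h.1]
    · linarith [h.2]
  · have h0 : 0 < exp (1 / 3) - 1 := by
      nlinarith
    have h := Fn_bd (x := (exp (1 / 3) - 1) * 4) (y := (458974 / 1000000 : ℝ)) (z := (458975 / 1000000 : ℝ)) (by positivity)
      (by norm_num) (by norm_num) (by norm_num)
      (by
        norm_num [Finset.sum_range_succ, Nat.factorial]
        nlinarith) (by
        norm_num [Finset.sum_range_succ, Nat.factorial]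
        nlinarith)
    have e : log ((exp (1 / 3) - 1) * 4) = log (exp (1 / 3) - 1) + 2 * log 2 := by
      rw [log_mul h0.ne' (by norm_num), show (4 : ℝ) = 2 ^ 2 by norm_num, log_pow]
      push_cast
      ring
    rw [e] at h
    constructor
    · linarith [h.1]
    · linarith [h.2]
  · have h0 : 0 < exp (1 / 3) ^ 2 + exp (1 / 3) + 1 := by
      nlinarith
    have h := Fn_bd (x := (exp (1 / 3) ^ 2 + exp (1 / 3) + 1) / 4) (y := (82350 / 1000000 : ℝ)) (z := (82351 / 1000000 : ℝ)) (by positivity)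
      (by norm_num) (by norm_num) (by norm_num)
      (by
        norm_num [Finset.sum_range_succ, Nat.factorial]
        nlinarith) (by
        norm_num [Finset.sum_range_succ, Nat.factorial]
        nlinarith)
    have e : log ((exp (1 / 3) ^ 2 + exp (1 / 3) + 1) / 4) = log (exp (1 / 3) ^ 2 + exp (1 / 3) + 1) - 2 * log 2 := by
      rw [log_div h0.ne' (by norm_num), show (4 : ℝ) = 2 ^ 2 by norm_num, log_pow]
      push_cast
      ring
    rw [e] at h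
    constructor
    · linarith [h.1]
    · linarith [h.2]
  · have h0 : 0 < exp (1 / 3) ^ 2 - exp (1 / 3) + 1 := by
      nlinarith
    have h := Fn_bd (x := (exp (1 / 3) ^ 2 - exp (1 / 3) + 1)) (y := (439622 / 1000000 : ℝ)) (z := (439623 / 1000000 : ℝ)) (by positivity)
      (by norm_num) (by norm_num) (by norm_num)
      (by
        norm_num [Finset.sum_range_succ, Nat.factorial]
        nlinarith) (by
        norm_num [Finset.sum_range_succ, Nat.factorial]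
        nlinarith)
    constructor
    · linarith [h.1]
    · linarith [h.2]

theorem Fn_t_third :
    ((48153 / 1000000 : ℝ) ≤ exp (1 / 3) ^ 2 / (6 * (exp (1 / 3) ^ 4 + exp (1 / 3) ^ 2 + 1)) ∧
      exp (1 / 3) ^ 2 / (6 * (exp (1 / 3) ^ 4 + exp (1 / 3) ^ 2 + 1)) ≤ (48154 / 1000000 : ℝ)) ∧
    ((101707 / 1000000 : ℝ) ≤ exp (1 / 3) * (exp (1 / 3) ^ 2 + 1) / (6 * (exp (1 / 3) ^ 4 + exp (1 / 3) ^ 2 + 1)) ∧
      exp (1 / 3) * (exp (1 / 3) ^ 2 + 1) / (6 * (exp (1 / 3) ^ 4 + exp (1 / 3) ^ 2 + 1)) ≤ (101708 / 1000000 : ℝ)) := by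
  obtain ⟨h1, h2⟩ := Fn_e_third
  have f1 : (1947734040 / 1000000000 : ℝ) ≤ exp (1 / 3) ^ 2 := by nlinarith
  have f2 : exp (1 / 3) ^ 2 ≤ (1947734044 / 1000000000 : ℝ) := by nlinarith
  have e4 : exp (1 / 3) ^ 4 = exp (1 / 3) ^ 2 * exp (1 / 3) ^ 2 := by ring
  have k1 : (379366789 / 100000000 : ℝ) ≤ exp (1 / 3) ^ 4 := by rw [e4]; nlinarith
  have k2 : exp (1 / 3) ^ 4 ≤ (379366791 / 100000000 : ℝ) := by rw [e4]; nlinarith
  have c1 : (271828182 / 100000000 : ℝ) ≤ exp (1 / 3) * exp (1 / 3) ^ 2 := by nlinarith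
  have c2 : exp (1 / 3) * exp (1 / 3) ^ 2 ≤ (271828184 / 100000000 : ℝ) := by nlinarith
  have hpos : 0 < 6 * (exp (1 / 3) ^ 4 + exp (1 / 3) ^ 2 + 1) := by positivity
  refine ⟨⟨?_, ?_⟩, ⟨?_, ?_⟩⟩
  · rw [le_div_iff₀ hpos]
    linarith
  · rw [div_le_iff₀ hpos]
    linarith
  · rw [le_div_iff₀ hpos]
    linarith
  · rw [div_le_iff₀ hpos]
    linarith

theorem Fn_e_unit : (2718281828 / 1000000000 : ℝ) ≤ exp 1 ∧ exp 1 ≤ (2718281829 / 1000000000 : ℝ) := by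
  have h1 := exp_one_gt_d9
  have h2 := exp_one_lt_d9
  constructor
  · norm_num at h1 ⊢
    linarith
  · norm_num at h2 ⊢
    linarith

theorem Fn_l_unit :
    ((1313261 / 1000000 : ℝ) ≤ log (exp 1 + 1) ∧ log (exp 1 + 1) ≤ (1313263 / 1000000 : ℝ)) ∧
    ((541324 / 1000000 : ℝ) ≤ log (exp 1 - 1) ∧ log (exp 1 - 1) ≤ (541325 / 1000000 : ℝ)) ∧
    ((2407605 / 1000000 : ℝ) ≤ log (exp 1 ^ 2 + exp 1 + 1) ∧ log (exp 1 ^ 2 + exp 1 + 1) ≤ (2407607 / 1000000 : ℝ)) ∧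
    ((1735325 / 1000000 : ℝ) ≤ log (exp 1 ^ 2 - exp 1 + 1) ∧ log (exp 1 ^ 2 - exp 1 + 1) ≤ (1735327 / 1000000 : ℝ)) := by
  obtain ⟨h1, h2⟩ := Fn_e_unit
  have g1 := log_two_gt_d9
  have g2 := log_two_lt_d9
  norm_num at g1 g2
  have f1 : (7389056096 / 1000000000 : ℝ) ≤ exp 1 ^ 2 := by nlinarith
  have f2 : exp 1 ^ 2 ≤ (7389056102 / 1000000000 : ℝ) := by nlinarith
  generalize exp 1 = w at *
  refine ⟨?_, ?_, ?_, ?_⟩
  · have h0 : 0 < w + 1 := by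
      nlinarith
    have h := Fn_bd (x := (w + 1) / 2) (y := (620114 / 1000000 : ℝ)) (z := (620115 / 1000000 : ℝ)) (by positivity)
      (by norm_num) (by norm_num) (by norm_num)
      (by
        norm_num [Finset.sum_range_succ, Nat.factorial]
        nlinarith) (by
        norm_num [Finset.sum_range_succ, Nat.factorial]
        nlinarith)
    have e : log ((w + 1) / 2) = log (w + 1) - 1 * log 2 := by
      rw [log_div h0.ne' (by norm_num), show (2 : ℝ) = 2 ^ 1 by norm_num, log_pow]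
      push_cast
      ring
    rw [e] at h
    constructor
    · linarith [h.1]
    · linarith [h.2]
  · have h0 : 0 < w - 1 := by
      nlinarith
    have h := Fn_bd (x := (w - 1)) (y := (541324 / 1000000 : ℝ)) (z := (541325 / 1000000 : ℝ)) (by positivity)
      (by norm_num) (by norm_num) (by norm_num)
      (by
        norm_num [Finset.sum_range_succ, Nat.factorial]
        nlinarith) (by
        norm_num [Finset.sum_range_succ, Nat.factorial]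
        nlinarith)
    constructor
    · linarith [h.1]
    · linarith [h.2]
  · have h0 : 0 < w ^ 2 + w + 1 := by
      nlinarith
    have h := Fn_bd (x := (w ^ 2 + w + 1) / 8) (y := (328164 / 1000000 : ℝ)) (z := (328165 / 1000000 : ℝ)) (by positivity)
      (by norm_num) (by norm_num) (by norm_num)
      (by
        norm_num [Finset.sum_range_succ, Nat.factorial]
        nlinarith) (by
        norm_num [Finset.sum_range_succ, Nat.factorial]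
        nlinarith)
    have e : log ((w ^ 2 + w + 1) / 8) = log (w ^ 2 + w + 1) - 3 * log 2 := by
      rw [log_div h0.ne' (by norm_num), show (8 : ℝ) = 2 ^ 3 by norm_num, log_pow]
      push_cast
      ring
    rw [e] at h
    constructor
    · linarith [h.1]
    · linarith [h.2]
  · have h0 : 0 < w ^ 2 - w + 1 := by
      nlinarith
    have h := Fn_bd (x := (w ^ 2 - w + 1) / 4) (y := (349031 / 1000000 : ℝ)) (z := (349032 / 1000000 : ℝ)) (by positivity)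
      (by norm_num) (by norm_num) (by norm_num)
      (by
        norm_num [Finset.sum_range_succ, Nat.factorial]
        nlinarith) (by
        norm_num [Finset.sum_range_succ, Nat.factorial]
        nlinarith)
    have e : log ((w ^ 2 - w + 1) / 4) = log (w ^ 2 - w + 1) - 2 * log 2 := by
      rw [log_div h0.ne' (by norm_num), show (4 : ℝ) = 2 ^ 2 by norm_num, log_pow]
      push_cast
      ring
    rw [e] at h
    constructor
    · linarith [h.1]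
    · linarith [h.2]

theorem Fn_t_unit :
    ((19551 / 1000000 : ℝ) ≤ exp 1 ^ 2 / (6 * (exp 1 ^ 4 + exp 1 ^ 2 + 1)) ∧
      exp 1 ^ 2 / (6 * (exp 1 ^ 4 + exp 1 ^ 2 + 1)) ≤ (19552 / 1000000 : ℝ)) ∧
    ((60339 / 1000000 : ℝ) ≤ exp 1 * (exp 1 ^ 2 + 1) / (6 * (exp 1 ^ 4 + exp 1 ^ 2 + 1)) ∧
      exp 1 * (exp 1 ^ 2 + 1) / (6 * (exp 1 ^ 4 + exp 1 ^ 2 + 1)) ≤ (60340 / 1000000 : ℝ)) := by
  obtain ⟨h1, h2⟩ := Fn_e_unit
  have f1 : (7389056096 / 1000000000 : ℝ) ≤ exp 1 ^ 2 := by nlinarith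
  have f2 : exp 1 ^ 2 ≤ (7389056102 / 1000000000 : ℝ) := by nlinarith
  have e4 : exp 1 ^ 4 = exp 1 ^ 2 * exp 1 ^ 2 := by ring
  have k1 : (5459814998 / 100000000 : ℝ) ≤ exp 1 ^ 4 := by rw [e4]; nlinarith
  have k2 : exp 1 ^ 4 ≤ (5459815008 / 100000000 : ℝ) := by rw [e4]; nlinarith
  have c1 : (2008553691 / 100000000 : ℝ) ≤ exp 1 * exp 1 ^ 2 := by nlinarith
  have c2 : exp 1 * exp 1 ^ 2 ≤ (2008553694 / 100000000 : ℝ) := by nlinarith
  have hpos : 0 < 6 * (exp 1 ^ 4 + exp 1 ^ 2 + 1) := by positivity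
  refine ⟨⟨?_, ?_⟩, ⟨?_, ?_⟩⟩
  · rw [le_div_iff₀ hpos]
    linarith
  · rw [div_le_iff₀ hpos]
    linarith
  · rw [le_div_iff₀ hpos]
    linarith
  · rw [div_le_iff₀ hpos]
    linarith

theorem dd_one_tenth : dd 1 (1 / 10) ≤ 1.1 := by
  obtain ⟨h1, h2, h3, h4, h5⟩ := Fn_forms (v := 1 / 10) (by norm_num)
  obtain ⟨⟨a1, a2⟩, ⟨b1, b2⟩, ⟨p1, p2⟩, ⟨q1, q2⟩⟩ := Fn_l_tenth
  obtain ⟨⟨s1, s2⟩, ⟨t1, t2⟩⟩ := Fn_t_tenth
  rw [h1]
  norm_num at *
  linarith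

theorem dd_two_tenth : dd 2 (1 / 10) ≤ 0.537 := by
  obtain ⟨h1, h2, h3, h4, h5⟩ := Fn_forms (v := 1 / 10) (by norm_num)
  obtain ⟨⟨a1, a2⟩, ⟨b1, b2⟩, ⟨p1, p2⟩, ⟨q1, q2⟩⟩ := Fn_l_tenth
  obtain ⟨⟨s1, s2⟩, ⟨t1, t2⟩⟩ := Fn_t_tenth
  rw [h2]
  norm_num at *
  linarith

theorem dd_three_tenth : dd 3 (1 / 10) ≤ 0.318 := by
  obtain ⟨h1, h2, h3, h4, h5⟩ := Fn_forms (v := 1 / 10) (by norm_num)
  obtain ⟨⟨a1, a2⟩, ⟨b1, b2⟩, ⟨p1, p2⟩, ⟨q1, q2⟩⟩ := Fn_l_tenth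
  obtain ⟨⟨s1, s2⟩, ⟨t1, t2⟩⟩ := Fn_t_tenth
  rw [h3]
  norm_num at *
  linarith

theorem dd_four_tenth : dd 4 (1 / 10) ≤ 0.186 := by
  obtain ⟨h1, h2, h3, h4, h5⟩ := Fn_forms (v := 1 / 10) (by norm_num)
  obtain ⟨⟨a1, a2⟩, ⟨b1, b2⟩, ⟨p1, p2⟩, ⟨q1, q2⟩⟩ := Fn_l_tenth
  obtain ⟨⟨s1, s2⟩, ⟨t1, t2⟩⟩ := Fn_t_tenth
  rw [h4]
  norm_num at *
  linarith

theorem dd_five_tenth : dd 5 (1 / 10) ≤ 0.087 := by
  obtain ⟨h1, h2, h3, h4, h5⟩ := Fn_forms (v := 1 / 10) (by norm_num)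
  obtain ⟨⟨a1, a2⟩, ⟨b1, b2⟩, ⟨p1, p2⟩, ⟨q1, q2⟩⟩ := Fn_l_tenth
  obtain ⟨⟨s1, s2⟩, ⟨t1, t2⟩⟩ := Fn_t_tenth
  rw [h5]
  norm_num at *
  linarith

theorem dd_one_third : dd 1 (1 / 3) ≤ 0.75 := by
  obtain ⟨h1, h2, h3, h4, h5⟩ := Fn_forms (v := 1 / 3) (by norm_num)
  obtain ⟨⟨a1, a2⟩, ⟨b1, b2⟩, ⟨p1, p2⟩, ⟨q1, q2⟩⟩ := Fn_l_third
  obtain ⟨⟨s1, s2⟩, ⟨t1, t2⟩⟩ := Fn_t_third
  rw [h1]
  norm_num at *
  linarith

theorem dd_two_third : dd 2 (1 / 3) ≤ 0.273 := by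
  obtain ⟨h1, h2, h3, h4, h5⟩ := Fn_forms (v := 1 / 3) (by norm_num)
  obtain ⟨⟨a1, a2⟩, ⟨b1, b2⟩, ⟨p1, p2⟩, ⟨q1, q2⟩⟩ := Fn_l_third
  obtain ⟨⟨s1, s2⟩, ⟨t1, t2⟩⟩ := Fn_t_third
  rw [h2]
  norm_num at *
  linarith

theorem dd_three_third : dd 3 (1 / 3) ≤ 0.129 := by
  obtain ⟨h1, h2, h3, h4, h5⟩ := Fn_forms (v := 1 / 3) (by norm_num)
  obtain ⟨⟨a1, a2⟩, ⟨b1, b2⟩, ⟨p1, p2⟩, ⟨q1, q2⟩⟩ := Fn_l_third
  obtain ⟨⟨s1, s2⟩, ⟨t1, t2⟩⟩ := Fn_t_third
  rw [h3]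
  norm_num at *
  linarith

theorem dd_four_third : dd 4 (1 / 3) ≤ 0.0643 := by
  obtain ⟨h1, h2, h3, h4, h5⟩ := Fn_forms (v := 1 / 3) (by norm_num)
  obtain ⟨⟨a1, a2⟩, ⟨b1, b2⟩, ⟨p1, p2⟩, ⟨q1, q2⟩⟩ := Fn_l_third
  obtain ⟨⟨s1, s2⟩, ⟨t1, t2⟩⟩ := Fn_t_third
  rw [h4]
  norm_num at *
  linarith

theorem dd_five_third : dd 5 (1 / 3) ≤ 0.0273 := by
  obtain ⟨h1, h2, h3, h4, h5⟩ := Fn_forms (v := 1 / 3) (by norm_num)
  obtain ⟨⟨a1, a2⟩, ⟨b1, b2⟩, ⟨p1, p2⟩, ⟨q1, q2⟩⟩ := Fn_l_third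
  obtain ⟨⟨s1, s2⟩, ⟨t1, t2⟩⟩ := Fn_t_third
  rw [h5]
  norm_num at *
  linarith

theorem dd_one_unit : dd 1 1 ≤ 0.37 := by
  obtain ⟨h1, h2, h3, h4, h5⟩ := Fn_forms (v := 1) (by norm_num)
  obtain ⟨⟨a1, a2⟩, ⟨b1, b2⟩, ⟨p1, p2⟩, ⟨q1, q2⟩⟩ := Fn_l_unit
  obtain ⟨⟨s1, s2⟩, ⟨t1, t2⟩⟩ := Fn_t_unit
  rw [h1]
  norm_num at *
  linarith

theorem dd_two_unit : dd 2 1 ≤ 0.07 := by
  obtain ⟨h1, h2, h3, h4, h5⟩ := Fn_forms (v := 1) (by norm_num)
  obtain ⟨⟨a1, a2⟩, ⟨b1, b2⟩, ⟨p1, p2⟩, ⟨q1, q2⟩⟩ := Fn_l_unit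
  obtain ⟨⟨s1, s2⟩, ⟨t1, t2⟩⟩ := Fn_t_unit
  rw [h2]
  norm_num at *
  linarith

theorem dd_three_unit : dd 3 1 ≤ 0.017 := by
  obtain ⟨h1, h2, h3, h4, h5⟩ := Fn_forms (v := 1) (by norm_num)
  obtain ⟨⟨a1, a2⟩, ⟨b1, b2⟩, ⟨p1, p2⟩, ⟨q1, q2⟩⟩ := Fn_l_unit
  obtain ⟨⟨s1, s2⟩, ⟨t1, t2⟩⟩ := Fn_t_unit
  rw [h3]
  norm_num at *
  linarith

theorem dd_four_unit : dd 4 1 ≤ 0.005 := by
  obtain ⟨h1, h2, h3, h4, h5⟩ := Fn_forms (v := 1) (by norm_num)
  obtain ⟨⟨a1, a2⟩, ⟨b1, b2⟩, ⟨p1, p2⟩, ⟨q1, q2⟩⟩ := Fn_l_unit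
  obtain ⟨⟨s1, s2⟩, ⟨t1, t2⟩⟩ := Fn_t_unit
  rw [h4]
  norm_num at *
  linarith

theorem dd_five_unit : dd 5 1 ≤ 0.0014 := by
  obtain ⟨h1, h2, h3, h4, h5⟩ := Fn_forms (v := 1) (by norm_num)
  obtain ⟨⟨a1, a2⟩, ⟨b1, b2⟩, ⟨p1, p2⟩, ⟨q1, q2⟩⟩ := Fn_l_unit
  obtain ⟨⟨s1, s2⟩, ⟨t1, t2⟩⟩ := Fn_t_unit
  rw [h5]
  norm_num at *
  linarith

end Pool.Agent.SignedQ.Far
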