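import Pool.Agent.Lib.MP_cf17a0_co.Far.Fg
import Pool.Agent.Lib.MP_cf17a0_co.Far.Fn

/-! # FAR arcs: the sum over the harmonics, general form (task FU0) -/

namespace Pool.Agent.SignedQ.Far

open Real Finset

/-- The constants of the kernels. -/
noncomputable def al (l : ℕ) : ℝ := if l = 1 then 41 / 100 else (6 - (l : ℝ)) / 18

/-- The harmonic part of the majorant of `-∑ log |1 - e^(-j(T - iψ))|`, `ψ = π + θ`. -/
noncomputable def HS (k : ℕ) (T θ : ℝ) : ℝ :=
  ∑ l ∈ Icc 1 5, ∑ j ∈ Icc 1 k, dd l (j * T) * cos (j * (l * (π + θ)))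

/-- `dd_diff_le`, `dd_one_diff_le` with `u = kT ≤ v = v₁`. -/
theorem dd_upper {l : ℕ} (h1 : 1 ≤ l) (h5 : l ≤ 5) {x v₁ : ℝ} (hx : 0 < x) (hv : x ≤ v₁) :
    dd l x ≤ dd l v₁ + al l * (log v₁ + log (1 / x)) := by
  have hv0 : 0 < v₁ := hx.trans_le hv
  have hlog : log (v₁ / x) = log v₁ + log (1 / x) := by
    rw [log_div hv0.ne' hx.ne', one_div, log_inv]
    ring
  by_cases hl : l = 1
  · subst hl
    have h := dd_one_diff_le hx hv
    rw [hlog] at h
    unfold al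
    rw [if_pos rfl]
    linarith
  · have h := dd_diff_le (by omega : 2 ≤ l) h5 hx hv
    rw [hlog] at h
    unfold al
    rw [if_neg hl]
    linarith

/-- General form: the sum of the end terms `- dd l T / 2` by `dd_sum_ge`. -/
theorem Fu0_gen {k : ℕ} {T : ℝ} (hT : 0 < T) (θ : ℝ) (G : ℕ → ℝ)
    (H : ∀ l, 1 ≤ l → l ≤ 5 →
      ∑ j ∈ Icc 1 k, dd l (j * T) * cos (j * (l * (π + θ))) ≤ G l - dd l T / 2) :
    HS k T θ ≤ ∑ l ∈ Icc 1 5, G l + 5 / 12 * log T - log 6 / 12 + T / 4 := by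
  have h1 : HS k T θ ≤ ∑ l ∈ Icc 1 5, (G l - dd l T / 2) := by
    unfold HS
    refine Finset.sum_le_sum fun l hl => ?_
    rw [mem_Icc] at hl
    exact H l hl.1 hl.2
  have h2 := dd_sum_ge hT
  have h3 : ∑ l ∈ Icc 1 5, (G l - dd l T / 2) =
      ∑ l ∈ Icc 1 5, G l - (dd 1 T + dd 2 T + dd 3 T + dd 4 T + dd 5 T) / 2 := by
    have e : (Icc 1 5 : Finset ℕ) = {1, 2, 3, 4, 5} := by decide
    rw [e]
    simp only [Finset.sum_insert, Finset.mem_insert, Finset.mem_singleton,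
      Finset.sum_singleton, OfNat.one_ne_ofNat, Nat.reduceEqDiff, or_self,
      not_false_eq_true]
    ring
  rw [h3] at h1
  linarith

/-- One harmonic. -/
theorem Fu0_one {l : ℕ} (h1 : 1 ≤ l) (h5 : l ≤ 5) {k : ℕ} (hk : 1 ≤ k) {T v₁ : ℝ} (hT : 0 < T)
    (hv : k * T ≤ v₁) (θ : ℝ) {s e : ℝ} (hs0 : 0 < s) (hs : s ≤ |sin (l * (π + θ) / 2)|)
    (he0 : 0 ≤ e)
    (he : sin (((k : ℝ) + 1 / 2) * (l * (π + θ))) / (2 * sin (l * (π + θ) / 2)) ≤ e) :
    ∑ j ∈ Icc 1 k, dd l (j * T) * cos (j * (l * (π + θ))) ≤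
      (al l * (1 / s - 11 / 12) + (dd l v₁ + al l * (log v₁ + log (1 / (k * T)))) * e) -
        dd l T / 2 := by
  have hk0 : (0 : ℝ) < k := by exact_mod_cast hk
  have hkT : 0 < (k : ℝ) * T := mul_pos hk0 hT
  have hup := mul_le_mul_of_nonneg_right (dd_upper h1 h5 hkT hv) he0
  by_cases hl : l = 1
  · subst hl
    have h := Fg_gen' (l := 1) le_rfl (by norm_num) (α := 41 / 100) (by norm_num)
      (fun u v hu huv => dd_one_diff_le hu huv) hk hT hs0 hs he
    have ha : al 1 = 41 / 100 := by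
      unfold al
      rw [if_pos rfl]
    rw [ha] at hup ⊢
    linarith
  · have h := harm_le'' (by omega : 2 ≤ l) h5 hk hT hs0 hs he
    have ha : al l = (6 - (l : ℝ)) / 18 := by
      unfold al
      rw [if_neg hl]
    rw [ha] at hup ⊢
    linarith

/-- `harm_le'`, `harm_one_le'` for every `l`, `dd_upper` for the end terms and `dd_sum_ge` for the
terms `- dd l T / 2`. -/
theorem HS_le {k : ℕ} (hk : 1 ≤ k) {T v₁ : ℝ} (hT : 0 < T) (hv : k * T ≤ v₁) (θ : ℝ) (s : ℕ → ℝ)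
    (hs : ∀ l, 1 ≤ l → l ≤ 5 → 0 < s l ∧ s l ≤ |sin (l * (π + θ) / 2)|) :
    HS k T θ ≤ ∑ l ∈ Icc 1 5, (al l * (1 / s l - 11 / 12) +
        (dd l v₁ + al l * (log v₁ + log (1 / (k * T)))) * (1 / (2 * s l))) +
      5 / 12 * log T - log 6 / 12 + T / 4 := by
  refine Fu0_gen hT θ _ fun l h1 h5 => ?_
  have hk0 : (0 : ℝ) < k := by exact_mod_cast hk
  obtain ⟨hs0, hs1⟩ := hs l h1 h5
  have h := Fu0_one h1 h5 hk hT hv θ hs0 hs1 (e := 1 / (2 * s l)) (by positivity)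
    (Fg_end k hs0 hs1)
  exact h

/-- The same with a bound `e` for the end term of `l = 3`: `harm_le''`. -/
theorem HS_le_three {k : ℕ} (hk : 1 ≤ k) {T v₁ : ℝ} (hT : 0 < T) (hv : k * T ≤ v₁) (θ : ℝ)
    (s : ℕ → ℝ) (hs : ∀ l, 1 ≤ l → l ≤ 5 → 0 < s l ∧ s l ≤ |sin (l * (π + θ) / 2)|) {e : ℝ}
    (he0 : 0 ≤ e)
    (he : sin (((k : ℝ) + 1 / 2) * (3 * (π + θ))) / (2 * sin (3 * (π + θ) / 2)) ≤ e) :
    HS k T θ ≤ ∑ l ∈ Icc 1 5, (al l * (1 / s l - 11 / 12) +
        (dd l v₁ + al l * (log v₁ + log (1 / (k * T)))) *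
          (if l = 3 then e else 1 / (2 * s l))) +
      5 / 12 * log T - log 6 / 12 + T / 4 := by
  refine Fu0_gen hT θ _ fun l h1 h5 => ?_
  obtain ⟨hs0, hs1⟩ := hs l h1 h5
  by_cases hl : l = 3
  · rw [if_pos hl]
    refine Fu0_one h1 h5 hk hT hv θ hs0 hs1 he0 ?_
    subst hl
    exact_mod_cast he
  · rw [if_neg hl]
    exact Fu0_one h1 h5 hk hT hv θ hs0 hs1 (by positivity) (Fg_end k hs0 hs1)

/-- The same with the cap (`harm_cap`) for one `l = c`, `2 ≤ c`; the missing term `- dd c T / 2` is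
compensated by `dd_upper` at `x = T`. -/
theorem HS_le_cap {k : ℕ} (hk : 1 ≤ k) {T v₁ : ℝ} (hT : 0 < T) (hv : k * T ≤ v₁) (θ : ℝ)
    (s : ℕ → ℝ) {c : ℕ} (hc2 : 2 ≤ c) (hc5 : c ≤ 5)
    (hs : ∀ l, 1 ≤ l → l ≤ 5 → l ≠ c → 0 < s l ∧ s l ≤ |sin (l * (π + θ) / 2)|) :
    HS k T θ ≤ ∑ l ∈ (Icc 1 5).erase c, (al l * (1 / s l - 11 / 12) +
        (dd l v₁ + al l * (log v₁ + log (1 / (k * T)))) * (1 / (2 * s l))) +
      (k * (dd c v₁ + al c * log v₁) + al c * (k * log (1 / T) - log (k.factorial : ℝ))) +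
      1 / 2 * (dd c v₁ + al c * (log v₁ + log (1 / T))) +
      5 / 12 * log T - log 6 / 12 + T / 4 := by
  have hk0 : (0 : ℝ) < k := by exact_mod_cast hk
  have hk1 : (1 : ℝ) ≤ k := by exact_mod_cast hk
  have hTv : T ≤ v₁ := le_trans (by nlinarith) hv
  have hv1 : 0 < v₁ := hT.trans_le hTv
  have hcne : c ≠ 1 := by omega
  have hal : al c = (6 - (c : ℝ)) / 18 := by
    unfold al
    rw [if_neg hcne]
  have hmem : c ∈ Icc 1 5 := by
    rw [mem_Icc]
    omega
  have h := Fu0_gen (k := k) hT θ (fun l => if l = c then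
      (k * (dd c v₁ + al c * log v₁) + al c * (k * log (1 / T) - log (k.factorial : ℝ))) +
      1 / 2 * (dd c v₁ + al c * (log v₁ + log (1 / T)))
    else (al l * (1 / s l - 11 / 12) +
        (dd l v₁ + al l * (log v₁ + log (1 / (k * T)))) * (1 / (2 * s l)))) (by
    intro l h1 h5
    by_cases hl : l = c
    · subst hl
      rw [if_pos rfl]
      have h2 := harm_cap hc2 hc5 (k := k) hT hv hv1 (l * (π + θ))
      have h3 := dd_upper h1 h5 hT hTv
      rw [← hal] at h2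
      linarith
    · rw [if_neg hl]
      obtain ⟨hs0, hs1⟩ := hs l h1 h5 hl
      exact Fu0_one h1 h5 hk hT hv θ hs0 hs1 (by positivity) (Fg_end k hs0 hs1))
  refine h.trans (le_of_eq ?_)
  rw [← Finset.add_sum_erase (Icc 1 5) _ hmem, if_pos rfl]
  rw [Finset.sum_congr (g := fun l => al l * (1 / s l - 11 / 12) +
        (dd l v₁ + al l * (log v₁ + log (1 / (k * T)))) * (1 / (2 * s l))) rfl
      fun l hl => if_neg (Finset.ne_of_mem_erase hl)]
  ring

/-- `⌈k/2⌉ ≥ k/2` and `log ≤ 0`. -/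
theorem K_term_le {k : ℕ} {T θ c : ℝ} (hT : 0 < T) (hθ : -1 ≤ cos θ) (hc : (cosh T + cos θ) / 2 ≤ c)
    (hc1 : c ≤ 1) (hc0 : 0 < c) :
    (((k + 1) / 2 : ℕ) : ℝ) / 2 * log ((cosh T + cos θ) / 2) ≤ k / 4 * log c := by
  have h1 : 1 < cosh T := one_lt_cosh.2 hT.ne'
  have hpos : 0 < (cosh T + cos θ) / 2 := by linarith
  have hlog : log ((cosh T + cos θ) / 2) ≤ log c := log_le_log hpos hc
  have hlogc : log c ≤ 0 := log_nonpos hc0.le hc1
  have hK : (k : ℝ) / 2 ≤ (((k + 1) / 2 : ℕ) : ℝ) := by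
    have h2 : k ≤ 2 * ((k + 1) / 2) := by omega
    have h3 : (k : ℝ) ≤ 2 * (((k + 1) / 2 : ℕ) : ℝ) := by exact_mod_cast h2
    linarith
  have hK0 : (0 : ℝ) ≤ (((k + 1) / 2 : ℕ) : ℝ) := Nat.cast_nonneg _
  calc (((k + 1) / 2 : ℕ) : ℝ) / 2 * log ((cosh T + cos θ) / 2)
      ≤ (((k + 1) / 2 : ℕ) : ℝ) / 2 * log c := mul_le_mul_of_nonneg_left hlog (by linarith)
    _ ≤ k / 4 * log c := by
      refine mul_le_mul_of_nonpos_right ?_ hlogc
      linarith

/-- `log k! ≥ k log k - k + (1/2) log k + 0.846` (`k ≥ 1`): `log` is concave, so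
`log i ≥ ∫_(i-1/2)^(i+1/2) log`, hence `log k! ≥ F (k+1/2) - F (1/2)`, `F x = x log x - x`, and
`(k + 1/2) log (1 + 1/(2k)) ≥ 1/2`. -/
theorem log_fact_ge0 {k : ℕ} (hk : 1 ≤ k) :
    k * log k - k + 1 / 2 * log k + 0.846 ≤ log (k.factorial : ℝ) := by
  have h := Stirling.le_log_factorial_stirling (n := k) (by omega)
  have h2 : 1.692 ≤ log (2 * π) := by
    rw [le_log_iff_exp_le (by positivity)]
    have h3 : exp 1.692 ≤ 6 := by
      have h4 : exp (1.692 : ℝ) = exp 1 * exp (0.692 : ℝ) := by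
        rw [← exp_add]
        norm_num
      have h5 : exp (0.692 : ℝ) ≤ 2 := by
        have h6 : (0.692 : ℝ) ≤ log 2 := by
          have := log_two_gt_d9
          norm_num at this ⊢
          linarith
        calc exp (0.692 : ℝ) ≤ exp (log 2) := exp_le_exp.2 h6
          _ = 2 := exp_log (by norm_num)
      have h7 := exp_one_lt_d9
      have h8 := exp_pos (1 : ℝ)
      have h9 := exp_pos (0.692 : ℝ)
      rw [h4]
      norm_num at h7
      nlinarith
    have := pi_gt_three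
    linarith
  norm_num at h2 ⊢
  linarith

theorem Fu0_end {k : ℕ} (hk : 26 ≤ k) {y : ℝ} (hy : 3 / (2 * (k : ℝ)) ≤ y) (hy1 : y ≤ 1) :
    sin ((2 * (k : ℝ) + 1) * y) / (2 * sin y) ≤ 33 / 200 * k := by
  have hk0 : (26 : ℝ) ≤ k := by exact_mod_cast hk
  have hkp : (0 : ℝ) < k := by linarith
  have hpi1 := pi_gt_d2
  have hpi2 := pi_lt_d2
  norm_num at hpi1 hpi2
  have hy0 : 0 < y := lt_of_lt_of_le (by positivity) hy
  have hsin : 0 < sin y := sin_pos_of_pos_of_lt_pi hy0 (by linarith)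
  have hRHS : 0 ≤ 33 / 200 * (k : ℝ) := by positivity
  have hky : 3 ≤ 2 * (k : ℝ) * y := by
    rw [div_le_iff₀ (by positivity)] at hy
    linarith
  rcases le_or_gt ((2 * (k : ℝ) + 1) * y) π with h1 | h1
  · -- first range
    have hz : sin ((2 * (k : ℝ) + 1) * y) ≤ π - (2 * (k : ℝ) + 1) * y := by
      rw [← sin_pi_sub]
      exact sin_le (by linarith)
    have hj := mul_le_sin hy0.le (by linarith : y ≤ π / 2)
    rw [div_le_iff₀ (by positivity)]
    have h2 : 3 / (π * k) ≤ sin y := by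
      refine le_trans ?_ hj
      rw [div_le_iff₀ (by positivity)]
      have e : 2 / π * y * (π * k) = 2 * k * y := by
        field_simp
      rw [e]
      exact hky
    have h3 : 3 ≤ sin y * (π * k) := by
      rw [div_le_iff₀ (by positivity)] at h2
      exact h2
    have h4 : 3 ≤ 3.15 * (k * sin y) := by
      have : sin y * (π * k) ≤ sin y * (3.15 * k) := by
        refine mul_le_mul_of_nonneg_left ?_ hsin.le
        nlinarith
      nlinarith
    have h5 : sin ((2 * (k : ℝ) + 1) * y) ≤ 0.15 := by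
      norm_num
      nlinarith
    norm_num at h4 h5
    nlinarith
  · rcases le_or_gt ((2 * (k : ℝ) + 1) * y) (2 * π) with h2 | h2
    · -- second range
      have hneg : sin ((2 * (k : ℝ) + 1) * y) ≤ 0 := by
        have : sin ((2 * (k : ℝ) + 1) * y) = -sin ((2 * (k : ℝ) + 1) * y - π) := by
          rw [sin_sub_pi, neg_neg]
        rw [this]
        have := sin_nonneg_of_nonneg_of_le_pi (x := (2 * (k : ℝ) + 1) * y - π) (by linarith)
          (by linarith)
        linarith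
      exact (div_nonpos_of_nonpos_of_nonneg hneg (by positivity)).trans hRHS
    · -- third range
      set x : ℝ := 2 * π / (2 * (k : ℝ) + 1) with hx
      have hx0 : 0 < x := by positivity
      have hxk : x * (2 * (k : ℝ) + 1) = 2 * π := by
        rw [hx]
        field_simp
      have hxy : x ≤ y := by
        rw [hx, div_le_iff₀ (by positivity)]
        linarith
      have hx1 : x ≤ 0.12 := by
        norm_num
        nlinarith
      have hsx : x - x ^ 3 / 4 < sin x := by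
        have h9 := sin_gt_sub_cube hx0
        have h10 : 0 < x ^ 3 := by positivity
        linarith
      have hsxy : sin x ≤ sin y :=
        sin_le_sin_of_le_of_le_pi_div_two (by linarith) (by linarith) hxy
      rw [div_le_iff₀ (by positivity)]
      refine (sin_le_one _).trans ?_
      have hkx : 3.08 ≤ k * x := by
        norm_num
        nlinarith
      have hx2 : x ^ 2 ≤ 0.0144 := by
        norm_num at hx1 ⊢
        nlinarith
      have h6 : x * 0.9964 ≤ sin y := by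
        have : x * 0.9964 ≤ x - x ^ 3 / 4 := by
          norm_num at hx2 ⊢
          nlinarith
        linarith
      norm_num at hkx h6 ⊢
      nlinarith

/-- `(k+1/2) 3ψ`: with `θ = π/3 ± η`, `y = 3η/2`, the quotient is `sin ((2k+1) y)/(2 sin y)`. For
`η ≥ 1/k` and `0 < y ≤ π/2`: if `(2k+1) y ≤ π` it is at most `sin 3/(2 sin (3/(2k))) ≤ 0.048 k`, if
`π ≤ (2k+1) y ≤ 2π` it is `≤ 0`, and if `(2k+1) y ≥ 2π` it is at most
`1/(2 sin (2π/(2k+1))) ≤ 0.165 k` (`k ≥ 26`). -/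
theorem end_three {k : ℕ} (hk : 26 ≤ k) {θ : ℝ} (h0 : 19 / 20 ≤ θ) (h1 : θ ≤ 3 / 2)
    (h : 1 / (k : ℝ) ≤ |θ - π / 3|) :
    sin (((k : ℝ) + 1 / 2) * (3 * (π + θ))) / (2 * sin (3 * (π + θ) / 2)) ≤ 33 / 200 * k := by
  have hk0 : (26 : ℝ) ≤ k := by exact_mod_cast hk
  have hpi1 := pi_gt_d2
  have hpi2 := pi_lt_d2
  norm_num at hpi1 hpi2
  have e1 : sin (((k : ℝ) + 1 / 2) * (3 * (π + θ))) =
      sin ((2 * (k : ℝ) + 1) * ((3 * θ - π) / 2)) := by
    have e : ((k : ℝ) + 1 / 2) * (3 * (π + θ)) =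
        (2 * (k : ℝ) + 1) * ((3 * θ - π) / 2) + ((2 * k + 1 : ℕ) : ℝ) * (2 * π) := by
      push_cast
      ring
    rw [e, sin_add_nat_mul_two_pi]
  have e2 : sin (3 * (π + θ) / 2) = sin ((3 * θ - π) / 2) := by
    have e : 3 * (π + θ) / 2 = (3 * θ - π) / 2 + 2 * π := by ring
    rw [e, sin_add_two_pi]
  rw [e1, e2]
  have habs : |(3 * θ - π) / 2| = 3 / 2 * |θ - π / 3| := by
    have e : (3 * θ - π) / 2 = 3 / 2 * (θ - π / 3) := by ring
    rw [e, abs_mul]
    norm_num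
  have hlow : 3 / (2 * (k : ℝ)) ≤ |(3 * θ - π) / 2| := by
    rw [habs]
    have e : 3 / (2 * (k : ℝ)) = 3 / 2 * (1 / (k : ℝ)) := by
      field_simp
    rw [e]
    linarith
  have hup : |(3 * θ - π) / 2| ≤ 1 := by
    rw [abs_le]
    constructor <;> linarith
  rcases le_or_gt 0 ((3 * θ - π) / 2) with hs | hs
  · rw [abs_of_nonneg hs] at hlow hup
    exact Fu0_end hk hlow hup
  · rw [abs_of_neg hs] at hlow hup
    have h3 := Fu0_end hk hlow hup
    rw [mul_neg, sin_neg, sin_neg, mul_neg, neg_div_neg_eq] at h3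
    exact h3

end Pool.Agent.SignedQ.Far
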