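import Pool.Agent.Lib.MP_cf17a0_co.Far.Fu0

/-! # FAR arcs: the harmonics on one interval of `θ` (task FUL) -/

namespace Pool.Agent.SignedQ.Far

open Real Finset

/-! Interval L. Lower bounds `s l` of `|sin (l (π+θ)/2)|` (for even `l` this is `|sin (l θ/2)|`, for odd `l`
`|cos (l θ/2)|`) on the interval: l = 1: s = 0.942; l = 2: 1/s = 0.16780 k; l = 3: s = 0.928; l = 4: 1/s = 0.08570 k; l = 5: s = 0.865. They come from `sin u ≥ u - u³/6` with `u` = the distance of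
`l (π+θ)/2` to the nearest multiple of `π` at the worse end of the interval (`|sin|` is concave between its
zeros). The last term: the logarithm is `≤ 0` (`cosh T ≤ 1.0001` since `T ≤ 1/78`).
Then `log (1/T) = log (1/(kT)) + log k`, `log T = -log (1/T)`, `log (1/(kT)) ≥ log 3 > 0`, the numbers of Fn, `log_fact_ge0`,
numerical bounds of `log 10`, `log 3`, `log 6` and of `log c`; every coefficient below is rounded up by `≥ 0`
(up to `10⁻⁴`; if a coefficient fails by rounding tell me: there is slack). -/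

/-- The lower bounds of the sines. -/
private noncomputable def FuL_s (k : ℕ) (l : ℕ) : ℝ :=
  if l = 1 then 0.942 else if l = 2 then 1 / (0.1678 * k) else if l = 3 then 0.928
  else if l = 4 then 1 / (0.0857 * k) else 0.865

private theorem FuL_ge {k : ℕ} {θ : ℝ} (hk : (30 : ℝ) ≤ k) (h0 : 6 / (k : ℝ) ≤ θ)
    (h1 : θ ≤ 1 / 5) (l : ℕ) (hl1 : 1 ≤ l) (hl5 : l ≤ 5) :
    0 < FuL_s k l ∧ FuL_s k l ≤ |sin (l * (π + θ) / 2)| := by
  have hk0 : (0 : ℝ) < k := by linarith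
  have hθ0 : 0 < θ := lt_of_lt_of_le (by positivity) h0
  have hθk : 6 ≤ θ * k := (div_le_iff₀ hk0).1 h0
  have hθ2 : θ ^ 2 ≤ 1 / 25 := by nlinarith
  have hl : l = 1 ∨ l = 2 ∨ l = 3 ∨ l = 4 ∨ l = 5 := by omega
  rcases hl with rfl | rfl | rfl | rfl | rfl
  · have e1 : FuL_s k 1 = 0.942 := by simp [FuL_s]
    have e2 : ((1 : ℕ) : ℝ) * (π + θ) / 2 = θ / 2 + π / 2 := by push_cast; ring
    rw [e1, e2, sin_add_pi_div_two]
    refine ⟨by norm_num, le_trans ?_ (le_abs_self _)⟩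
    have h := one_sub_sq_div_two_le_cos (x := θ / 2)
    nlinarith
  · have e1 : FuL_s k 2 = 1 / (0.1678 * k) := by simp [FuL_s]
    have e2 : ((2 : ℕ) : ℝ) * (π + θ) / 2 = θ + π := by push_cast; ring
    rw [e1, e2, sin_add_pi, abs_neg]
    refine ⟨by positivity, le_trans ?_ (le_abs_self _)⟩
    have h := sin_ge_sub_cube hθ0.le
    refine le_trans ?_ h
    rw [div_le_iff₀ (by positivity)]
    have h2 : θ - θ ^ 3 / 6 = θ * (1 - θ ^ 2 / 6) := by ring
    have h3 : 0.99333 * θ ≤ θ - θ ^ 3 / 6 := by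
      rw [h2]
      nlinarith
    nlinarith
  · have e1 : FuL_s k 3 = 0.928 := by simp [FuL_s]
    have e2 : ((3 : ℕ) : ℝ) * (π + θ) / 2 = 3 * θ / 2 + π / 2 + π := by push_cast; ring
    rw [e1, e2, sin_add_pi, abs_neg, sin_add_pi_div_two]
    refine ⟨by norm_num, le_trans ?_ (le_abs_self _)⟩
    have h := one_sub_sq_div_two_le_cos (x := 3 * θ / 2)
    nlinarith
  · have e1 : FuL_s k 4 = 1 / (0.0857 * k) := by simp [FuL_s]
    have e2 : ((4 : ℕ) : ℝ) * (π + θ) / 2 = 2 * θ + 2 * π := by push_cast; ring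
    rw [e1, e2, sin_add_two_pi]
    refine ⟨by positivity, le_trans ?_ (le_abs_self _)⟩
    have h := sin_ge_sub_cube (x := 2 * θ) (by linarith)
    refine le_trans ?_ h
    rw [div_le_iff₀ (by positivity)]
    have h2 : 2 * θ - (2 * θ) ^ 3 / 6 = 2 * θ * (1 - 4 * θ ^ 2 / 6) := by ring
    have h3 : 0.97333 * (2 * θ) ≤ 2 * θ - (2 * θ) ^ 3 / 6 := by
      rw [h2]
      nlinarith
    nlinarith
  · have e1 : FuL_s k 5 = 0.865 := by simp [FuL_s]
    have e2 : ((5 : ℕ) : ℝ) * (π + θ) / 2 = 5 * θ / 2 + π / 2 + 2 * π := by push_cast; ring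
    rw [e1, e2, sin_add_two_pi, sin_add_pi_div_two]
    refine ⟨by norm_num, le_trans ?_ (le_abs_self _)⟩
    have h := one_sub_sq_div_two_le_cos (x := 5 * θ / 2)
    nlinarith

private theorem FuL_K {k : ℕ} {T θ : ℝ} (hT : 0 < T) (hθ : 0 < θ) (hTθ : 18 * T ≤ θ)
    (h1 : θ ≤ 1 / 5) :
    (((k + 1) / 2 : ℕ) : ℝ) / 2 * log ((cosh T + cos θ) / 2) ≤ 0 := by
  have hT1 : T ≤ 1 := by linarith
  have h2 : cosh T ≤ 1 + T ^ 2 := by
    refine (cosh_le_exp_half_sq T).trans ?_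
    have h3 : |T ^ 2 / 2| ≤ 1 := by
      rw [abs_of_nonneg (by positivity)]
      nlinarith
    have h4 := (abs_le.1 (abs_exp_sub_one_sub_id_le h3)).2
    have hu : T ^ 2 ≤ 1 := by nlinarith
    nlinarith [mul_nonneg (sq_nonneg T) (sub_nonneg.2 hu)]
  have h3 : cos θ ≤ 1 - 0.4 * θ ^ 2 := by
    have h4 : cos θ = 1 - 2 * sin (θ / 2) ^ 2 := by
      have h5 := cos_two_mul (θ / 2)
      have h6 := sin_sq_add_cos_sq (θ / 2)
      have h7 : 2 * (θ / 2) = θ := by ring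
      rw [h7] at h5
      linarith
    have h5 := sin_ge_sub_cube (x := θ / 2) (by linarith)
    have hθ2 : θ ^ 2 ≤ 1 / 25 := by nlinarith
    have h6 : 0.49 * θ ≤ sin (θ / 2) := by nlinarith [mul_nonneg hθ.le (sub_nonneg.2 hθ2)]
    nlinarith
  have h4 := K_term_le (k := k) (c := 1) hT (neg_one_le_cos θ) (by nlinarith) le_rfl one_pos
  rwa [log_one, mul_zero] at h4

private theorem FuL_sum (g : ℕ → ℝ) : ∑ l ∈ Icc 1 5, g l = g 1 + g 2 + g 3 + g 4 + g 5 := by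
  simp [Finset.sum_Icc_succ_top]

private theorem FuL_main {k : ℕ} (hk : 26 ≤ k) {T θ v₁ G D1 D2 D3 D4 D5 : ℝ} (hT : 0 < T)
    (hv : k * T ≤ v₁) (hv3 : v₁ ≤ 1 / 3) (h0 : 6 / (k : ℝ) ≤ θ) (h1 : θ ≤ 1 / 5)
    (hG : log v₁ ≤ -G) (hD1 : dd 1 v₁ ≤ D1) (hD2 : dd 2 v₁ ≤ D2) (hD3 : dd 3 v₁ ≤ D3)
    (hD4 : dd 4 v₁ ≤ D4) (hD5 : dd 5 v₁ ≤ D5) :
    HS k T θ + (((k + 1) / 2 : ℕ) : ℝ) / 2 * log ((cosh T + cos θ) / 2) ≤
      (41 / 100 * (1 / 0.942 - 11 / 12) +
        (D1 + 41 / 100 * (-G + log (1 / (k * T)))) * (1 / (2 * 0.942))) +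
      (2 / 9 * (0.1678 * k - 11 / 12) +
        ((D2 - 2 / 9 * G) * (0.0839 * k) + 2 / 9 * 0.0839 * (k * log (1 / (k * T))))) +
      (1 / 6 * (1 / 0.928 - 11 / 12) +
        (D3 + 1 / 6 * (-G + log (1 / (k * T)))) * (1 / (2 * 0.928))) +
      (1 / 9 * (0.0857 * k - 11 / 12) +
        ((D4 - 1 / 9 * G) * (0.04285 * k) + 1 / 9 * 0.04285 * (k * log (1 / (k * T))))) +
      (1 / 18 * (1 / 0.865 - 11 / 12) +
        (D5 + 1 / 18 * (-G + log (1 / (k * T)))) * (1 / (2 * 0.865))) +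
      5 / 12 * (-(log (1 / (k * T)) + log k)) - log 6 / 12 + T / 4 := by
  have hk1 : (26 : ℝ) ≤ k := by exact_mod_cast hk
  have hk0 : (0 : ℝ) < k := by linarith
  have hk30 : (30 : ℝ) ≤ k := by
    have h := (div_le_iff₀ hk0).1 (h0.trans h1)
    linarith
  have hθ0 : 0 < θ := lt_of_lt_of_le (by positivity) h0
  have hTθ : 18 * T ≤ θ := by
    have h2 := (div_le_iff₀ hk0).1 h0
    have h3 : k * T ≤ 1 / 3 := hv.trans hv3
    by_contra hcon
    push Not at hcon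
    nlinarith
  have hK := FuL_K (k := k) hT hθ0 hTθ h1
  have hH := HS_le (by omega : 1 ≤ k) hT hv θ (FuL_s k) (FuL_ge hk30 h0 h1)
  rw [FuL_sum] at hH
  have a1 : al 1 = 41 / 100 := by simp [al]
  have a2 : al 2 = 2 / 9 := by norm_num [al]
  have a3 : al 3 = 1 / 6 := by norm_num [al]
  have a4 : al 4 = 1 / 9 := by norm_num [al]
  have a5 : al 5 = 1 / 18 := by norm_num [al]
  have s1 : FuL_s k 1 = 0.942 := by simp [FuL_s]
  have s2 : FuL_s k 2 = 1 / (0.1678 * k) := by simp [FuL_s]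
  have s3 : FuL_s k 3 = 0.928 := by simp [FuL_s]
  have s4 : FuL_s k 4 = 1 / (0.0857 * k) := by simp [FuL_s]
  have s5 : FuL_s k 5 = 0.865 := by simp [FuL_s]
  have r2 : 1 / (1 / (0.1678 * (k : ℝ))) = 0.1678 * k := by rw [one_div_one_div]
  have r4 : 1 / (1 / (0.0857 * (k : ℝ))) = 0.0857 * k := by rw [one_div_one_div]
  have q2 : 1 / (2 * (1 / (0.1678 * (k : ℝ)))) = 0.0839 * k := by
    field_simp
    norm_num
  have q4 : 1 / (2 * (1 / (0.0857 * (k : ℝ)))) = 0.04285 * k := by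
    field_simp
    norm_num
  rw [a1, a2, a3, a4, a5, s1, s2, s3, s4, s5, r2, r4, q2, q4] at hH
  have hlT : log T = -(log (1 / (k * T)) + log k) := by
    rw [one_div, log_inv, log_mul hk0.ne' hT.ne']
    ring
  rw [hlT] at hH
  obtain ⟨y, hy⟩ : ∃ y, y = log (1 / (k * T)) := ⟨_, rfl⟩
  rw [← hy] at hH ⊢
  have m1 : (dd 1 v₁ + 41 / 100 * (log v₁ + y)) * (1 / (2 * 0.942)) ≤
      (D1 + 41 / 100 * (-G + y)) * (1 / (2 * 0.942)) :=
    mul_le_mul_of_nonneg_right (by linarith) (by norm_num)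
  have m3 : (dd 3 v₁ + 1 / 6 * (log v₁ + y)) * (1 / (2 * 0.928)) ≤
      (D3 + 1 / 6 * (-G + y)) * (1 / (2 * 0.928)) :=
    mul_le_mul_of_nonneg_right (by linarith) (by norm_num)
  have m5 : (dd 5 v₁ + 1 / 18 * (log v₁ + y)) * (1 / (2 * 0.865)) ≤
      (D5 + 1 / 18 * (-G + y)) * (1 / (2 * 0.865)) :=
    mul_le_mul_of_nonneg_right (by linarith) (by norm_num)
  have m2 : (dd 2 v₁ + 2 / 9 * (log v₁ + y)) * (0.0839 * k) ≤
      (D2 + 2 / 9 * (-G + y)) * (0.0839 * k) :=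
    mul_le_mul_of_nonneg_right (by linarith) (by positivity)
  have m4 : (dd 4 v₁ + 1 / 9 * (log v₁ + y)) * (0.04285 * k) ≤
      (D4 + 1 / 9 * (-G + y)) * (0.04285 * k) :=
    mul_le_mul_of_nonneg_right (by linarith) (by positivity)
  have n2 : (D2 + 2 / 9 * (-G + y)) * (0.0839 * k) =
      (D2 - 2 / 9 * G) * (0.0839 * k) + 2 / 9 * 0.0839 * (k * y) := by ring
  have n4 : (D4 + 1 / 9 * (-G + y)) * (0.04285 * k) =
      (D4 - 1 / 9 * G) * (0.04285 * k) + 1 / 9 * 0.04285 * (k * y) := by ring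
  rw [n2] at m2
  rw [n4] at m4
  linarith

private theorem FuL_log32 : (0.4054 : ℝ) ≤ log (3 / 2) :=
  (Fn_bd (x := 3 / 2) (y := 0.4054) (z := 0.406) (by norm_num) (by norm_num) (by norm_num)
    (by norm_num) (by norm_num [Finset.sum_range_succ, Nat.factorial])
    (by norm_num [Finset.sum_range_succ, Nat.factorial])).1

private theorem FuL_log54 : (0.2231 : ℝ) ≤ log (5 / 4) :=
  (Fn_bd (x := 5 / 4) (y := 0.2231) (z := 0.2232) (by norm_num) (by norm_num) (by norm_num)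
    (by norm_num) (by norm_num [Finset.sum_range_succ, Nat.factorial])
    (by norm_num [Finset.sum_range_succ, Nat.factorial])).1

private theorem FuL_log3 : (1.0985 : ℝ) ≤ log 3 := by
  have h1 : (3 : ℝ) = 2 * (3 / 2) := by norm_num
  rw [h1, log_mul (by norm_num) (by norm_num)]
  have h2 := log_two_gt_d9
  have h3 := FuL_log32
  linarith

private theorem FuL_log6 : (1.7916 : ℝ) ≤ log 6 := by
  have h1 : (6 : ℝ) = 2 * 3 := by norm_num
  rw [h1, log_mul (by norm_num) (by norm_num)]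
  have h2 := log_two_gt_d9
  have h3 := FuL_log3
  linarith

private theorem FuL_log10 : (2.3025 : ℝ) ≤ log 10 := by
  have h1 : (10 : ℝ) = 2 ^ 3 * (5 / 4) := by norm_num
  rw [h1, log_mul (by norm_num) (by norm_num), log_pow]
  have h2 := log_two_gt_d9
  have h3 := FuL_log54
  push_cast
  linarith

theorem U_L_ten {k : ℕ} (hk : 26 ≤ k) {T θ : ℝ} (hT : 0 < T) (hv : k * T ≤ 1 / 10)
    (h0 : 6 / (k : ℝ) ≤ θ) (h1 : θ ≤ 1 / 5) :
    HS k T θ + (((k + 1) / 2 : ℕ) : ℝ) / 2 * log ((cosh T + cos θ) / 2) ≤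
      0.046 * k + 0.0235 * (k * log (1 / (k * T))) + (-0.0771) * log (1 / (k * T)) +
        (-0.4166) * log k + (-0.3276) := by
  have hlv : log (1 / 10 : ℝ) ≤ -2.3025 := by
    rw [one_div, log_inv]
    have := FuL_log10
    linarith
  have h := FuL_main hk hT hv (by norm_num) h0 h1 hlv dd_one_tenth dd_two_tenth dd_three_tenth
    dd_four_tenth dd_five_tenth
  have hk1 : (26 : ℝ) ≤ k := by exact_mod_cast hk
  have hk0 : (0 : ℝ) < k := by linarith
  have hLk : 0 ≤ log (k : ℝ) := log_nonneg (by linarith)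
  have hT1 : T ≤ 1 / 260 := by
    by_contra hcon
    push Not at hcon
    nlinarith
  have hy : 0 ≤ log (1 / (k * T)) := by
    refine log_nonneg ?_
    rw [le_div_iff₀ (by positivity)]
    linarith
  have hky : 0 ≤ k * log (1 / (k * T)) := by positivity
  have h6 := FuL_log6
  refine h.trans ?_
  generalize log (1 / (k * T)) = y at *
  generalize (k : ℝ) * y = ky at *
  norm_num
  linarith

theorem U_L_three {k : ℕ} (hk : 26 ≤ k) {T θ : ℝ} (hT : 0 < T) (hv : k * T ≤ 1 / 3)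
    (h0 : 6 / (k : ℝ) ≤ θ) (h1 : θ ≤ 1 / 5) :
    HS k T θ + (((k + 1) / 2 : ℕ) : ℝ) / 2 * log ((cosh T + cos θ) / 2) ≤
      0.0468 * k + 0.0235 * (k * log (1 / (k * T))) + (-0.0771) * log (1 / (k * T)) +
        (-0.4166) * log k + (-0.2409) := by
  have hlv : log (1 / 3 : ℝ) ≤ -1.0985 := by
    rw [one_div, log_inv]
    have := FuL_log3
    linarith
  have h := FuL_main hk hT hv le_rfl h0 h1 hlv dd_one_third dd_two_third dd_three_third
    dd_four_third dd_five_third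
  have hk1 : (26 : ℝ) ≤ k := by exact_mod_cast hk
  have hk0 : (0 : ℝ) < k := by linarith
  have hLk : 0 ≤ log (k : ℝ) := log_nonneg (by linarith)
  have hT1 : T ≤ 1 / 78 := by
    by_contra hcon
    push Not at hcon
    nlinarith
  have hy : 0 ≤ log (1 / (k * T)) := by
    refine log_nonneg ?_
    rw [le_div_iff₀ (by positivity)]
    linarith
  have hky : 0 ≤ k * log (1 / (k * T)) := by positivity
  have h6 := FuL_log6
  refine h.trans ?_
  generalize log (1 / (k * T)) = y at *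
  generalize (k : ℝ) * y = ky at *
  norm_num
  linarith

end Pool.Agent.SignedQ.Far
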