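import Pool.Agent.Lib.MP_cf17a0_co.Far.Fu0

/-! # FAR arcs: the harmonics on one interval of `θ` (task FUM1) -/

namespace Pool.Agent.SignedQ.Far

open Real Finset

/-! Interval M1. Lower bounds `s l` of `|sin (l (π+θ)/2)|` (for even `l` this is `|sin (l θ/2)|`, for odd `l`
`|cos (l θ/2)|`) on the interval: l = 1: s = 0.929; l = 2: s = 0.198; l = 3: s = 0.631; l = 4: s = 0.389; l = 5: s = 0.094. They come from `sin u ≥ u - u³/6` with `u` = the distance of
`l (π+θ)/2` to the nearest multiple of `π` at the worse end of the interval (`|sin|` is concave between its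
zeros). The last term: `K_term_le` with `c = 0.99008` rounded up (`cosh T ≤ 1.0001` since `T ≤ 1/78`).
Then `log (1/T) = log (1/(kT)) + log k`, `log T = -log (1/T)`, `log (1/(kT)) ≥ log 3 > 0`, the numbers of Fn, `log_fact_ge0`,
numerical bounds of `log 10`, `log 3`, `log 6` and of `log c`; every coefficient below is rounded up by `≥ 0`
(up to `10⁻⁴`; if a coefficient fails by rounding tell me: there is slack). -/

private theorem M1_sin_lb {x : ℝ} (hx : 0 ≤ x) : x - x ^ 3 / 6 ≤ sin x := by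
  have hm : MonotoneOn (fun x : ℝ => sin x - (x - x ^ 3 / 6)) (Set.Ici 0) := by
    have hd : ∀ y : ℝ, HasDerivAt (fun x : ℝ => sin x - (x - x ^ 3 / 6))
        (cos y - (1 - y ^ 2 / 2)) y := by
      intro y
      have := (hasDerivAt_sin y).sub ((hasDerivAt_id y).sub ((hasDerivAt_pow 3 y).div_const 6))
      refine this.congr_deriv ?_
      simp
      ring
    refine monotoneOn_of_deriv_nonneg (convex_Ici 0) ?_ ?_ ?_
    · intro y _
      exact (hd y).continuousAt.continuousWithinAt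
    · intro y _
      exact (hd y).differentiableAt.differentiableWithinAt
    · intro y _
      rw [(hd y).deriv]
      have := one_sub_sq_div_two_le_cos (x := y)
      linarith
  have := hm Set.self_mem_Ici (show (0 : ℝ) ≤ x from hx) hx
  simp at this
  linarith

/-- `cos x ≥ r - r³/6` if `x ≤ b`, `r ≤ π/2 - b`. -/
private theorem M1_cos_lb {x r : ℝ} (h0 : 0 ≤ x) (hr : 0 ≤ r) (hxr : x + r ≤ 3.14159 / 2) :
    r - r ^ 3 / 6 ≤ cos x := by
  have hpi := pi_gt_d6
  rw [← sin_pi_div_two_sub]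
  refine (M1_sin_lb hr).trans ?_
  norm_num at hpi hxr
  exact sin_le_sin_of_le_of_le_pi_div_two (by linarith [pi_pos]) (by linarith) (by linarith)

private theorem M1_sin_lb' {x r : ℝ} (hr : 0 ≤ r) (hxr : r ≤ x) (hx : x ≤ 3.14159 / 2) :
    r - r ^ 3 / 6 ≤ sin x := by
  have hpi := pi_gt_d6
  refine (M1_sin_lb hr).trans ?_
  norm_num at hpi hx
  exact sin_le_sin_of_le_of_le_pi_div_two (by linarith [pi_pos]) (by linarith) (by linarith)

private theorem M1_a1 (θ : ℝ) : |sin ((1 : ℕ) * (π + θ) / 2)| = |cos (θ / 2)| := by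
  rw [show ((1 : ℕ) : ℝ) * (π + θ) / 2 = θ / 2 + π / 2 by push_cast; ring, sin_add_pi_div_two]

private theorem M1_a2 (θ : ℝ) : |sin ((2 : ℕ) * (π + θ) / 2)| = |sin θ| := by
  rw [show ((2 : ℕ) : ℝ) * (π + θ) / 2 = θ + π by push_cast; ring, sin_add_pi, abs_neg]

private theorem M1_a3 (θ : ℝ) : |sin ((3 : ℕ) * (π + θ) / 2)| = |cos (3 * θ / 2)| := by
  rw [show ((3 : ℕ) : ℝ) * (π + θ) / 2 = (3 * θ / 2 + π / 2) + π by push_cast; ring, sin_add_pi,
    sin_add_pi_div_two, abs_neg]

private theorem M1_a4 (θ : ℝ) : |sin ((4 : ℕ) * (π + θ) / 2)| = |sin (2 * θ)| := by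
  rw [show ((4 : ℕ) : ℝ) * (π + θ) / 2 = 2 * θ + 2 * π by push_cast; ring, sin_add_two_pi]

private theorem M1_a5 (θ : ℝ) : |sin ((5 : ℕ) * (π + θ) / 2)| = |cos (5 * θ / 2)| := by
  rw [show ((5 : ℕ) : ℝ) * (π + θ) / 2 = (5 * θ / 2 + π / 2) + 2 * π by push_cast; ring,
    sin_add_two_pi, sin_add_pi_div_two]

private noncomputable def M1_s (l : ℕ) : ℝ :=
  if l = 1 then 0.929 else if l = 2 then 0.198 else if l = 3 then 0.631 else
    if l = 4 then 0.389 else 0.094

private theorem M1_hs {θ : ℝ} (h0 : 1 / 5 ≤ θ) (h1 : θ ≤ 59 / 100) :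
    ∀ l : ℕ, 1 ≤ l → l ≤ 5 → 0 < M1_s l ∧ M1_s l ≤ |sin (l * (π + θ) / 2)| := by
  intro l hl1 hl5
  interval_cases l
  · rw [M1_a1]
    refine ⟨by norm_num [M1_s], le_trans ?_ (le_abs_self _)⟩
    have h := one_sub_sq_div_two_le_cos (x := θ / 2)
    have : (θ / 2) ^ 2 ≤ (59 / 200) ^ 2 := pow_le_pow_left₀ (by linarith) (by linarith) 2
    norm_num [M1_s] at this ⊢
    linarith
  · rw [M1_a2]
    refine ⟨by norm_num [M1_s], le_trans ?_ (le_abs_self _)⟩
    refine le_trans ?_ (M1_sin_lb' (r := 1 / 5) (by norm_num) h0 (by norm_num; linarith))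
    norm_num [M1_s]
  · rw [M1_a3]
    refine ⟨by norm_num [M1_s], le_trans ?_ (le_abs_self _)⟩
    refine le_trans ?_ (M1_cos_lb (r := 0.68579) (by linarith) (by norm_num) (by norm_num; linarith))
    norm_num [M1_s]
  · rw [M1_a4]
    refine ⟨by norm_num [M1_s], le_trans ?_ (le_abs_self _)⟩
    refine le_trans ?_ (M1_sin_lb' (r := 2 / 5) (by norm_num) (by linarith) (by norm_num; linarith))
    norm_num [M1_s]
  · rw [M1_a5]
    refine ⟨by norm_num [M1_s], le_trans ?_ (le_abs_self _)⟩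
    refine le_trans ?_ (M1_cos_lb (r := 0.09579) (by linarith) (by norm_num) (by norm_num; linarith))
    norm_num [M1_s]

private theorem M1_cosh {T : ℝ} (hT : 0 < T) (hT' : T ≤ 1 / 78) : cosh T ≤ 1.0001 := by
  have h := cosh_le_exp_half_sq T
  have h1 : T ^ 2 / 2 ≤ 0.00009 := by
    have : T ^ 2 ≤ (1 / 78) ^ 2 := pow_le_pow_left₀ hT.le hT' 2
    norm_num at this ⊢
    linarith
  have h2 : exp (T ^ 2 / 2) ≤ exp 0.00009 := exp_le_exp.2 h1
  have h3 : exp (0.00009 : ℝ) ≤ 1.0001 := by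
    have := exp_bound' (x := 0.00009) (by norm_num) (by norm_num) (n := 2) (by norm_num)
    refine this.trans ?_
    norm_num [Finset.sum_range_succ, Nat.factorial]
  linarith

private theorem M1_cos_ub {x : ℝ} (hx : 0 ≤ x) : cos x ≤ 1 - x ^ 2 / 2 + x ^ 4 / 24 := by
  have hm : MonotoneOn (fun x : ℝ => 1 - x ^ 2 / 2 + x ^ 4 / 24 - cos x) (Set.Ici 0) := by
    have hd : ∀ y : ℝ, HasDerivAt (fun x : ℝ => 1 - x ^ 2 / 2 + x ^ 4 / 24 - cos x)
        (sin y - (y - y ^ 3 / 6)) y := by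
      intro y
      have := (((hasDerivAt_const y (1 : ℝ)).sub ((hasDerivAt_pow 2 y).div_const 2)).add
        ((hasDerivAt_pow 4 y).div_const 24)).sub (hasDerivAt_cos y)
      refine this.congr_deriv ?_
      simp
      ring
    refine monotoneOn_of_deriv_nonneg (convex_Ici 0) ?_ ?_ ?_
    · intro y _
      exact (hd y).continuousAt.continuousWithinAt
    · intro y _
      exact (hd y).differentiableAt.differentiableWithinAt
    · intro y hy
      rw [interior_Ici] at hy
      rw [(hd y).deriv]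
      have := M1_sin_lb (x := y) (le_of_lt hy)
      linarith
  have := hm Set.self_mem_Ici (show (0 : ℝ) ≤ x from hx) hx
  simp at this
  linarith

private theorem M1_K {k : ℕ} {T θ : ℝ} (hT : 0 < T) (hT' : T ≤ 1 / 78)
    (h0 : 1 / 5 ≤ θ) (h1 : θ ≤ 59 / 100) :
    (((k + 1) / 2 : ℕ) : ℝ) / 2 * log ((cosh T + cos θ) / 2) ≤ -0.0024 * k := by
  have hc : cos θ ≤ 0.98007 := by
    have h2 : cos θ ≤ cos (1 / 5) := cos_le_cos_of_nonneg_of_le_pi (by norm_num)
      (by linarith [pi_gt_three]) h0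
    have h3 := M1_cos_ub (x := 1 / 5) (by norm_num)
    norm_num at h3 ⊢
    linarith
  have hch := M1_cosh hT hT'
  have h4 := K_term_le (k := k) (c := 0.9901) hT (neg_one_le_cos θ)
    (by norm_num at hc hch ⊢; linarith) (by norm_num) (by norm_num)
  have h5 : log (0.9901 : ℝ) ≤ -0.0096 := by
    have := log_le_sub_one_of_pos (x := (0.9901 : ℝ)) (by norm_num)
    norm_num at this ⊢
    linarith
  have h6 : (k : ℝ) / 4 * log (0.9901 : ℝ) ≤ k / 4 * (-0.0096) :=
    mul_le_mul_of_nonneg_left h5 (by positivity)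
  norm_num at h4 h6 ⊢
  linarith

private theorem M1_log_ten : (2.3025 : ℝ) ≤ log 10 := by
  rw [le_log_iff_exp_le (by norm_num)]
  have h1 := exp_one_lt_d9
  have h2 : exp (2.3025 : ℝ) = exp 1 ^ 2 * exp 0.3025 := by
    rw [← exp_nat_mul, ← exp_add]
    norm_num
  have h3 : exp (0.3025 : ℝ) ≤ 1.353240 := by
    have := exp_bound' (x := 0.3025) (by norm_num) (by norm_num) (n := 8) (by norm_num)
    refine this.trans ?_
    norm_num [Finset.sum_range_succ, Nat.factorial]
  rw [h2]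
  have h4 : exp 1 ^ 2 ≤ 7.38906 := by
    have : exp 1 ^ 2 ≤ 2.7182818286 ^ 2 := pow_le_pow_left₀ (exp_pos _).le h1.le 2
    norm_num at this ⊢
    linarith
  calc exp 1 ^ 2 * exp 0.3025 ≤ 7.38906 * 1.353240 :=
        mul_le_mul h4 h3 (exp_pos _).le (by norm_num)
    _ ≤ 10 := by norm_num

private theorem M1_log_three : (1.0986 : ℝ) ≤ log 3 := by
  rw [le_log_iff_exp_le (by norm_num)]
  have h1 := exp_one_lt_d9
  have h2 : exp (1.0986 : ℝ) = exp 1 * exp 0.0986 := by
    rw [← exp_add]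
    norm_num
  have h3 : exp (0.0986 : ℝ) ≤ 1.10363 := by
    have := exp_bound' (x := 0.0986) (by norm_num) (by norm_num) (n := 6) (by norm_num)
    refine this.trans ?_
    norm_num [Finset.sum_range_succ, Nat.factorial]
  rw [h2]
  calc exp 1 * exp 0.0986 ≤ 2.7182818286 * 1.10363 :=
        mul_le_mul h1.le h3 (exp_pos _).le (by norm_num)
    _ ≤ 3 := by norm_num

private theorem M1_log_six : (1.7917 : ℝ) ≤ log 6 := by
  have h1 := M1_log_three
  have h2 := log_two_gt_d9
  have h3 : log 6 = log 2 + log 3 := by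
    rw [← log_mul (by norm_num) (by norm_num)]
    norm_num
  rw [h3]
  norm_num at h1 h2 ⊢
  linarith

private theorem M1_sum (f : ℕ → ℝ) : ∑ l ∈ Icc 1 5, f l = f 1 + f 2 + f 3 + f 4 + f 5 := by
  rw [show Icc 1 5 = ({1, 2, 3, 4, 5} : Finset ℕ) from rfl]
  simp [Finset.sum_insert]
  ring

theorem U_M1_ten {k : ℕ} (hk : 26 ≤ k) {T θ : ℝ} (hT : 0 < T) (hv : k * T ≤ 1 / 10)
    (h0 : 1 / 5 ≤ θ) (h1 : θ ≤ 59 / 100) :
    HS k T θ + (((k + 1) / 2 : ℕ) : ℝ) / 2 * log ((cosh T + cos θ) / 2) ≤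
      (-0.0024) * k + 0 * (k * log (1 / (k * T))) + 0.9356 * log (1 / (k * T)) +
        (-0.4166) * log k + 1.4624 := by
  have hk' : (26 : ℝ) ≤ k := by exact_mod_cast hk
  have hT' : T ≤ 1 / 260 := by
    have : 26 * T ≤ k * T := mul_le_mul_of_nonneg_right hk' hT.le
    linarith
  have hkT : 0 < k * T := by positivity
  have hH := HS_le (by omega) hT hv θ M1_s (M1_hs h0 h1)
  have hK := M1_K (k := k) (θ := θ) hT (by linarith) h0 h1
  have hL : 0 ≤ log (1 / (k * T)) := log_nonneg (by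
    rw [le_div_iff₀ hkT]
    linarith)
  have hlk : 0 ≤ log (k : ℝ) := log_nonneg (by linarith)
  have hlT : log T = -log (1 / (k * T)) - log k := by
    rw [one_div, log_inv, log_mul (by positivity) hT.ne']
    ring
  have d1 := dd_one_tenth
  have d2 := dd_two_tenth
  have d3 := dd_three_tenth
  have d4 := dd_four_tenth
  have d5 := dd_five_tenth
  have l6 := M1_log_six
  have l10 : log (1 / 10 : ℝ) ≤ -2.3025 := by
    rw [one_div, log_inv]
    linarith [M1_log_ten]
  rw [M1_sum, hlT] at hH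
  generalize log (1 / (k * T)) = L at *
  generalize log (k : ℝ) = lk at *
  generalize log (1 / 10 : ℝ) = lt at *
  generalize log (6 : ℝ) = ls at *
  generalize dd 1 (1 / 10) = e1 at *
  generalize dd 2 (1 / 10) = e2 at *
  generalize dd 3 (1 / 10) = e3 at *
  generalize dd 4 (1 / 10) = e4 at *
  generalize dd 5 (1 / 10) = e5 at *
  norm_num [M1_s, al] at *
  linarith

theorem U_M1_three {k : ℕ} (hk : 26 ≤ k) {T θ : ℝ} (hT : 0 < T) (hv : k * T ≤ 1 / 3)
    (h0 : 1 / 5 ≤ θ) (h1 : θ ≤ 59 / 100) :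
    HS k T θ + (((k + 1) / 2 : ℕ) : ℝ) / 2 * log ((cosh T + cos θ) / 2) ≤
      (-0.0024) * k + 0 * (k * log (1 / (k * T))) + 0.9356 * log (1 / (k * T)) +
        (-0.4166) * log k + 1.6117 := by
  have hk' : (26 : ℝ) ≤ k := by exact_mod_cast hk
  have hT' : T ≤ 1 / 78 := by
    have : 26 * T ≤ k * T := mul_le_mul_of_nonneg_right hk' hT.le
    linarith
  have hkT : 0 < k * T := by positivity
  have hH := HS_le (by omega) hT hv θ M1_s (M1_hs h0 h1)
  have hK := M1_K (k := k) (θ := θ) hT (by linarith) h0 h1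
  have hL : 0 ≤ log (1 / (k * T)) := log_nonneg (by
    rw [le_div_iff₀ hkT]
    linarith)
  have hlk : 0 ≤ log (k : ℝ) := log_nonneg (by linarith)
  have hlT : log T = -log (1 / (k * T)) - log k := by
    rw [one_div, log_inv, log_mul (by positivity) hT.ne']
    ring
  have d1 := dd_one_third
  have d2 := dd_two_third
  have d3 := dd_three_third
  have d4 := dd_four_third
  have d5 := dd_five_third
  have l6 := M1_log_six
  have l3 : log (1 / 3 : ℝ) ≤ -1.0986 := by
    rw [one_div, log_inv]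
    linarith [M1_log_three]
  rw [M1_sum, hlT] at hH
  generalize log (1 / (k * T)) = L at *
  generalize log (k : ℝ) = lk at *
  generalize log (1 / 3 : ℝ) = lt at *
  generalize log (6 : ℝ) = ls at *
  generalize dd 1 (1 / 3) = e1 at *
  generalize dd 2 (1 / 3) = e2 at *
  generalize dd 3 (1 / 3) = e3 at *
  generalize dd 4 (1 / 3) = e4 at *
  generalize dd 5 (1 / 3) = e5 at *
  norm_num [M1_s, al] at *
  linarith

end Pool.Agent.SignedQ.Far
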