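import Pool.Agent.Lib.MP_cf17a0_co.Far.Fu0

/-! # FAR arcs: the harmonics on one interval of `θ` (task FUR1) -/

namespace Pool.Agent.SignedQ.Far

open Real Finset

/-! Interval R1. Lower bounds `s l` of `|sin (l (π+θ)/2)|` (for even `l` this is `|sin (l θ/2)|`, for odd `l`
`|cos (l θ/2)|`) on the interval: l = 1: 1/s = 0.40067 k; l = 2: 1/s = 0.20134 k; l = 3: 1/s = 0.13536 k; l = 4: 1/s = 0.10274 k; l = 5: 1/s = 0.08348 k. They come from `sin u ≥ u - u³/6` with `u` = the distance of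
`l (π+θ)/2` to the nearest multiple of `π` at the worse end of the interval (`|sin|` is concave between its
zeros). The last term: `K_term_le` with `c = 0.01005` rounded up (`cosh T ≤ 1.0001` since `T ≤ 1/78`), and on R1 `(cosh T - cos δ)/2 ≤ δ²/4 (1.005)`, `δ = π - θ ≥ 5/k ≥ 15 T`, `δ ≤ 1/5`.
Then `log (1/T) = log (1/(kT)) + log k`, `log T = -log (1/T)`, `log (1/(kT)) ≥ log 3 > 0`, the numbers of Fn, `log_fact_ge0`,
numerical bounds of `log 10`, `log 3`, `log 6` and of `log c`; every coefficient below is rounded up by `≥ 0`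
(up to `10⁻⁴`; if a coefficient fails by rounding tell me: there is slack). -/

private theorem FuR_al1 : al 1 = 41 / 100 := by norm_num [al]
private theorem FuR_al2 : al 2 = 2 / 9 := by norm_num [al]
private theorem FuR_al3 : al 3 = 1 / 6 := by norm_num [al]
private theorem FuR_al4 : al 4 = 1 / 9 := by norm_num [al]
private theorem FuR_al5 : al 5 = 1 / 18 := by norm_num [al]

private theorem FuR_sum (f : ℕ → ℝ) :
    ∑ l ∈ Icc 1 5, f l = f 1 + f 2 + f 3 + f 4 + f 5 := by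
  have h : Icc 1 5 = ({1, 2, 3, 4, 5} : Finset ℕ) := by decide
  rw [h]
  simp [Finset.sum_insert]
  ring

/-- `sin u ≤ sin x` for `u ≤ x ≤ π - u`. -/
private theorem FuR_sin {u x : ℝ} (h0 : 0 ≤ u) (h1 : u ≤ x) (h2 : x ≤ π - u) : sin u ≤ sin x := by
  rcases le_total x (π / 2) with h | h
  · exact sin_le_sin_of_le_of_le_pi_div_two (by linarith [pi_pos]) h h1
  · rw [← sin_pi_sub x]
    exact sin_le_sin_of_le_of_le_pi_div_two (by linarith [pi_pos]) (by linarith) (by linarith)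

private theorem FuR_sin' {u x s : ℝ} (h0 : 0 < u) (h1 : u ≤ x) (h2 : x ≤ π - u)
    (h : s ≤ u - u ^ 3 / 6) : s ≤ sin x :=
  h.trans ((sin_gt_sub_cube h0).le.trans (FuR_sin h0.le h1 h2))

/-- `log 10`, `log 6` -/
private theorem FuR_log10 : 2302585 / 1000000 ≤ log 10 ∧ log 10 ≤ 2302586 / 1000000 := by
  have g1 := log_two_gt_d9
  have g2 := log_two_lt_d9
  norm_num at g1 g2
  have h := Fn_bd (x := 5 / 4) (y := (2231435 / 10000000 : ℝ)) (z := (2231437 / 10000000 : ℝ))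
    (by norm_num) (by norm_num) (by norm_num) (by norm_num)
    (by norm_num [Finset.sum_range_succ, Nat.factorial])
    (by norm_num [Finset.sum_range_succ, Nat.factorial])
  have e : log (5 / 4) = log 10 - 3 * log 2 := by
    rw [show (5 / 4 : ℝ) = 10 / 2 ^ 3 by norm_num, log_div (by norm_num) (by norm_num), log_pow]
    push_cast
    ring
  rw [e] at h
  constructor
  · linarith [h.1]
  · linarith [h.2]

private theorem FuR_log3 : 1098612 / 1000000 ≤ log 3 ∧ log 3 ≤ 1098613 / 1000000 := by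
  have g1 := log_two_gt_d9
  have g2 := log_two_lt_d9
  norm_num at g1 g2
  have h := Fn_bd (x := 3 / 2) (y := (4054650 / 10000000 : ℝ)) (z := (4054652 / 10000000 : ℝ))
    (by norm_num) (by norm_num) (by norm_num) (by norm_num)
    (by norm_num [Finset.sum_range_succ, Nat.factorial])
    (by norm_num [Finset.sum_range_succ, Nat.factorial])
  have e : log (3 / 2) = log 3 - log 2 := log_div (by norm_num) (by norm_num)
  rw [e] at h
  constructor
  · linarith [h.1]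
  · linarith [h.2]

private theorem FuR_log6 : 1791759 / 1000000 ≤ log 6 ∧ log 6 ≤ 1791761 / 1000000 := by
  have g1 := log_two_gt_d9
  have g2 := log_two_lt_d9
  norm_num at g1 g2
  obtain ⟨h1, h2⟩ := FuR_log3
  have e : log 6 = log 3 + log 2 := by
    rw [show (6 : ℝ) = 3 * 2 by norm_num, log_mul (by norm_num) (by norm_num)]
  rw [e]
  constructor
  · linarith
  · linarith

/-- the elementary facts about `k`, `T` -/
private theorem FuR_basic {k : ℕ} (hk : 26 ≤ k) {T : ℝ} (hT : 0 < T) (hv : k * T ≤ 1 / 3) :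
    (26 : ℝ) ≤ k ∧ T ≤ 1 / 78 ∧ 0 ≤ log (1 / (k * T)) ∧ 0 ≤ log (k : ℝ) ∧
      log (1 / T) = log (1 / (k * T)) + log (k : ℝ) ∧
      log T = -(log (1 / (k * T)) + log (k : ℝ)) := by
  have hk' : (26 : ℝ) ≤ k := by exact_mod_cast hk
  have hk0 : (0 : ℝ) < k := by linarith
  have hT1 : T ≤ 1 / 78 := by nlinarith
  have hkT : 0 < (k : ℝ) * T := by positivity
  have h1 : 1 ≤ 1 / ((k : ℝ) * T) := by
    rw [le_div_iff₀ hkT]
    linarith
  have e1 : log (1 / T) = log (1 / (k * T)) + log (k : ℝ) := by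
    rw [← log_mul (by positivity) (by positivity)]
    congr 1
    field_simp
  refine ⟨hk', hT1, log_nonneg h1, log_nonneg (by linarith), e1, ?_⟩
  rw [← e1, one_div, log_inv, neg_neg]

/-- The numbers `c l` with `s l = 1 / (c l k)`. -/
private noncomputable def FuR_c (l : ℕ) : ℝ :=
  if l = 1 then 40067 / 100000 else if l = 2 then 20134 / 100000 else if l = 3 then 13536 / 100000
    else if l = 4 then 10274 / 100000 else 8348 / 100000

private theorem FuR_c1 : FuR_c 1 = 40067 / 100000 := by norm_num [FuR_c]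
private theorem FuR_c2 : FuR_c 2 = 20134 / 100000 := by norm_num [FuR_c]
private theorem FuR_c3 : FuR_c 3 = 13536 / 100000 := by norm_num [FuR_c]
private theorem FuR_c4 : FuR_c 4 = 10274 / 100000 := by norm_num [FuR_c]
private theorem FuR_c5 : FuR_c 5 = 8348 / 100000 := by norm_num [FuR_c]

private theorem FuR_num {l : ℕ} (h1 : 1 ≤ l) (h5 : l ≤ 5) :
    0 < FuR_c l ∧ 1 ≤ FuR_c l * (5 / 2 * l) * (1 - (5 / 2 * l) ^ 2 / (6 * 676)) := by
  interval_cases l
  · rw [FuR_c1]; norm_num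
  · rw [FuR_c2]; norm_num
  · rw [FuR_c3]; norm_num
  · rw [FuR_c4]; norm_num
  · rw [FuR_c5]; norm_num

private theorem FuR_hs {k : ℕ} (hk : 26 ≤ k) {θ : ℝ} (h0 : π - 1 / 5 ≤ θ) (h1 : θ ≤ π - 5 / k) :
    ∀ l, 1 ≤ l → l ≤ 5 → 0 < 1 / (FuR_c l * k) ∧
      1 / (FuR_c l * k) ≤ |sin (l * (π + θ) / 2)| := by
  have p1 := pi_gt_d6
  have p2 := pi_lt_d6
  norm_num at p1 p2
  have hk' : (26 : ℝ) ≤ k := by exact_mod_cast hk
  have hk0 : (0 : ℝ) < k := by linarith
  intro l hl1 hl5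
  obtain ⟨hc0, hc1⟩ := FuR_num hl1 hl5
  have hl1' : (1 : ℝ) ≤ l := by exact_mod_cast hl1
  have hl5' : (l : ℝ) ≤ 5 := by exact_mod_cast hl5
  refine ⟨by positivity, ?_⟩
  have e : (l : ℝ) * (π + θ) / 2 = l * π - l * (π - θ) / 2 := by ring
  rw [e, sin_nat_mul_pi_sub, abs_neg, abs_mul, abs_pow, abs_neg, abs_one, one_pow, one_mul]
  refine le_trans ?_ (le_abs_self _)
  have hinv : 1 / (k : ℝ) ≤ 1 / 26 := one_div_le_one_div_of_le (by norm_num) hk'
  have hinv0 : 0 < 1 / (k : ℝ) := by positivity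
  have e5 : 5 / (k : ℝ) = 5 * (1 / k) := by ring
  have hδ : 5 * (1 / (k : ℝ)) ≤ π - θ := by
    rw [← e5]
    linarith
  refine FuR_sin' (u := 5 / 2 * l * (1 / k)) (by positivity) ?_ ?_ ?_
  · have := mul_le_mul_of_nonneg_left hδ (by linarith : (0 : ℝ) ≤ l / 2)
    linarith
  · have a1 : (l : ℝ) * (π - θ) ≤ 5 * (1 / 5) :=
      mul_le_mul hl5' (by linarith) (by linarith) (by norm_num)
    have a2 : (l : ℝ) * (1 / k) ≤ 5 * (1 / 26) :=
      mul_le_mul hl5' hinv (by positivity) (by norm_num)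
    linarith
  · have b1 : 5 / 2 * (l : ℝ) * (1 / k) - (5 / 2 * l * (1 / k)) ^ 3 / 6 =
        (5 / 2 * l) * (1 - (5 / 2 * l) ^ 2 / 6 * (1 / k) ^ 2) * (1 / k) := by ring
    have b2 : (1 / (k : ℝ)) ^ 2 ≤ (1 / 26) ^ 2 := pow_le_pow_left₀ hinv0.le hinv 2
    have b3 : (5 / 2 * (l : ℝ)) ^ 2 / 6 * (1 / k) ^ 2 ≤ (5 / 2 * (l : ℝ)) ^ 2 / 6 * (1 / 26) ^ 2 :=
      mul_le_mul_of_nonneg_left b2 (by positivity)
    have b4 : 1 - (5 / 2 * (l : ℝ)) ^ 2 / (6 * 676) ≤
        1 - (5 / 2 * (l : ℝ)) ^ 2 / 6 * (1 / k) ^ 2 := by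
      have : (5 / 2 * (l : ℝ)) ^ 2 / (6 * 676) = (5 / 2 * (l : ℝ)) ^ 2 / 6 * (1 / 26) ^ 2 := by ring
      linarith
    have b5 : 1 ≤ FuR_c l * (5 / 2 * l) * (1 - (5 / 2 * (l : ℝ)) ^ 2 / 6 * (1 / k) ^ 2) :=
      hc1.trans (mul_le_mul_of_nonneg_left b4 (by positivity))
    have b6 : (5 / 2 * (l : ℝ)) * (1 - (5 / 2 * (l : ℝ)) ^ 2 / 6 * (1 / k) ^ 2) * (1 / k) *
        (FuR_c l * k) = FuR_c l * (5 / 2 * l) * (1 - (5 / 2 * (l : ℝ)) ^ 2 / 6 * (1 / k) ^ 2) *
          (1 / k * k) := by ring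
    rw [b1, div_le_iff₀ (by positivity), b6, one_div_mul_cancel hk0.ne', mul_one]
    exact b5

private theorem FuR_arg {k : ℕ} (hk : 26 ≤ k) {T θ : ℝ} (hT : 0 < T) (hv : k * T ≤ 1 / 3)
    (h0 : π - 1 / 5 ≤ θ) (h1 : θ ≤ π - 5 / k) : (cosh T + cos θ) / 2 ≤ 1005 / 100000 := by
  have hk' : (26 : ℝ) ≤ k := by exact_mod_cast hk
  have hk0 : (0 : ℝ) < k := by linarith
  have hT1 : T ≤ 1 / 78 := by nlinarith
  have hδT : 15 * T ≤ π - θ := by
    have a1 : 15 * T ≤ 5 / k := by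
      rw [le_div_iff₀ hk0]
      linarith
    linarith
  have hδ : π - θ ≤ 1 / 5 := by linarith
  have c1 : 1 - (π - θ) ^ 2 / 2 ≤ cos (π - θ) := one_sub_sq_div_two_le_cos
  rw [cos_pi_sub] at c1
  have c2 : cosh T ≤ exp (T ^ 2 / 2) := cosh_le_exp_half_sq T
  have t0 : 0 ≤ T ^ 2 / 2 := by positivity
  have t1 : T ^ 2 / 2 ≤ 1 / 100 := by nlinarith
  have c3 := abs_exp_sub_one_sub_id_le (x := T ^ 2 / 2) (by rw [abs_of_nonneg t0]; linarith)
  have c4 := (abs_le.1 c3).2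
  have c5 : (T ^ 2 / 2) ^ 2 ≤ 1 / 100 * (T ^ 2 / 2) := by nlinarith
  have c6 : 225 * T ^ 2 ≤ (π - θ) ^ 2 := by nlinarith
  have c7 : (π - θ) ^ 2 ≤ 1 / 25 := by nlinarith
  nlinarith

private theorem FuR_logc : log (1005 / 100000) ≤ -(4600178 / 1000000) := by
  have g1 := log_two_gt_d9
  have g2 := log_two_lt_d9
  norm_num at g1 g2
  have h := Fn_bd (x := 20000 / 12864) (y := (441296 / 1000000 : ℝ)) (z := (441303 / 1000000 : ℝ))
    (by norm_num) (by norm_num) (by norm_num) (by norm_num)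
    (by norm_num [Finset.sum_range_succ, Nat.factorial])
    (by norm_num [Finset.sum_range_succ, Nat.factorial])
  have e : log (1005 / 100000) = -(log (20000 / 12864) + 6 * log 2) := by
    have e6 : 6 * log 2 = log (2 ^ 6) := by
      rw [log_pow]
      push_cast
      ring
    rw [e6, ← log_mul (by norm_num) (by norm_num), ← log_inv]
    norm_num
  rw [e]
  linarith [h.1]

theorem U_R1_ten {k : ℕ} (hk : 26 ≤ k) {T θ : ℝ} (hT : 0 < T) (hv : k * T ≤ 1 / 10)
    (h0 : π - 1 / 5 ≤ θ) (h1 : θ ≤ π - 5 / k) :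
    HS k T θ + (((k + 1) / 2 : ℕ) : ℝ) / 2 * log ((cosh T + cos θ) / 2) ≤
      (-0.8783) * k + 0.1239 * (k * log (1 / (k * T))) + (-0.4166) * log (1 / (k * T)) +
        (-0.4166) * log k + (-1.0304) := by
  have hv3 : k * T ≤ 1 / 3 := hv.trans (by norm_num)
  obtain ⟨hk', hT1, hL, hlk, eT, eT'⟩ := FuR_basic hk hT hv3
  have H := HS_le (by omega : 1 ≤ k) hT hv θ (fun l => 1 / (FuR_c l * k)) (FuR_hs hk h0 h1)
  have hc := FuR_arg hk hT hv3 h0 h1
  have K := K_term_le (k := k) hT (neg_one_le_cos θ) hc (by norm_num) (by norm_num)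
  have d1 := dd_one_tenth
  have d2 := dd_two_tenth
  have d3 := dd_three_tenth
  have d4 := dd_four_tenth
  have d5 := dd_five_tenth
  obtain ⟨v1, v2⟩ := FuR_log10
  obtain ⟨w1, w2⟩ := FuR_log6
  have c1 := FuR_logc
  have ev : log (1 / 10 : ℝ) = -log 10 := by rw [one_div, log_inv]
  have q2 : ∀ c : ℝ, 1 / (2 * (1 / (c * (k : ℝ)))) = c * k / 2 := by
    intro c
    simp only [one_div, mul_inv, inv_inv]
    ring
  rw [FuR_sum, eT', ev] at H
  simp only [one_div_one_div, q2, FuR_c1, FuR_c2, FuR_c3, FuR_c4, FuR_c5, FuR_al1, FuR_al2,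
    FuR_al3, FuR_al4, FuR_al5] at H
  refine (add_le_add H K).trans ?_
  have hk0 : (0 : ℝ) ≤ k := by linarith
  have m1 := mul_le_mul_of_nonneg_left d1 hk0
  have m2 := mul_le_mul_of_nonneg_left d2 hk0
  have m3 := mul_le_mul_of_nonneg_left d3 hk0
  have m4 := mul_le_mul_of_nonneg_left d4 hk0
  have m5 := mul_le_mul_of_nonneg_left d5 hk0
  have m6 := mul_le_mul_of_nonneg_left v1 hk0
  have m7 : (k : ℝ) * log (1005 / 100000) ≤ k * (-(4600178 / 1000000)) :=
    mul_le_mul_of_nonneg_left c1 hk0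
  have m8 : 0 ≤ (k : ℝ) * log (1 / (k * T)) := mul_nonneg hk0 hL
  clear H K hc eT eT' ev q2
  generalize log (1 / ((k : ℝ) * T)) = L at *
  generalize log (k : ℝ) = lk at *
  generalize log (10 : ℝ) = v at *
  generalize log (6 : ℝ) = w at *
  generalize log (1005 / 100000 : ℝ) = lc at *
  generalize dd 1 (1 / 10) = x1 at *
  generalize dd 2 (1 / 10) = x2 at *
  generalize dd 3 (1 / 10) = x3 at *
  generalize dd 4 (1 / 10) = x4 at *
  generalize dd 5 (1 / 10) = x5 at *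
  clear h1
  generalize (k : ℝ) = K at *
  norm_num at *
  linarith

theorem U_R1_three {k : ℕ} (hk : 26 ≤ k) {T θ : ℝ} (hT : 0 < T) (hv : k * T ≤ 1 / 3)
    (h0 : π - 1 / 5 ≤ θ) (h1 : θ ≤ π - 5 / k) :
    HS k T θ + (((k + 1) / 2 : ℕ) : ℝ) / 2 * log ((cosh T + cos θ) / 2) ≤
      (-0.8475) * k + 0.1239 * (k * log (1 / (k * T))) + (-0.4166) * log (1 / (k * T)) +
        (-0.4166) * log k + (-1.0304) := by
  have hv3 : k * T ≤ 1 / 3 := hv.trans (by norm_num)
  obtain ⟨hk', hT1, hL, hlk, eT, eT'⟩ := FuR_basic hk hT hv3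
  have H := HS_le (by omega : 1 ≤ k) hT hv θ (fun l => 1 / (FuR_c l * k)) (FuR_hs hk h0 h1)
  have hc := FuR_arg hk hT hv3 h0 h1
  have K := K_term_le (k := k) hT (neg_one_le_cos θ) hc (by norm_num) (by norm_num)
  have d1 := dd_one_third
  have d2 := dd_two_third
  have d3 := dd_three_third
  have d4 := dd_four_third
  have d5 := dd_five_third
  obtain ⟨v1, v2⟩ := FuR_log3
  obtain ⟨w1, w2⟩ := FuR_log6
  have c1 := FuR_logc
  have ev : log (1 / 3 : ℝ) = -log 3 := by rw [one_div, log_inv]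
  have q2 : ∀ c : ℝ, 1 / (2 * (1 / (c * (k : ℝ)))) = c * k / 2 := by
    intro c
    simp only [one_div, mul_inv, inv_inv]
    ring
  rw [FuR_sum, eT', ev] at H
  simp only [one_div_one_div, q2, FuR_c1, FuR_c2, FuR_c3, FuR_c4, FuR_c5, FuR_al1, FuR_al2,
    FuR_al3, FuR_al4, FuR_al5] at H
  refine (add_le_add H K).trans ?_
  have hk0 : (0 : ℝ) ≤ k := by linarith
  have m1 := mul_le_mul_of_nonneg_left d1 hk0
  have m2 := mul_le_mul_of_nonneg_left d2 hk0
  have m3 := mul_le_mul_of_nonneg_left d3 hk0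
  have m4 := mul_le_mul_of_nonneg_left d4 hk0
  have m5 := mul_le_mul_of_nonneg_left d5 hk0
  have m6 := mul_le_mul_of_nonneg_left v1 hk0
  have m7 : (k : ℝ) * log (1005 / 100000) ≤ k * (-(4600178 / 1000000)) :=
    mul_le_mul_of_nonneg_left c1 hk0
  have m8 : 0 ≤ (k : ℝ) * log (1 / (k * T)) := mul_nonneg hk0 hL
  clear H K hc eT eT' ev q2
  generalize log (1 / ((k : ℝ) * T)) = L at *
  generalize log (k : ℝ) = lk at *
  generalize log (3 : ℝ) = v at *
  generalize log (6 : ℝ) = w at *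
  generalize log (1005 / 100000 : ℝ) = lc at *
  generalize dd 1 (1 / 3) = x1 at *
  generalize dd 2 (1 / 3) = x2 at *
  generalize dd 3 (1 / 3) = x3 at *
  generalize dd 4 (1 / 3) = x4 at *
  generalize dd 5 (1 / 3) = x5 at *
  clear h1
  generalize (k : ℝ) = K at *
  norm_num at *
  linarith

end Pool.Agent.SignedQ.Far
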