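import Pool.Agent.Lib.MP_cf17a0_co.Mg.G014

/-! # FAR-1: rational bounds of `exp`, `log` and `Gm` -/

namespace Pool.Agent.SignedQ.Far1

open Finset MPcf17a0.S1F Pool.Agent.SignedQ.Far

/-- Taylor sum of order `12`. -/
def tayl (y : ℚ) : ℚ :=
  1 + y * (1 + y / 2 * (1 + y / 3 * (1 + y / 4 * (1 + y / 5 * (1 + y / 6 * (1 + y / 7 *
    (1 + y / 8 * (1 + y / 9 * (1 + y / 10 * (1 + y / 11))))))))))

/-- Lower bound of `exp y`, `y ≥ 0`. -/
def eL (m : ℕ) (y : ℚ) : ℚ := tayl (y / m) ^ m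

/-- Upper bound of `exp y`, `0 ≤ y ≤ m`. -/
def eU (m : ℕ) (y : ℚ) : ℚ := (tayl (y / m) + (y / m) ^ 12 * 13 / 5748019200) ^ m

theorem tayl_eq (y : ℚ) : ((tayl y : ℚ) : ℝ) = ∑ i ∈ range 12, (y:ℝ) ^ i / i.factorial := by
  unfold tayl
  push_cast
  simp only [sum_range_succ, sum_range_zero, Nat.factorial]
  push_cast
  ring

theorem eL_le {m : ℕ} (hm : 0 < m) {y : ℚ} (hy : 0 ≤ y) : ((eL m y : ℚ) : ℝ) ≤ Real.exp y := by
  unfold eL
  have hm' : (0:ℝ) < m := by exact_mod_cast hm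
  have hy' : (0:ℝ) ≤ y := by exact_mod_cast hy
  have e : Real.exp y = Real.exp ((y / m : ℚ) : ℝ) ^ m := by
    rw [← Real.exp_nat_mul]; congr 1; push_cast; field_simp
  have h0 : (0:ℝ) ≤ ((y / m : ℚ) : ℝ) := by push_cast; positivity
  have h1 := Real.sum_le_exp_of_nonneg h0 12
  rw [← tayl_eq] at h1
  have h2 : (0:ℝ) ≤ ((tayl (y / m) : ℚ) : ℝ) := by
    rw [tayl_eq]
    exact sum_nonneg fun i _ => by positivity
  rw [e, Rat.cast_pow]
  exact pow_le_pow_left₀ h2 h1 m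

theorem le_eU {m : ℕ} (hm : 0 < m) {y : ℚ} (hy : 0 ≤ y) (hym : y ≤ m) :
    Real.exp y ≤ ((eU m y : ℚ) : ℝ) := by
  unfold eU
  have hm' : (0:ℝ) < m := by exact_mod_cast hm
  have hy' : (0:ℝ) ≤ y := by exact_mod_cast hy
  have hym' : (y:ℝ) ≤ m := by exact_mod_cast hym
  have e : Real.exp y = Real.exp ((y / m : ℚ) : ℝ) ^ m := by
    rw [← Real.exp_nat_mul]; congr 1; push_cast; field_simp
  have h0 : (0:ℝ) ≤ ((y / m : ℚ) : ℝ) := by push_cast; positivity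
  have h1 : ((y / m : ℚ) : ℝ) ≤ 1 := by push_cast; rw [div_le_one hm']; exact hym'
  have h2 := Real.exp_bound' h0 h1 (n := 12) (by norm_num)
  rw [← tayl_eq] at h2
  rw [e, Rat.cast_pow]
  refine pow_le_pow_left₀ (Real.exp_pos _).le (h2.trans (le_of_eq ?_)) m
  push_cast
  norm_num [Nat.factorial]

/-- `L ≤ log x`. -/
def lgL (m : ℕ) (L x : ℚ) : Bool := decide (0 < m) && decide (0 ≤ L) && decide (L ≤ m) && decide (eU m L ≤ x)

theorem lgL_sound {m : ℕ} {L x : ℚ} (h : lgL m L x = true) : (L:ℝ) ≤ Real.log x := by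
  unfold lgL at h
  simp only [Bool.and_eq_true, decide_eq_true_eq] at h
  obtain ⟨⟨⟨h0, h1⟩, h2⟩, h3⟩ := h
  have h4 := le_eU h0 h1 h2
  have h5 : ((eU m L : ℚ) : ℝ) ≤ x := by exact_mod_cast h3
  have hx : (0:ℝ) < x := (Real.exp_pos _).trans_le (h4.trans h5)
  rw [Real.le_log_iff_exp_le hx]
  exact h4.trans h5

/-- `log x ≤ L`, `L ≥ 0`. -/
def lgU (m : ℕ) (L x : ℚ) : Bool := decide (0 < m) && decide (0 ≤ L) && decide (0 < x) && decide (x ≤ eL m L)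

theorem lgU_sound {m : ℕ} {L x : ℚ} (h : lgU m L x = true) : Real.log x ≤ (L:ℝ) := by
  unfold lgU at h
  simp only [Bool.and_eq_true, decide_eq_true_eq] at h
  obtain ⟨⟨⟨h0, h1⟩, h2⟩, h3⟩ := h
  have h4 := eL_le h0 h1
  have h5 : (x:ℝ) ≤ ((eL m L : ℚ) : ℝ) := by exact_mod_cast h3
  have hx : (0:ℝ) < x := by exact_mod_cast h2
  rw [Real.log_le_iff_le_exp hx]
  exact h5.trans h4

/-! ### `J` -/

theorem J_le_series {x q : ℝ} (hx : 0 < x) (hq : Real.exp (-(2 * x)) ≤ q) (hq1 : q < 1) :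
    J x ≤ q + q ^ 3 / 9 + q ^ 5 / 25 + q ^ 7 / (49 * (1 - q ^ 2)) := by
  have hp : 0 < Real.exp (-(2 * x)) := Real.exp_pos _
  obtain ⟨p, hpd⟩ : ∃ p, p = Real.exp (-(2 * x)) := ⟨_, rfl⟩
  rw [← hpd] at hq hp
  have hp1 : p < 1 := hq.trans_lt hq1
  have hq0 : 0 < q := hp.trans_le hq
  have hJt : ∀ m : ℕ, Jt x m = p ^ (2 * m + 1) / (2 * m + 1) ^ 2 := by
    intro m
    unfold Jt
    rw [hpd, ← Real.exp_nat_mul]
    congr 2
    push_cast
    ring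
  have h0 := (J_summable hx.le).hasSum
  have h1 : HasSum (fun m : ℕ => Jt x (m + 3)) (J x - (Jt x 0 + Jt x 1 + Jt x 2)) := by
    have := (hasSum_nat_add_iff' 3).mpr h0
    simpa [J, sum_range_succ] using this
  have hp2 : p ^ 2 < 1 := by nlinarith
  have h2 : HasSum (fun m : ℕ => p ^ 7 / 49 * (p ^ 2) ^ m) (p ^ 7 / 49 * (1 - p ^ 2)⁻¹) :=
    (hasSum_geometric_of_lt_one (by positivity) hp2).mul_left _
  have h3 : J x - (Jt x 0 + Jt x 1 + Jt x 2) ≤ p ^ 7 / 49 * (1 - p ^ 2)⁻¹ := by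
    refine hasSum_le (fun m => ?_) h1 h2
    rw [hJt]
    have e : p ^ (2 * (m + 3) + 1) = p ^ 7 * (p ^ 2) ^ m := by rw [← pow_mul, ← pow_add]; congr 1; ring
    rw [e, div_mul_eq_mul_div]
    apply div_le_div_of_nonneg_left (by positivity) (by norm_num)
    push_cast
    nlinarith [(Nat.cast_nonneg m : (0:ℝ) ≤ m)]
  rw [hJt, hJt, hJt] at h3
  have e1 : p ≤ q := hq
  have e3 : p ^ 3 ≤ q ^ 3 := pow_le_pow_left₀ hp.le hq 3
  have e5 : p ^ 5 ≤ q ^ 5 := pow_le_pow_left₀ hp.le hq 5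
  have e7 : p ^ 7 / 49 * (1 - p ^ 2)⁻¹ ≤ q ^ 7 / (49 * (1 - q ^ 2)) := by
    have h7 : p ^ 7 ≤ q ^ 7 := pow_le_pow_left₀ hp.le hq 7
    have hq2 : q ^ 2 < 1 := by nlinarith
    have h22 : p ^ 2 ≤ q ^ 2 := pow_le_pow_left₀ hp.le hq 2
    have : p ^ 7 / 49 * (1 - p ^ 2)⁻¹ = p ^ 7 / (49 * (1 - p ^ 2)) := by
      have : (1 - p ^ 2) ≠ 0 := by linarith
      field_simp
    rw [this]
    exact div_le_div₀ (by positivity) h7 (by linarith) (by linarith)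
  norm_num at h3
  linarith

theorem J_ge_series {x q : ℝ} (hx : 0 < x) (hq0 : 0 ≤ q) (hq : q ≤ Real.exp (-(2 * x))) :
    q + q ^ 3 / 9 + q ^ 5 / 25 ≤ J x := by
  have hJt : ∀ m : ℕ, Jt x m = Real.exp (-(2 * x)) ^ (2 * m + 1) / (2 * m + 1) ^ 2 := by
    intro m
    unfold Jt
    rw [← Real.exp_nat_mul]
    congr 2
    push_cast
    ring
  have h := (J_summable hx.le).sum_le_tsum (range 3) (fun m _ => Jt_nonneg x m)
  rw [sum_range_succ, sum_range_succ, sum_range_succ, sum_range_zero, hJt, hJt, hJt] at h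
  have e3 := pow_le_pow_left₀ hq0 hq 3
  have e5 := pow_le_pow_left₀ hq0 hq 5
  norm_num at h
  unfold J
  linarith

theorem J0_le : J 0 ≤ 123371 / 100000 := by
  rw [J_zero]
  have := Real.pi_lt_d6
  have h3 := Real.pi_gt_three
  nlinarith

/-- `qU·exp(2x) ≥ 1`. -/
theorem exp_neg_le_of {m : ℕ} {x q : ℚ} (hm : 0 < m) (hx : 0 ≤ x) (h : 1 ≤ q * eL m (2 * x)) :
    Real.exp (-(2 * (x:ℝ))) ≤ q := by
  have h1 := eL_le hm (y := 2 * x) (by positivity)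
  have hp := Real.exp_pos (2 * (x:ℝ))
  have e : (((2 * x : ℚ)) : ℝ) = 2 * x := by push_cast; ring
  rw [e] at h1
  have h2 : (1:ℝ) ≤ q * ((eL m (2 * x) : ℚ) : ℝ) := by exact_mod_cast h
  have heL : (0:ℝ) ≤ ((eL m (2 * x) : ℚ) : ℝ) := by
    unfold eL
    rw [Rat.cast_pow, tayl_eq]
    have : (0:ℝ) ≤ (((2 * x / m : ℚ)) : ℝ) := by
      have : (0:ℝ) ≤ x := by exact_mod_cast hx
      push_cast; positivity
    exact pow_nonneg (sum_nonneg fun i _ => by positivity) _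
  have hq : (0:ℝ) ≤ q := by
    by_contra hc
    have : (q:ℝ) * ((eL m (2 * x) : ℚ) : ℝ) ≤ 0 := mul_nonpos_of_nonpos_of_nonneg (not_le.1 hc).le heL
    linarith
  rw [Real.exp_neg, inv_le_iff_one_le_mul₀ hp]
  exact h2.trans (mul_le_mul_of_nonneg_left h1 hq)

theorem le_exp_neg_of {m : ℕ} {x q : ℚ} (hm : 0 < m) (hx : 0 ≤ x) (hxm : 2 * x ≤ m) (hq : 0 ≤ q)
    (h : q * eU m (2 * x) ≤ 1) : (q:ℝ) ≤ Real.exp (-(2 * (x:ℝ))) := by
  have h1 := le_eU hm (y := 2 * x) (by positivity) hxm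
  have hp := Real.exp_pos (2 * (x:ℝ))
  have e : (((2 * x : ℚ)) : ℝ) = 2 * x := by push_cast; ring
  rw [e] at h1
  have h2 : (q:ℝ) * ((eU m (2 * x) : ℚ) : ℝ) ≤ 1 := by exact_mod_cast h
  have hq' : (0:ℝ) ≤ q := by exact_mod_cast hq
  rw [Real.exp_neg, ← one_div, le_div_iff₀ hp]
  exact (mul_le_mul_of_nonneg_left h1 hq').trans h2

/-! ### `Gm` -/

def serU (q : ℚ) : ℚ := q + q ^ 3 / 9 + q ^ 5 / 25 + q ^ 7 / (49 * (1 - q ^ 2))
def serL (q : ℚ) : ℚ := q + q ^ 3 / 9 + q ^ 5 / 25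

/-- Lower bound of `J x2`. -/
def okL (x2 q2 : ℚ) : Bool :=
  decide (0 < x2) && decide (0 ≤ q2) && decide (2 * x2 ≤ 20) && decide (q2 * eU 20 (2 * x2) ≤ 1)

theorem okL_sound {x2 q2 : ℚ} (h : okL x2 q2 = true) : ((serL q2 : ℚ) : ℝ) ≤ J x2 := by
  unfold okL at h
  simp only [Bool.and_eq_true, decide_eq_true_eq] at h
  obtain ⟨⟨⟨h0, h1⟩, h2⟩, h3⟩ := h
  have h4 := le_exp_neg_of (m := 20) (by norm_num) h0.le (by exact_mod_cast h2) h1 h3
  have h5 : (0:ℝ) < x2 := by exact_mod_cast h0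
  have h6 := J_ge_series h5 (by exact_mod_cast h1) h4
  unfold serL
  push_cast
  exact h6

/-- `Gm z r ≤ g`, series for `J (z (1-r))`. -/
def gmS (z r g q1 q2 : ℚ) : Bool :=
  decide (0 < z) && decide (0 < r) && decide (r < 1) && decide (q1 < 1) &&
  decide (1 ≤ q1 * eL 8 (2 * (z * (1 - r)))) && okL (z * (1 + r)) q2 &&
  decide (serU q1 - serL q2 ≤ 2 * z * r * g)

/-- `Gm z r ≤ g`, logarithm for `J (z (1-r))`. -/
def gmL (z r g l1 q2 : ℚ) : Bool :=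
  decide (0 < z) && decide (0 < r) && decide (r < 1) && lgL 8 l1 (1 / (z * (1 - r))) &&
  okL (z * (1 + r)) q2 &&
  decide (123371 / 100000 - z * (1 - r) * (1 + l1) - serL q2 ≤ 2 * z * r * g)

/-- `Gm z 1 ≤ g`. -/
def gm0 (z g q2 : ℚ) : Bool :=
  decide (0 < z) && okL (z * 2) q2 && decide (123371 / 100000 - serL q2 ≤ 2 * z * g)

theorem Gm_le_of {z r g A B : ℝ} (hz : 0 < z) (hr : 0 < r) (hA : J (z * (1 - r)) ≤ A)
    (hB : B ≤ J (z * (1 + r))) (h : A - B ≤ 2 * z * r * g) : Gm z r ≤ g := by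
  unfold Gm
  rw [div_le_iff₀ (by positivity)]
  linarith

theorem gmS_sound {z r g q1 q2 : ℚ} (h : gmS z r g q1 q2 = true) : Gm z r ≤ g := by
  unfold gmS at h
  simp only [Bool.and_eq_true, decide_eq_true_eq] at h
  obtain ⟨⟨⟨⟨⟨⟨h0, h1⟩, h2⟩, h3⟩, h4⟩, h5⟩, h6⟩ := h
  have hz : (0:ℝ) < z := by exact_mod_cast h0
  have hr : (0:ℝ) < r := by exact_mod_cast h1
  have hr1 : (r:ℝ) < 1 := by exact_mod_cast h2
  have hq : (q1:ℝ) < 1 := by exact_mod_cast h3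
  have hx0 : 0 < z * (1 - r) := mul_pos h0 (by linarith)
  have a1 := exp_neg_le_of (m := 8) (by norm_num) hx0.le h4
  have hx1 : (0:ℝ) < z * (1 - r) := mul_pos hz (by linarith)
  have e1 : (((z * (1 - r) : ℚ)) : ℝ) = z * (1 - r) := by push_cast; ring
  rw [e1] at a1
  have a2 := J_le_series hx1 a1 hq
  have a3 := okL_sound h5
  have e2 : (((z * (1 + r) : ℚ)) : ℝ) = z * (1 + r) := by push_cast; ring
  rw [e2] at a3
  have h6' : ((serU q1 : ℚ) : ℝ) - ((serL q2 : ℚ) : ℝ) ≤ 2 * z * r * g := by exact_mod_cast h6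
  refine Gm_le_of hz hr (A := ((serU q1 : ℚ) : ℝ)) ?_ a3 h6'
  unfold serU
  push_cast
  exact a2

theorem gmL_sound {z r g l1 q2 : ℚ} (h : gmL z r g l1 q2 = true) : Gm z r ≤ g := by
  unfold gmL at h
  simp only [Bool.and_eq_true, decide_eq_true_eq] at h
  obtain ⟨⟨⟨⟨⟨h0, h1⟩, h2⟩, h4⟩, h5⟩, h6⟩ := h
  have hz : (0:ℝ) < z := by exact_mod_cast h0
  have hr : (0:ℝ) < r := by exact_mod_cast h1
  have hr1 : (r:ℝ) < 1 := by exact_mod_cast h2
  have hx1 : (0:ℝ) < z * (1 - r) := mul_pos hz (by linarith)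
  have a1 := lgL_sound h4
  have e1 : (((1 / (z * (1 - r)) : ℚ)) : ℝ) = 1 / (z * (1 - r)) := by push_cast; ring
  rw [e1, one_div, Real.log_inv] at a1
  have a2 := J_low hx1
  have a3 := okL_sound h5
  have e2 : (((z * (1 + r) : ℚ)) : ℝ) = z * (1 + r) := by push_cast; ring
  rw [e2] at a3
  have h6' : (123371 / 100000 : ℝ) - z * (1 - r) * (1 + l1) - ((serL q2 : ℚ) : ℝ) ≤ 2 * z * r * g := by
    have := (Rat.cast_le (K := ℝ)).2 h6
    push_cast at this; exact this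
  have a4 := J0_le
  refine Gm_le_of hz hr (A := 123371 / 100000 - z * (1 - r) * (1 + l1)) ?_ a3 h6'
  have a5 : (z:ℝ) * (1 - r) * (1 + l1) ≤ z * (1 - r) * (1 - Real.log (z * (1 - r))) :=
    mul_le_mul_of_nonneg_left (by linarith) hx1.le
  linarith

theorem gm0_sound {z g q2 : ℚ} (h : gm0 z g q2 = true) : Gm z 1 ≤ g := by
  unfold gm0 at h
  simp only [Bool.and_eq_true, decide_eq_true_eq] at h
  obtain ⟨⟨h0, h5⟩, h6⟩ := h
  have hz : (0:ℝ) < z := by exact_mod_cast h0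
  have a3 := okL_sound h5
  have e2 : (((z * 2 : ℚ)) : ℝ) = z * (1 + 1) := by push_cast; ring
  rw [e2] at a3
  have h6' : (123371 / 100000 : ℝ) - ((serL q2 : ℚ) : ℝ) ≤ 2 * z * g := by
    have := (Rat.cast_le (K := ℝ)).2 h6
    push_cast at this; exact this
  refine Gm_le_of hz one_pos (A := 123371 / 100000) ?_ a3 (by linarith)
  rw [sub_self, mul_zero]
  exact J0_le

end Pool.Agent.SignedQ.Far1
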