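import Pool.Agent.Lib.MP_cf17a0_co.Far.Fg
import Pool.Agent.Lib.MP_cf17a0_co.Far.Fn

/-! # FAR arcs: the angular part, definitions -/

namespace Pool.Agent.SignedQ.Far

open Real Finset

/-- The angular part of the bound of `log rho` (`L = log (1/(k t))` below). -/
noncomputable def UU (k : ℕ) (t θ : ℝ) : ℝ :=
  (((k + 1) / 2 : ℕ) : ℝ) / 2 * log ((cosh t + cos θ) / (cosh t + 1)) +
    ∑ l ∈ Icc 1 5, ∑ j ∈ Icc 1 k, dd l (j * t) * cos (j * (l * (π + θ)))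

/-- `k (w1 + w2 L) + w3 + w4 L`. -/
noncomputable def fm (w1 w2 w3 w4 : ℝ) (k : ℕ) (t : ℝ) : ℝ :=
  k * (w1 + w2 * log (1 / (k * t))) + w3 + w4 * log (1 / (k * t))

end Pool.Agent.SignedQ.Far
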