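import Pool.Agent.Lib.MP_cf17a0_co.Far.GU0
import Pool.Agent.Lib.MP_cf17a0_co.Far.Fu0
import Pool.Agent.Lib.MP_cf17a0_co.S1.FarN

/-! # FAR arcs: the U lemma, general part (helper3) -/

namespace Pool.Agent.SignedQ.Far

open Real Finset

/-! ### Numerical tools -/

/-- `|sin x| ≥ sin r ≥ r - r³/6 + r⁵/120 - r⁷/5040` if the distance of `x` to `ℤπ` is `≥ r`. -/
theorem abs_sin_ge {x r : ℝ} (m : ℕ) (hr0 : 0 ≤ r) (hr1 : 2 * r ≤ π) (h0 : m * π + r ≤ x)
    (h1 : x ≤ (m + 1) * π - r) :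
    r - r ^ 3 / 6 + r ^ 5 / 120 - r ^ 7 / 5040 ≤ |sin x| := by
  obtain ⟨y, hy⟩ : ∃ y : ℝ, y = x - m * π := ⟨_, rfl⟩
  have hx : x = y + m * π := by rw [hy]; ring
  have h2 : |sin x| = |sin y| := by
    rw [hx, sin_add_nat_mul_pi, abs_mul, abs_pow, abs_neg, abs_one, one_pow, one_mul]
  have h3 : r ≤ y := by rw [hy]; linarith
  have h4 : y ≤ π - r := by rw [hy]; linarith
  have h5 : sin r ≤ sin y := by
    rcases le_total y (π / 2) with h | h
    · exact sin_le_sin_of_le_of_le_pi_div_two (by linarith [pi_pos]) h h3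
    · rw [← sin_pi_sub y]
      exact sin_le_sin_of_le_of_le_pi_div_two (by linarith [pi_pos]) (by linarith) (by linarith)
  rw [h2]
  exact (FarC.sin7 hr0).trans (h5.trans (le_abs_self _))

/-- Upper bounds of logarithms of small numbers. -/
theorem log_le_neg {X y : ℝ} (hX : 0 < X) (h0 : 0 ≤ y) (h4 : y ≤ 4)
    (h : X * (∑ m ∈ range 8, (y / 4) ^ m / (m.factorial : ℝ) + (y / 4) ^ 8 * (8 + 1) /
      ((Nat.factorial 8 : ℝ) * 8)) ^ 4 ≤ 1) : log X ≤ -y := by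
  have h1 : exp (y / 4) ≤ ∑ m ∈ range 8, (y / 4) ^ m / (m.factorial : ℝ) + (y / 4) ^ 8 * (8 + 1) /
      ((Nat.factorial 8 : ℝ) * 8) := by
    have := exp_bound' (x := y / 4) (by linarith) (by linarith) (n := 8) (by norm_num)
    exact_mod_cast this
  have h2 : exp y = exp (y / 4) ^ 4 := by rw [← exp_nat_mul]; congr 1; push_cast; ring
  rw [log_le_iff_le_exp hX, exp_neg, ← one_div, le_div_iff₀ (exp_pos _), h2]
  refine le_trans ?_ h
  exact mul_le_mul_of_nonneg_left (pow_le_pow_left₀ (exp_pos _).le h1 4) hX.le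

theorem log_two_pi_ge : 1.8378 ≤ log (2 * π) := by
  rw [le_log_iff_exp_le (by positivity)]
  have h1 : exp (1.8378 : ℝ) = exp 1 * exp 0.8378 := by
    rw [← exp_add]; norm_num
  have h2 : exp (0.8378 : ℝ) ≤ 2.311277 := by
    have := exp_bound' (x := 0.8378) (by norm_num) (by norm_num) (n := 10) (by norm_num)
    refine this.trans ?_
    norm_num [Finset.sum_range_succ, Nat.factorial]
  have h3 : exp 1 * exp 0.8378 ≤ 2.7182818286 * 2.311277 :=
    mul_le_mul exp_one_lt_d9.le h2 (exp_pos _).le (by norm_num)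
  have h4 := pi_gt_d6
  rw [h1]
  refine h3.trans ?_
  norm_num at h4 ⊢
  linarith

/-- Domination of a bilinear form by another one. -/
theorem dom {k L M w1 w2 w3 w4 a1 a2 a3 a4 : ℝ} (l0 : ℝ) (hk : 26 ≤ k) (hL : l0 ≤ L)
    (hM : k * (w1 + w2 * L) + w3 + w4 * L ≤ M) (h1 : a2 ≤ w2) (h2 : a1 + a2 * l0 ≤ w1 + w2 * l0)
    (h3 : 26 * a2 + a4 ≤ 26 * w2 + w4)
    (h4 : 26 * (a1 + a2 * l0) + a3 + a4 * l0 ≤ 26 * (w1 + w2 * l0) + w3 + w4 * l0) :
    k * a1 + k * a2 * L + a3 + a4 * L ≤ M := by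
  have e : k * (w1 + w2 * L) + w3 + w4 * L - (k * a1 + k * a2 * L + a3 + a4 * L) =
      (k - 26) * ((w1 + w2 * l0) - (a1 + a2 * l0)) + (k - 26) * (L - l0) * (w2 - a2) +
      (L - l0) * ((26 * w2 + w4) - (26 * a2 + a4)) +
      ((26 * (w1 + w2 * l0) + w3 + w4 * l0) - (26 * (a1 + a2 * l0) + a3 + a4 * l0)) := by ring
  have p1 : 0 ≤ (k - 26) * ((w1 + w2 * l0) - (a1 + a2 * l0)) :=
    mul_nonneg (by linarith) (by linarith)
  have p2 : 0 ≤ (k - 26) * (L - l0) * (w2 - a2) :=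
    mul_nonneg (mul_nonneg (by linarith) (by linarith)) (by linarith)
  have p3 : 0 ≤ (L - l0) * ((26 * w2 + w4) - (26 * a2 + a4)) :=
    mul_nonneg (by linarith) (by linarith)
  linarith

/-! ### The harmonics -/

/-- The numbers `b l ≥ dd l v₁ + al l log v₁`. -/
structure BB (v₁ b1 b2 b3 b4 b5 : ℝ) : Prop where
  h1 : dd 1 v₁ + al 1 * log v₁ ≤ b1
  h2 : dd 2 v₁ + al 2 * log v₁ ≤ b2
  h3 : dd 3 v₁ + al 3 * log v₁ ≤ b3
  h4 : dd 4 v₁ + al 4 * log v₁ ≤ b4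
  h5 : dd 5 v₁ + al 5 * log v₁ ≤ b5

theorem al1 : al 1 = 41 / 100 := by norm_num [al]
theorem al2 : al 2 = 2 / 9 := by norm_num [al]
theorem al3 : al 3 = 1 / 6 := by norm_num [al]
theorem al4 : al 4 = 1 / 9 := by norm_num [al]
theorem al5 : al 5 = 1 / 18 := by norm_num [al]

/-- One harmonic. -/
noncomputable def Hl (l k : ℕ) (t θ : ℝ) : ℝ :=
  ∑ j ∈ Icc 1 k, dd l (j * t) * cos (j * (l * (π + θ)))

theorem one_end {l : ℕ} (h1 : 1 ≤ l) (h5 : l ≤ 5) {k : ℕ} (hk : 26 ≤ k) {t v₁ : ℝ} (ht : 0 < t)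
    (hv : k * t ≤ v₁) (θ : ℝ) {b q e : ℝ} (hb : dd l v₁ + al l * log v₁ ≤ b) (hq0 : 0 < q)
    (hq : 1 / q ≤ |sin (l * (π + θ) / 2)|) (he0 : 0 ≤ e)
    (he : sin (((k : ℝ) + 1 / 2) * (l * (π + θ))) / (2 * sin (l * (π + θ) / 2)) ≤ e) :
    Hl l k t θ ≤ (al l * (q - 11 / 12) + (b + al l * log (1 / (k * t))) * e) - dd l t / 2 := by
  have h := Fu0_one h1 h5 (by omega : 1 ≤ k) ht hv θ (s := 1 / q) (by positivity) hq he0 he
  rw [one_div_one_div] at h
  have h2 : (dd l v₁ + al l * (log v₁ + log (1 / (k * t)))) * e ≤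
      (b + al l * log (1 / (k * t))) * e :=
    mul_le_mul_of_nonneg_right (by linarith) he0
  unfold Hl
  linarith

theorem one_nc {l : ℕ} (h1 : 1 ≤ l) (h5 : l ≤ 5) {k : ℕ} (hk : 26 ≤ k) {t v₁ : ℝ} (ht : 0 < t)
    (hv : k * t ≤ v₁) (θ : ℝ) {b q : ℝ} (hb : dd l v₁ + al l * log v₁ ≤ b) (hq0 : 0 < q)
    (hq : 1 / q ≤ |sin (l * (π + θ) / 2)|) :
    Hl l k t θ ≤ (al l * (q - 11 / 12) + (b + al l * log (1 / (k * t))) * (q / 2)) -
      dd l t / 2 := by
  refine one_end h1 h5 hk ht hv θ hb hq0 hq (by positivity) ?_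
  refine (Fg_end k (s := 1 / q) (by positivity) hq).trans (le_of_eq ?_)
  field_simp

theorem one_cap {l : ℕ} (h2 : 2 ≤ l) (h5 : l ≤ 5) {k : ℕ} (hk : 26 ≤ k) {t v₁ : ℝ} (ht : 0 < t)
    (hv : k * t ≤ v₁) (θ : ℝ) {b : ℝ} (hb : dd l v₁ + al l * log v₁ ≤ b) :
    Hl l k t θ ≤ (k * (b + al l) + al l * k * log (1 / (k * t)) + b / 2 +
      al l * log (1 / (k * t)) / 2 - al l * 0.9189) - dd l t / 2 := by
  have hk1 : (1 : ℝ) ≤ k := by exact_mod_cast (by omega : 1 ≤ k)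
  have hk0 : (0 : ℝ) < k := by linarith
  have hTv : t ≤ v₁ := le_trans (by nlinarith) hv
  have hv1 : 0 < v₁ := ht.trans_le hTv
  have hal : al l = (6 - (l : ℝ)) / 18 := by
    unfold al
    rw [if_neg (by omega)]
  have hal0 : 0 ≤ al l := by rw [hal]; exact Fg_a h5
  have h3 := harm_cap h2 h5 (k := k) ht hv hv1 (l * (π + θ))
  have h4 := dd_upper (by omega) h5 ht hTv
  rw [← hal] at h3
  have hst := Stirling.le_log_factorial_stirling (n := k) (by omega)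
  have h2p := log_two_pi_ge
  have hlt : log (1 / t) = log (1 / (k * t)) + log k := by
    rw [one_div, one_div, log_inv, log_inv, log_mul hk0.ne' ht.ne']; ring
  have h5' : al l * (k * log (1 / t) - log (k.factorial : ℝ)) ≤
      al l * (k * log (1 / (k * t)) + k - log k / 2 - 0.9189) := by
    refine mul_le_mul_of_nonneg_left ?_ hal0
    rw [hlt]
    norm_num at h2p ⊢
    linarith
  have h6 : (k : ℝ) * (dd l v₁ + al l * log v₁) ≤ k * b := mul_le_mul_of_nonneg_left hb hk0.le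
  rw [hlt] at h4
  unfold Hl
  linarith

/-! ### The sum -/

theorem UU_core {k : ℕ} {t θ : ℝ} (ht : 0 < t) {K G1 G2 G3 G4 G5 : ℝ}
    (hK : (((k + 1) / 2 : ℕ) : ℝ) / 2 * log ((cosh t + cos θ) / (cosh t + 1)) ≤ K)
    (H1 : Hl 1 k t θ ≤ G1 - dd 1 t / 2) (H2 : Hl 2 k t θ ≤ G2 - dd 2 t / 2)
    (H3 : Hl 3 k t θ ≤ G3 - dd 3 t / 2) (H4 : Hl 4 k t θ ≤ G4 - dd 4 t / 2)
    (H5 : Hl 5 k t θ ≤ G5 - dd 5 t / 2) :
    UU k t θ ≤ K + (G1 + G2 + G3 + G4 + G5) - 5 / 12 * log (1 / t) - 1 / 12 * log 6 + t / 4 := by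
  have h2 := dd_sum_ge ht
  have e : ∑ l ∈ Icc 1 5, ∑ j ∈ Icc 1 k, dd l (j * t) * cos (j * (l * (π + θ))) =
      Hl 1 k t θ + Hl 2 k t θ + Hl 3 k t θ + Hl 4 k t θ + Hl 5 k t θ := by
    have e : (Icc 1 5 : Finset ℕ) = {1, 2, 3, 4, 5} := by decide
    rw [e]
    simp only [Finset.sum_insert, Finset.mem_insert, Finset.mem_singleton,
      Finset.sum_singleton, OfNat.one_ne_ofNat, Nat.reduceEqDiff, or_self,
      not_false_eq_true]
    unfold Hl
    ring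
  have hlt : log (1 / t) = -log t := by rw [one_div, log_inv]
  unfold UU
  rw [e, hlt]
  linarith

theorem cosh_le_26 {t : ℝ} (ht : 0 < t) (ht' : t ≤ 1 / 26) : cosh t ≤ 1.00075 := by
  have h := cosh_le_exp_half_sq t
  have h1 : t ^ 2 / 2 ≤ 0.00074 := by
    have : t ^ 2 ≤ (1 / 26) ^ 2 := pow_le_pow_left₀ ht.le ht' 2
    norm_num at this ⊢
    linarith
  have h2 : exp (t ^ 2 / 2) ≤ exp 0.00074 := exp_le_exp.2 h1
  have h3 : exp (0.00074 : ℝ) ≤ 1.00075 := by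
    have := exp_bound' (x := 0.00074) (by norm_num) (by norm_num) (n := 3) (by norm_num)
    refine this.trans ?_
    norm_num [Finset.sum_range_succ, Nat.factorial]
  linarith

/-- The first summand. -/
theorem K_le {k : ℕ} {t θ x y : ℝ} (ht : 0 < t) (ht' : t ≤ 1 / 26) (hx : x ≤ 1 - cos θ)
    (hy : 0 ≤ y) (h : log (1 - x / 2.00075) ≤ -y) (hx0 : 0 ≤ x) :
    (((k + 1) / 2 : ℕ) : ℝ) / 2 * log ((cosh t + cos θ) / (cosh t + 1)) ≤ k * (-(y / 4)) := by
  have hc := cosh_le_26 ht ht'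
  have hc1 : 1 < cosh t := one_lt_cosh.2 ht.ne'
  have hcθ := neg_one_le_cos θ
  have hX0 : 0 < (cosh t + cos θ) / (cosh t + 1) := div_pos (by linarith) (by linarith)
  have hX : (cosh t + cos θ) / (cosh t + 1) ≤ 1 - x / 2.00075 := by
    have e : (cosh t + cos θ) / (cosh t + 1) = 1 - (1 - cos θ) / (cosh t + 1) := by
      field_simp
      ring
    rw [e]
    have h3 : x / 2.00075 ≤ (1 - cos θ) / (cosh t + 1) := by
      refine div_le_div₀ (by linarith) hx (by linarith) ?_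
      norm_num at hc ⊢
      linarith
    linarith
  have h1 : log ((cosh t + cos θ) / (cosh t + 1)) ≤ -y := (log_le_log hX0 hX).trans h
  have h2 : (k : ℝ) / 4 ≤ (((k + 1) / 2 : ℕ) : ℝ) / 2 := by
    have : k ≤ 2 * ((k + 1) / 2) := by omega
    have : (k : ℝ) ≤ 2 * (((k + 1) / 2 : ℕ) : ℝ) := by exact_mod_cast this
    linarith
  calc (((k + 1) / 2 : ℕ) : ℝ) / 2 * log ((cosh t + cos θ) / (cosh t + 1))
      ≤ (((k + 1) / 2 : ℕ) : ℝ) / 2 * (-y) := mul_le_mul_of_nonneg_left h1 (by positivity)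
    _ ≤ (k : ℝ) / 4 * (-y) := mul_le_mul_of_nonpos_right h2 (by linarith)
    _ = _ := by ring

theorem K_le_zero {k : ℕ} {t θ : ℝ} (ht : 0 < t) :
    (((k + 1) / 2 : ℕ) : ℝ) / 2 * log ((cosh t + cos θ) / (cosh t + 1)) ≤ k * 0 := by
  have hc1 : 1 < cosh t := one_lt_cosh.2 ht.ne'
  have hcθ := neg_one_le_cos θ
  have hcθ' := cos_le_one θ
  have hX0 : 0 < (cosh t + cos θ) / (cosh t + 1) := div_pos (by linarith) (by linarith)
  have hX : (cosh t + cos θ) / (cosh t + 1) ≤ 1 := (div_le_one (by linarith)).2 (by linarith)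
  rw [mul_zero]
  exact mul_nonpos_of_nonneg_of_nonpos (by positivity) (log_nonpos hX0.le hX)

/-- `1 - cos θ` from below. -/
theorem one_sub_cos_ge {θ a x : ℝ} (ha0 : 0 ≤ a) (ha : a ≤ θ) (hπ : θ ≤ π)
    (h : x ≤ a ^ 2 / 2 - a ^ 4 / 24 + a ^ 6 / 720 - a ^ 8 / 40320) : x ≤ 1 - cos θ := by
  have h1 := FarC.cos8 ha0
  have h2 : cos θ ≤ cos a := cos_le_cos_of_nonneg_of_le_pi ha0 hπ ha
  linarith

/-! ### The values of `v₁` -/

theorem log_ten_ge : (2.3025 : ℝ) ≤ log 10 := by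
  rw [le_log_iff_exp_le (by norm_num)]
  have h1 := exp_one_lt_d9
  have h2 : exp (2.3025 : ℝ) = exp 1 ^ 2 * exp 0.3025 := by
    rw [← exp_nat_mul, ← exp_add]
    norm_num
  have h3 : exp (0.3025 : ℝ) ≤ 1.353240 := by
    have := exp_bound' (x := 0.3025) (by norm_num) (by norm_num) (n := 8) (by norm_num)
    refine this.trans ?_
    norm_num [Finset.sum_range_succ, Nat.factorial]
  rw [h2]
  have h4 : exp 1 ^ 2 ≤ 7.38906 := by
    have : exp 1 ^ 2 ≤ 2.7182818286 ^ 2 := pow_le_pow_left₀ (exp_pos _).le h1.le 2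
    norm_num at this ⊢
    linarith
  calc exp 1 ^ 2 * exp 0.3025 ≤ 7.38906 * 1.353240 :=
        mul_le_mul h4 h3 (exp_pos _).le (by norm_num)
    _ ≤ 10 := by norm_num

theorem BB_ten : BB (1 / 10) 0.1560 0.0254 (-0.0657) (-0.0698) (-0.0409) := by
  have hl : log (1 / 10 : ℝ) ≤ -2.3025 := by
    rw [one_div, log_inv]
    linarith [log_ten_ge]
  have d1 := dd_one_tenth
  have d2 := dd_two_tenth
  have d3 := dd_three_tenth
  have d4 := dd_four_tenth
  have d5 := dd_five_tenth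
  constructor
  · rw [al1]; norm_num at d1 hl ⊢; linarith
  · rw [al2]; norm_num at d2 hl ⊢; linarith
  · rw [al3]; norm_num at d3 hl ⊢; linarith
  · rw [al4]; norm_num at d4 hl ⊢; linarith
  · rw [al5]; norm_num at d5 hl ⊢; linarith

theorem BB_third : BB (1 / 3) 0.2996 0.0289 (-0.0540) (-0.0577) (-0.0337) := by
  have hl : log (1 / 3 : ℝ) ≤ -1.0986 := by
    rw [one_div, log_inv]
    linarith [FarC.n3']
  have d1 := dd_one_third
  have d2 := dd_two_third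
  have d3 := dd_three_third
  have d4 := dd_four_third
  have d5 := dd_five_third
  constructor
  · rw [al1]; norm_num at d1 hl ⊢; linarith
  · rw [al2]; norm_num at d2 hl ⊢; linarith
  · rw [al3]; norm_num at d3 hl ⊢; linarith
  · rw [al4]; norm_num at d4 hl ⊢; linarith
  · rw [al5]; norm_num at d5 hl ⊢; linarith

theorem BB_one : BB 1 0.37 0.07 0.017 0.005 0.0014 := by
  have d1 := dd_one_unit
  have d2 := dd_two_unit
  have d3 := dd_three_unit
  have d4 := dd_four_unit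
  have d5 := dd_five_unit
  constructor
  · rw [log_one, mul_zero, add_zero]; exact d1
  · rw [log_one, mul_zero, add_zero]; exact d2
  · rw [log_one, mul_zero, add_zero]; exact d3
  · rw [log_one, mul_zero, add_zero]; exact d4
  · rw [log_one, mul_zero, add_zero]; exact d5

end Pool.Agent.SignedQ.Far
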